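import Mathlib

set_option autoImplicit false

open scoped TensorProduct

namespace Pool.Agent.helper2.WG

universe u v w

section

variable (R : Type u) [Ring R] (M : Type v) [AddCommGroup M] [Module Rᵐᵒᵖ M]
  (N : Type w) [AddCommGroup N] [Module R N]

def balRel : AddSubgroup (M ⊗[ℤ] N) :=
  AddSubgroup.closure {t | ∃ (m : M) (r : R) (n : N),
    t = (MulOpposite.op r • m) ⊗ₜ[ℤ] n - m ⊗ₜ[ℤ] (r • n)}

abbrev Tens : Type (max v w) := (M ⊗[ℤ] N) ⧸ balRel R M N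

variable {N}
variable {N' : Type w} [AddCommGroup N'] [Module R N']

noncomputable def tensMap (f : N →ₗ[R] N') : Tens R M N →+ Tens R M N' :=
  QuotientAddGroup.map (balRel R M N) (balRel R M N')
    (TensorProduct.map (LinearMap.id : M →ₗ[ℤ] M) f.toAddMonoidHom.toIntLinearMap).toAddMonoidHom
    (by
      rw [balRel, AddSubgroup.closure_le]
      rintro _ ⟨m, r, n, rfl⟩
      refine AddSubgroup.subset_closure ⟨m, r, f n, ?_⟩
      rw [map_sub]
      change (MulOpposite.op r • m) ⊗ₜ[ℤ] (f n) - m ⊗ₜ[ℤ] (f (r • n)) = _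
      rw [map_smul])

end

def Flat (R : Type u) [Ring R] (M : Type u) [AddCommGroup M] [Module Rᵐᵒᵖ M] : Prop :=
  ∀ (N N' : Type u) [AddCommGroup N] [AddCommGroup N'] [Module R N] [Module R N']
    (f : N →ₗ[R] N'), Function.Injective f → Function.Injective (tensMap R M f)

def HasFlatResolution (R : Type u) [Ring R] (M : Type u) [AddCommGroup M] [Module Rᵐᵒᵖ M]
    (n : ℕ) : Prop :=
  ∃ (F : ℕ → Type u) (_ : ∀ i, AddCommGroup (F i)) (_ : ∀ i, Module Rᵐᵒᵖ (F i))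
    (d : ∀ i, F (i + 1) →ₗ[Rᵐᵒᵖ] F i) (ε : F 0 →ₗ[Rᵐᵒᵖ] M),
    (∀ i, Flat R (F i)) ∧ Function.Surjective ε ∧ Function.Exact (d 0) ε ∧
    (∀ i, Function.Exact (d (i + 1)) (d i)) ∧ ∀ i, n < i → Subsingleton (F i)

noncomputable def flatDim (R : Type u) [Ring R] (M : Type u) [AddCommGroup M] [Module Rᵐᵒᵖ M] :
    ℕ∞ :=
  ⨅ (n : ℕ) (_ : HasFlatResolution R M n), (n : ℕ∞)

noncomputable def wGlDim (R : Type u) [Ring R] : ℕ∞ :=
  ⨆ (M : Type u) (_ : AddCommGroup M) (_ : Module Rᵐᵒᵖ M), flatDim R M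

end Pool.Agent.helper2.WG
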