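import Mathlib
import Pool.Agent.helper2.WG.Defs

set_option autoImplicit false

open scoped TensorProduct

namespace Pool.Agent.helper2.WG

universe u v w

namespace Homol

/-! ### The equational criterion -/

section EC

variable (S : Type u) [Ring S] (M : Type v) [AddCommGroup M] [Module S M]

/-- equational criterion for a left module over an arbitrary ring -/
def EC : Prop :=
  ∀ (n : ℕ) (m : Fin n → M) (s : Fin n → S), ∑ i, s i • m i = 0 →
    ∃ (k : ℕ) (y : Fin k → M) (b : Fin k → Fin n → S),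
      (∀ i, m i = ∑ j, b j i • y j) ∧ ∀ j, ∑ i, s i * b j i = 0

variable {S M}

theorem EC.fintype (h : EC S M) {ι : Type w} [Fintype ι] (m : ι → M) (s : ι → S)
    (h0 : ∑ i, s i • m i = 0) :
    ∃ (k : ℕ) (y : Fin k → M) (b : Fin k → ι → S),
      (∀ i, m i = ∑ j, b j i • y j) ∧ ∀ j, ∑ i, s i * b j i = 0 := by
  classical
  let e := Fintype.equivFin ι
  obtain ⟨k, y, b, h1, h2⟩ := h (Fintype.card ι) (fun i => m (e.symm i)) (fun i => s (e.symm i))
    (by rw [← h0]; exact Equiv.sum_comp e.symm (fun i => s i • m i))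
  refine ⟨k, y, fun j i => b j (e i), fun i => ?_, fun j => ?_⟩
  · simpa using h1 (e i)
  · rw [← h2 j, ← Equiv.sum_comp e]
    simp

theorem EC.multi (h : EC S M) {ι : Type w} [Fintype ι] (m : ι → M) (q : ℕ) (s : Fin q → ι → S)
    (h0 : ∀ c, ∑ i, s c i • m i = 0) :
    ∃ (k : ℕ) (y : Fin k → M) (b : Fin k → ι → S),
      (∀ i, m i = ∑ j, b j i • y j) ∧ ∀ c j, ∑ i, s c i * b j i = 0 := by
  classical
  induction q with
  | zero =>
    let e := Fintype.equivFin ι
    refine ⟨Fintype.card ι, fun j => m (e.symm j), fun j i => if e i = j then 1 else 0, fun i => ?_,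
      fun c => c.elim0⟩
    simp
  | succ q ih =>
    obtain ⟨k, y, b, h1, h2⟩ := ih (fun c => s c.castSucc) (fun c => h0 _)
    have h3 : ∑ j, (∑ i, s (Fin.last q) i * b j i) • y j = 0 := by
      rw [← h0 (Fin.last q)]
      simp_rw [Finset.sum_smul, mul_smul]
      rw [Finset.sum_comm]
      refine Finset.sum_congr rfl fun i _ => ?_
      rw [← Finset.smul_sum, ← h1 i]
    obtain ⟨k', y', b', h1', h2'⟩ := h k y _ h3
    refine ⟨k', y', fun p i => ∑ j, b j i * b' p j, fun i => ?_, fun c p => ?_⟩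
    · rw [h1 i]
      simp_rw [Finset.sum_smul, mul_smul]
      rw [Finset.sum_comm]
      refine Finset.sum_congr rfl fun j _ => ?_
      rw [← Finset.smul_sum, ← h1' j]
    · have key : ∑ i, s c i * ∑ j, b j i * b' p j = ∑ j, (∑ i, s c i * b j i) * b' p j := by
        simp_rw [Finset.mul_sum, Finset.sum_mul]
        rw [Finset.sum_comm]
        simp_rw [mul_assoc]
      rw [key]
      induction c using Fin.lastCases with
      | last => exact h2' p
      | cast c => simp [h2 c]

theorem EC.multi' (h : EC S M) {ι : Type w} [Fintype ι] {κ : Type v} [Fintype κ] (m : ι → M)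
    (s : κ → ι → S) (h0 : ∀ c, ∑ i, s c i • m i = 0) :
    ∃ (k : ℕ) (y : Fin k → M) (b : Fin k → ι → S),
      (∀ i, m i = ∑ j, b j i • y j) ∧ ∀ c j, ∑ i, s c i * b j i = 0 := by
  classical
  let e := Fintype.equivFin κ
  obtain ⟨k, y, b, h1, h2⟩ := h.multi m (Fintype.card κ) (fun c => s (e.symm c)) (fun c => h0 _)
  refine ⟨k, y, b, h1, fun c j => ?_⟩
  simpa using h2 (e c) j

/-- the criterion for a submodule-like family inside a free module follows from a flat resolution -/
theorem ec_kernel {F1 : Type v} {F0 : Type v} [AddCommGroup F1] [Module S F1] [AddCommGroup F0]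
    [Module S F0] (h1 : EC S F1) (h0 : EC S F0) (d : F1 →ₗ[S] F0) (ε : F0 →ₗ[S] M)
    (hd : Function.Injective d) (hex : Function.Exact d ε)
    {n : ℕ} (p : (Fin n → S) →ₗ[S] M) (hε : Function.Surjective ε) (hp : Function.Surjective p)
    (t : ℕ) (z : Fin t → (Fin n → S)) (hz : ∀ i, p (z i) = 0)
    (q : ℕ) (s : Fin q → Fin t → S) (hs : ∀ c, ∑ i, s c i • z i = 0) :
    ∃ (ι : Type) (_ : Fintype ι) (y : ι → (Fin n → S)) (b : ι → Fin t → S),
      (∀ j, p (y j) = 0) ∧ (∀ i, z i = ∑ j, b j i • y j) ∧ ∀ c j, ∑ i, s c i * b j i = 0 := by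
  classical
  -- lift of p
  choose f hf using fun l : Fin n => hε (p (Pi.single l 1))
  let φ : (Fin n → S) →ₗ[S] F0 := Fintype.linearCombination S f
  have hφ : ∀ w, ε (φ w) = p w := by
    intro w
    have : φ w = ∑ l, w l • f l := rfl
    rw [this, map_sum]
    simp_rw [map_smul, hf, ← map_smul, ← map_sum]
    congr 1
    ext l
    simp [Finset.sum_apply, Pi.single_apply]
  have hu : ∀ i, ∃ u, d u = φ (z i) := fun i => (hex (φ (z i))).1 (by rw [hφ, hz])
  choose U hU using hu
  have hUs : ∀ c, ∑ i, s c i • U i = 0 := by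
    intro c
    apply hd
    rw [map_sum, map_zero]
    simp_rw [map_smul, hU, ← map_smul, ← map_sum]
    rw [hs, map_zero]
  obtain ⟨k, v, b1, hv1, hv2⟩ := h1.multi U q s hUs
  -- J = Fin n ⊕ Fin k
  let Y : Fin n ⊕ Fin k → (Fin n → S) := Sum.elim (fun l => Pi.single l 1) (fun _ => 0)
  let V : Fin n ⊕ Fin k → F1 := Sum.elim (fun _ => 0) v
  let c : Fin n ⊕ Fin k → Fin t → S := Sum.elim (fun l i => z i l) b1
  have hzY : ∀ i, z i = ∑ j, c j i • Y j := by
    intro i
    simp only [Fintype.sum_sum_type, c, Y, Sum.elim_inl, Sum.elim_inr, smul_zero,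
      Finset.sum_const_zero, add_zero]
    ext l
    simp [Finset.sum_apply, Pi.single_apply]
  have hUV : ∀ i, U i = ∑ j, c j i • V j := by
    intro i
    simp only [Fintype.sum_sum_type, c, V, Sum.elim_inl, Sum.elim_inr, smul_zero,
      Finset.sum_const_zero, zero_add]
    exact hv1 i
  have hcs : ∀ e j, ∑ i, s e i * c j i = 0 := by
    rintro e (l | j)
    · have := congrFun (hs e) l
      simpa [Finset.sum_apply, c] using this
    · exact hv2 e j
  let W : Fin n ⊕ Fin k → F0 := fun j => φ (Y j) - d (V j)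
  have hW : ∀ i, ∑ j, c j i • W j = 0 := by
    intro i
    simp only [W, smul_sub, Finset.sum_sub_distrib]
    simp_rw [← map_smul, ← map_sum]
    rw [← hzY, ← hUV, hU, sub_self]
  obtain ⟨k', x, b, hx1, hx2⟩ := h0.multi W t (fun i j => c j i) hW
  have hx : ∀ p', ∃ y' v', x p' = φ y' - d v' := by
    intro p'
    obtain ⟨y', hy'⟩ := hp (ε (x p'))
    obtain ⟨v', hv'⟩ := (hex (φ y' - x p')).1 (by rw [map_sub, hφ, hy', sub_self])
    exact ⟨y', v', by rw [hv']; abel⟩
  choose y' v' hyv using hx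
  refine ⟨Fin n ⊕ Fin k, inferInstance, fun j => Y j - ∑ p', b p' j • y' p', c, fun j => ?_,
    fun i => ?_, hcs⟩
  · rw [← hφ]
    refine (hex _).2 ⟨V j - ∑ p', b p' j • v' p', ?_⟩
    have h3 : W j = φ (Y j) - d (V j) := rfl
    have h4 := hx1 j
    rw [h3] at h4
    simp_rw [hyv, smul_sub, Finset.sum_sub_distrib, ← map_smul, ← map_sum] at h4
    rw [map_sub, map_sub]
    have h5 : φ (Y j) = d (V j) + (φ (∑ p', b p' j • y' p') - d (∑ p', b p' j • v' p')) := by
      rw [← h4]; abel
    rw [h5]; abel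
  · simp only [smul_sub, Finset.sum_sub_distrib]
    rw [← hzY]
    have : ∑ j, c j i • ∑ p', b p' j • y' p' = 0 := by
      simp_rw [Finset.smul_sum, smul_smul]
      rw [Finset.sum_comm]
      refine Finset.sum_eq_zero fun p' _ => ?_
      rw [← Finset.sum_smul, hx2 i p', zero_smul]
    rw [this, sub_zero]

theorem ec_finsupp (X : Type v) : EC S (X →₀ S) := by
  classical
  intro n m s h
  let T : Finset X := Finset.univ.biUnion fun i => (m i).support
  let e := T.equivFin
  refine ⟨T.card, fun j => Finsupp.single (e.symm j : X) 1, fun j i => m i (e.symm j : X),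
    fun i => ?_, fun j => ?_⟩
  · have h1 : ∑ j : Fin T.card, m i (e.symm j : X) • Finsupp.single (e.symm j : X) (1 : S)
        = ∑ x : T, m i (x : X) • Finsupp.single (x : X) (1 : S) :=
      Equiv.sum_comp e.symm (fun x : T => m i (x : X) • Finsupp.single (x : X) (1 : S))
    rw [h1, Finset.sum_coe_sort T (fun x => m i x • Finsupp.single x (1 : S))]
    ext x
    simp only [Finsupp.coe_finsetSum, Finset.sum_apply, Finsupp.smul_apply, smul_eq_mul,
      Finsupp.single_apply, mul_ite, mul_one, mul_zero, Finset.sum_ite_eq']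
    split_ifs with hx
    · rfl
    · by_contra hne
      apply hx
      exact Finset.mem_biUnion.2 ⟨i, Finset.mem_univ _, Finsupp.mem_support_iff.2 hne⟩
  · have := DFunLike.congr_fun h (e.symm j : X)
    simpa [Finsupp.coe_finsetSum, Finset.sum_apply] using this

end EC

/-! ### Tensor products over a noncommutative ring -/

section Tens

variable {R : Type u} [Ring R] {M : Type v} [AddCommGroup M] [Module Rᵐᵒᵖ M]
  {N : Type w} [AddCommGroup N] [Module R N] {N' : Type w} [AddCommGroup N'] [Module R N']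
  {P : Type w} [AddCommGroup P] [Module R P]

/-- pure tensors -/
def tmk (m : M) (n : N) : Tens R M N := QuotientAddGroup.mk (m ⊗ₜ[ℤ] n)

theorem tmk_add_left (m m' : M) (n : N) : (tmk (m + m') n : Tens R M N) = tmk m n + tmk m' n := by
  unfold tmk
  rw [TensorProduct.add_tmul]; rfl

theorem tmk_add_right (m : M) (n n' : N) : (tmk m (n + n') : Tens R M N) = tmk m n + tmk m n' := by
  unfold tmk
  rw [TensorProduct.tmul_add]; rfl

theorem tmk_zero_left (n : N) : (tmk (0 : M) n : Tens R M N) = 0 := by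
  unfold tmk
  rw [TensorProduct.zero_tmul]; rfl

theorem tmk_zero_right (m : M) : (tmk m (0 : N) : Tens R M N) = 0 := by
  unfold tmk
  rw [TensorProduct.tmul_zero]; rfl

theorem tmk_neg_right (m : M) (n : N) : (tmk m (-n) : Tens R M N) = - tmk m n := by
  rw [eq_neg_iff_add_eq_zero, ← tmk_add_right, neg_add_cancel, tmk_zero_right]

theorem tmk_sub_right (m : M) (n n' : N) : (tmk m (n - n') : Tens R M N) = tmk m n - tmk m n' := by
  rw [sub_eq_add_neg, tmk_add_right, tmk_neg_right, ← sub_eq_add_neg]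

theorem tmk_smul (r : R) (m : M) (n : N) :
    (tmk (MulOpposite.op r • m) n : Tens R M N) = tmk m (r • n) := by
  unfold tmk
  rw [← sub_eq_zero]
  exact (QuotientAddGroup.eq_zero_iff _).2 (AddSubgroup.subset_closure ⟨m, r, n, rfl⟩)

theorem tmk_sum_left {ι : Type*} (s : Finset ι) (m : ι → M) (n : N) :
    (tmk (∑ i ∈ s, m i) n : Tens R M N) = ∑ i ∈ s, tmk (m i) n := by
  classical
  induction s using Finset.induction_on with
  | empty => simp [tmk_zero_left]
  | insert a s ha ih => rw [Finset.sum_insert ha, Finset.sum_insert ha, tmk_add_left, ih]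

theorem tmk_sum_right {ι : Type*} (s : Finset ι) (m : M) (n : ι → N) :
    (tmk m (∑ i ∈ s, n i) : Tens R M N) = ∑ i ∈ s, tmk m (n i) := by
  classical
  induction s using Finset.induction_on with
  | empty => simp [tmk_zero_right]
  | insert a s ha ih => rw [Finset.sum_insert ha, Finset.sum_insert ha, tmk_add_right, ih]

theorem tensMap_tmk (f : N →ₗ[R] N') (m : M) (n : N) :
    tensMap R M f (tmk m n) = tmk m (f n) := rfl

/-- maps out of the tensor product -/
noncomputable def tensLift {G : Type*} [AddCommGroup G] (f : M →+ N →+ G)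
    (hf : ∀ m (r : R) n, f (MulOpposite.op r • m) n = f m (r • n)) : Tens R M N →+ G :=
  QuotientAddGroup.lift (balRel R M N)
    (TensorProduct.liftAddHom f (fun r m n => by rw [map_zsmul, map_zsmul]; rfl)) (by
      rw [balRel, AddSubgroup.closure_le]
      rintro _ ⟨m, r, n, rfl⟩
      change _ = (0 : G)
      rw [map_sub, TensorProduct.liftAddHom_tmul, TensorProduct.liftAddHom_tmul, hf, sub_self])

theorem tensLift_tmk {G : Type*} [AddCommGroup G] (f : M →+ N →+ G)
    (hf : ∀ m (r : R) n, f (MulOpposite.op r • m) n = f m (r • n)) (m : M) (n : N) :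
    tensLift f hf (tmk m n) = f m n := by
  unfold tensLift tmk
  rfl

theorem exists_sum_tmk (t : Tens R M N) :
    ∃ (k : ℕ) (m : Fin k → M) (n : Fin k → N), t = ∑ i, tmk (m i) (n i) := by
  obtain ⟨t, rfl⟩ := QuotientAddGroup.mk_surjective t
  induction t with
  | zero => exact ⟨0, Fin.elim0, Fin.elim0, by simp⟩
  | tmul m n => exact ⟨1, fun _ => m, fun _ => n, by simp [tmk]⟩
  | add a b ha hb =>
    obtain ⟨k, m, n, h⟩ := ha
    obtain ⟨k', m', n', h'⟩ := hb
    refine ⟨k + k', Fin.append m m', Fin.append n n', ?_⟩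
    rw [Fin.sum_univ_add]
    simp only [Fin.append_left, Fin.append_right]
    rw [← h, ← h']
    rfl

/-- right exactness -/
theorem tens_right_exact (π : P →ₗ[R] N) (hπ : Function.Surjective π) (t : Tens R M P)
    (ht : tensMap R M π t = 0) :
    ∃ t' : Tens R M (LinearMap.ker π), tensMap R M (LinearMap.ker π).subtype t' = t := by
  classical
  let Rg : AddSubgroup (Tens R M P) := (tensMap R M (LinearMap.ker π).subtype).range
  let σ := Function.surjInv hπ
  have hσ : ∀ n, π (σ n) = n := Function.surjInv_eq hπ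
  have key : ∀ (m : M) (p p' : P), π p = π p' →
      (QuotientAddGroup.mk (tmk m p) : Tens R M P ⧸ Rg) = QuotientAddGroup.mk (tmk m p') := by
    intro m p p' h
    rw [QuotientAddGroup.eq]
    refine ⟨tmk m ⟨-p + p', ?_⟩, ?_⟩
    · rw [LinearMap.mem_ker, map_add, map_neg, h, neg_add_cancel]
    · rw [tensMap_tmk]
      change tmk m (-p + p') = _
      rw [tmk_add_right, tmk_neg_right]
  let f : M →+ N →+ (Tens R M P ⧸ Rg) :=
    { toFun := fun m =>
        { toFun := fun n => QuotientAddGroup.mk (tmk m (σ n))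
          map_zero' := by
            rw [key m (σ 0) 0 (by rw [hσ, map_zero]), tmk_zero_right]; rfl
          map_add' := fun n n' => by
            rw [key m (σ (n + n')) (σ n + σ n') (by rw [map_add, hσ, hσ, hσ]), tmk_add_right]
            rfl }
      map_zero' := by
        ext n
        change QuotientAddGroup.mk (tmk 0 (σ n)) = _
        rw [tmk_zero_left]; rfl
      map_add' := fun m m' => by
        ext n
        change QuotientAddGroup.mk (tmk (m + m') (σ n)) = _
        rw [tmk_add_left]; rfl }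
  have hf : ∀ m (r : R) n, f (MulOpposite.op r • m) n = f m (r • n) := by
    intro m r n
    change (QuotientAddGroup.mk (tmk (MulOpposite.op r • m) (σ n)) : Tens R M P ⧸ Rg)
      = QuotientAddGroup.mk (tmk m (σ (r • n)))
    rw [tmk_smul]
    exact key m _ _ (by rw [map_smul, hσ, hσ])
  have hg : ∀ s : Tens R M P, tensLift f hf (tensMap R M π s) = QuotientAddGroup.mk s := by
    intro s
    obtain ⟨k, m, n, rfl⟩ := exists_sum_tmk s
    rw [map_sum, map_sum]
    simp_rw [tensMap_tmk, tensLift_tmk]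
    have : (QuotientAddGroup.mk (∑ i, tmk (m i) (n i)) : Tens R M P ⧸ Rg)
        = ∑ i, (QuotientAddGroup.mk (tmk (m i) (n i)) : Tens R M P ⧸ Rg) :=
      map_sum (QuotientAddGroup.mk' Rg) _ _
    rw [this]
    refine Finset.sum_congr rfl fun i _ => ?_
    exact key _ _ _ (hσ _)
  have h0 := hg t
  rw [ht, map_zero] at h0
  exact (QuotientAddGroup.eq_zero_iff t).1 h0.symm

/-- evaluation at a linear functional -/
noncomputable def evT (ℓ : N →ₗ[R] R) : Tens R M N →+ M :=
  tensLift
    { toFun := fun m =>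
        { toFun := fun n => MulOpposite.op (ℓ n) • m
          map_zero' := by simp
          map_add' := fun n n' => by simp [add_smul] }
      map_zero' := by ext n; simp
      map_add' := fun m m' => by ext n; simp }
    (by
      intro m r n
      change MulOpposite.op (ℓ n) • MulOpposite.op r • m = MulOpposite.op (ℓ (r • n)) • m
      rw [smul_smul, ← MulOpposite.op_mul, map_smul, smul_eq_mul])

theorem evT_tmk (ℓ : N →ₗ[R] R) (m : M) (n : N) :
    evT ℓ (tmk m n : Tens R M N) = MulOpposite.op (ℓ n) • m := by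
  unfold evT
  rw [tensLift_tmk]; rfl

end Tens

/-! ### Flatness and the equational criterion -/

section Flat

variable {R : Type u} [Ring R] {M : Type u} [AddCommGroup M] [Module Rᵐᵒᵖ M]

open MulOpposite in
theorem ec_of_flat (h : Flat R M) : EC Rᵐᵒᵖ M := by
  classical
  intro n m s h0
  let φ : (Fin n → R) →ₗ[R] R := Fintype.linearCombination R (fun i => unop (s i))
  have hφ : ∀ c, φ c = ∑ i, c i * unop (s i) := fun c => rfl
  let π : (Fin n → R) →ₗ[R] LinearMap.range φ := φ.rangeRestrict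
  have hπ : Function.Surjective π := LinearMap.surjective_rangeRestrict φ
  let t : Tens R M (Fin n → R) := ∑ i, tmk (m i) (Pi.single i 1)
  have h1 : tensMap R M (LinearMap.range φ).subtype (tensMap R M π t) = 0 := by
    simp only [t, map_sum, tensMap_tmk]
    have : ∀ i, (tmk (m i) ((LinearMap.range φ).subtype (π (Pi.single i 1))) : Tens R M R)
        = tmk (s i • m i) 1 := by
      intro i
      have h2 : (LinearMap.range φ).subtype (π (Pi.single i 1)) = unop (s i) := by
        change φ (Pi.single i 1) = _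
        rw [hφ]
        simp [Pi.single_apply]
      rw [h2]
      conv_rhs => rw [← op_unop (s i), tmk_smul, smul_eq_mul, mul_one]
    simp_rw [this, ← tmk_sum_left]
    rw [h0, tmk_zero_left]
  have h2 : tensMap R M π t = 0 :=
    h _ _ (LinearMap.range φ).subtype (Submodule.subtype_injective _) (by rw [h1, map_zero])
  obtain ⟨t', ht'⟩ := tens_right_exact π hπ t h2
  obtain ⟨k, y, c, hc⟩ := exists_sum_tmk t'
  refine ⟨k, y, fun j i => op ((c j : Fin n → R) i), fun i => ?_, fun j => ?_⟩
  · have h3 := congrArg (evT (LinearMap.proj i)) ht'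
    rw [hc, map_sum, map_sum, map_sum] at h3
    simp only [tensMap_tmk, evT_tmk] at h3
    have h4 : ∑ j, op ((c j : Fin n → R) i) • y j
        = ∑ x, op ((Pi.single x (1 : R) : Fin n → R) i) • m x := h3
    rw [h4]
    simp [Pi.single_apply, apply_ite op]
  · have h4 : φ (c j) = 0 := by
      have := (c j).2
      rw [LinearMap.mem_ker] at this
      exact congrArg Subtype.val this
    rw [hφ] at h4
    apply unop_injective
    rw [Finset.unop_sum]
    simpa using h4

open MulOpposite in
theorem flat_of_ec (h : EC Rᵐᵒᵖ M) : Flat R M := by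
  classical
  intro N N' _ _ _ _ f hf
  rw [injective_iff_map_eq_zero]
  intro t ht
  obtain ⟨n, m, x, rfl⟩ := exists_sum_tmk t
  let π : ((Fin n → R) × (N' →₀ R)) →ₗ[R] N' :=
    (Fintype.linearCombination R (fun i => f (x i))).coprod (Finsupp.linearCombination R id)
  have hπa : ∀ c d, π (c, d) = ∑ i, c i • f (x i) + Finsupp.linearCombination R id d := by
    intro c d
    simp [π, Fintype.linearCombination_apply]
  have hπ : Function.Surjective π := by
    intro y
    refine ⟨(0, Finsupp.single y 1), ?_⟩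
    rw [hπa]
    simp
  let t0 : Tens R M ((Fin n → R) × (N' →₀ R)) := ∑ i, tmk (m i) (Pi.single i 1, 0)
  have h1 : tensMap R M π t0 = 0 := by
    rw [← ht]
    simp only [t0, map_sum, tensMap_tmk]
    refine Finset.sum_congr rfl fun i _ => ?_
    rw [hπa]
    congr 1
    simp [Pi.single_apply]
  obtain ⟨t', ht'⟩ := tens_right_exact π hπ t0 h1
  obtain ⟨k, y, c, hc⟩ := exists_sum_tmk t'
  have hm : ∀ i, m i = ∑ j, op ((c j : (Fin n → R) × (N' →₀ R)).1 i) • y j := by
    intro i
    have h3 := congrArg (evT ((LinearMap.proj i).comp (LinearMap.fst R (Fin n → R) (N' →₀ R)))) ht'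
    rw [hc, map_sum, map_sum, map_sum] at h3
    simp only [tensMap_tmk, evT_tmk] at h3
    have h4 : ∑ j, op ((c j : (Fin n → R) × (N' →₀ R)).1 i) • y j
        = ∑ x, op ((Pi.single x (1 : R) : Fin n → R) i) • m x := h3
    rw [h4]
    simp [Pi.single_apply, apply_ite op]
  have hd : ∀ z : N', ∑ j, op ((c j : (Fin n → R) × (N' →₀ R)).2 z) • y j = 0 := by
    intro z
    have h3 := congrArg (evT ((Finsupp.lapply z).comp (LinearMap.snd R (Fin n → R) (N' →₀ R)))) ht'
    rw [hc, map_sum, map_sum, map_sum] at h3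
    simp only [tensMap_tmk, evT_tmk] at h3
    simp only [LinearMap.coe_comp, Submodule.subtype_apply,
      Function.comp_apply, LinearMap.snd_apply, Finsupp.lapply_apply] at h3
    rw [h3]
    simp
  let T : Finset N' := Finset.univ.biUnion fun j => ((c j : (Fin n → R) × (N' →₀ R)).2).support
  obtain ⟨k', z, b, hz1, hz2⟩ := h.multi' (κ := T) y
    (fun x' j => op ((c j : (Fin n → R) × (N' →₀ R)).2 (x' : N'))) (fun x' => hd _)
  have hz3 : ∀ (x' : N') p, ∑ j, unop (b p j) * ((c j : (Fin n → R) × (N' →₀ R)).2 x') = 0 := by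
    intro x' p
    by_cases hx : x' ∈ T
    · have := hz2 ⟨x', hx⟩ p
      apply op_injective
      rw [Finset.op_sum]
      simpa using this
    · refine Finset.sum_eq_zero fun j _ => ?_
      have : (c j : (Fin n → R) × (N' →₀ R)).2 x' = 0 := by
        by_contra hne
        exact hx (Finset.mem_biUnion.2 ⟨j, Finset.mem_univ _, Finsupp.mem_support_iff.2 hne⟩)
      rw [this, mul_zero]
  let X : Fin k → N := fun j => ∑ i, (c j : (Fin n → R) × (N' →₀ R)).1 i • x i
  have hfX : ∀ j, f (X j) = - Finsupp.linearCombination R id (c j : (Fin n → R) × (N' →₀ R)).2 := by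
    intro j
    have := (c j).2
    rw [LinearMap.mem_ker] at this
    have h5 : π ((c j : (Fin n → R) × (N' →₀ R)).1, (c j : (Fin n → R) × (N' →₀ R)).2) = 0 := this
    rw [hπa] at h5
    rw [eq_neg_iff_add_eq_zero, ← h5]
    simp [X, map_sum]
  have hX : ∀ p, ∑ j, unop (b p j) • X j = 0 := by
    intro p
    apply hf
    rw [map_sum, map_zero]
    simp_rw [map_smul, hfX, smul_neg, Finset.sum_neg_distrib, ← map_smul, ← map_sum]
    rw [neg_eq_zero]
    have : ∑ j, unop (b p j) • (c j : (Fin n → R) × (N' →₀ R)).2 = 0 := by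
      ext x'
      simpa [Finsupp.coe_finsetSum, Finset.sum_apply] using hz3 x' p
    rw [this, map_zero]
  have hy : ∀ i, (tmk (m i) (x i) : Tens R M N)
      = ∑ j, tmk (y j) ((c j : (Fin n → R) × (N' →₀ R)).1 i • x i) := by
    intro i
    rw [hm i, tmk_sum_left]
    refine Finset.sum_congr rfl fun j _ => ?_
    rw [tmk_smul]
  simp_rw [hy]
  rw [Finset.sum_comm]
  simp_rw [← tmk_sum_right]
  change ∑ j, tmk (y j) (X j) = 0
  have hy2 : ∀ j, (tmk (y j) (X j) : Tens R M N) = ∑ p, tmk (z p) (unop (b p j) • X j) := by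
    intro j
    rw [hz1 j, tmk_sum_left]
    refine Finset.sum_congr rfl fun p _ => ?_
    rw [← tmk_smul, op_unop]
  simp_rw [hy2]
  rw [Finset.sum_comm]
  simp_rw [← tmk_sum_right, hX, tmk_zero_right]
  simp

end Flat

/-! ### Weak global dimension -/

section Dim

open MulOpposite

variable {R : Type u} [Ring R]

theorem ec_of_mat
    (h : ∀ (n : ℕ) (P Q : Matrix (Fin n) (Fin n) R), P * Q = 0 →
      ∃ T : Matrix (Fin n) (Fin n) R, P * T = 0 ∧ T * Q = Q)
    (X : Type u) (K : Submodule Rᵐᵒᵖ (X →₀ Rᵐᵒᵖ)) : EC Rᵐᵒᵖ K := by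
  classical
  have h' : ∀ (ι : Type u) [Fintype ι] [DecidableEq ι] (P Q : Matrix ι ι R), P * Q = 0 →
      ∃ T : Matrix ι ι R, P * T = 0 ∧ T * Q = Q := by
    intro ι _ _ P Q hPQ
    let e := Fintype.equivFin ι
    obtain ⟨T, h1, h2⟩ := h (Fintype.card ι) (P.submatrix e.symm e.symm)
      (Q.submatrix e.symm e.symm) (by
        rw [Matrix.submatrix_mul_equiv, hPQ]; rfl)
    have hP : P = (P.submatrix e.symm e.symm).submatrix e e := by ext; simp
    have hQ : Q = (Q.submatrix e.symm e.symm).submatrix e e := by ext; simp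
    refine ⟨T.submatrix e e, ?_, ?_⟩
    · rw [hP, Matrix.submatrix_mul_equiv, h1]; rfl
    · conv_lhs => rw [hQ]
      rw [Matrix.submatrix_mul_equiv, h2]
      exact hQ.symm
  intro n z s h0
  let S : Finset X := Finset.univ.biUnion fun i => (z i : X →₀ Rᵐᵒᵖ).support
  let P : Matrix (S ⊕ Fin n) (S ⊕ Fin n) R := fun a b =>
    Sum.elim (fun x : S => Sum.elim (fun _ : S => (0 : R))
      (fun i => unop ((z i : X →₀ Rᵐᵒᵖ) (x : X))) b) (fun _ => 0) a
  let Q : Matrix (S ⊕ Fin n) (S ⊕ Fin n) R := fun a _ =>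
    Sum.elim (fun _ : S => (0 : R)) (fun i => unop (s i)) a
  have hz : ∀ x, ∑ i, s i * (z i : X →₀ Rᵐᵒᵖ) x = 0 := by
    intro x
    have h1 := congrArg Subtype.val h0
    have h2 := DFunLike.congr_fun h1 x
    simpa [Finsupp.coe_finsetSum, Finset.sum_apply] using h2
  obtain ⟨T, hT1, hT2⟩ := h' (S ⊕ Fin n) P Q (by
    ext a b
    rw [Matrix.mul_apply, Fintype.sum_sum_type]
    rcases a with x | j
    · simp only [P, Q, Sum.elim_inl, Sum.elim_inr, mul_zero, Finset.sum_const_zero, zero_add,
        Matrix.zero_apply]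
      apply op_injective
      rw [Finset.op_sum]
      simpa using hz x
    · simp [P])
  refine ⟨n, z, fun j i => op ((1 - T) (Sum.inr j) (Sum.inr i)), fun i => ?_, fun j => ?_⟩
  · apply Subtype.ext
    ext x
    simp only [AddSubmonoidClass.coe_finsetSum, Submodule.coe_smul, Finsupp.coe_finsetSum,
      Finset.sum_apply, Finsupp.smul_apply, smul_eq_mul]
    by_cases hx : x ∈ S
    · have h3 := congrFun (congrFun hT1 (Sum.inl ⟨x, hx⟩)) (Sum.inr i)
      rw [Matrix.mul_apply, Fintype.sum_sum_type] at h3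
      simp only [P, Sum.elim_inl, Sum.elim_inr, zero_mul, Finset.sum_const_zero, zero_add,
        Matrix.zero_apply] at h3
      apply unop_injective
      rw [Finset.unop_sum]
      simp only [unop_mul, unop_op, Matrix.sub_apply, mul_sub, Finset.sum_sub_distrib]
      rw [h3, sub_zero]
      simp [Matrix.one_apply]
    · have hx0 : ∀ i, (z i : X →₀ Rᵐᵒᵖ) x = 0 := by
        intro i
        by_contra hne
        exact hx (Finset.mem_biUnion.2 ⟨i, Finset.mem_univ _, Finsupp.mem_support_iff.2 hne⟩)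
      simp [hx0]
  · have h3 := congrFun (congrFun hT2 (Sum.inr j)) (Sum.inr j)
    rw [Matrix.mul_apply, Fintype.sum_sum_type] at h3
    simp only [Q, Sum.elim_inl, Sum.elim_inr, mul_zero, Finset.sum_const_zero, zero_add] at h3
    apply unop_injective
    rw [Finset.unop_sum]
    simp only [unop_mul, unop_op, Matrix.sub_apply, sub_mul, Finset.sum_sub_distrib, unop_zero]
    rw [h3]
    simp [Matrix.one_apply]

theorem mat_of_ec {F1 F0 M : Type u} [AddCommGroup F1] [Module Rᵐᵒᵖ F1] [AddCommGroup F0]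
    [Module Rᵐᵒᵖ F0] [AddCommGroup M] [Module Rᵐᵒᵖ M] (h1 : EC Rᵐᵒᵖ F1) (h0 : EC Rᵐᵒᵖ F0)
    (d : F1 →ₗ[Rᵐᵒᵖ] F0) (ε : F0 →ₗ[Rᵐᵒᵖ] M)
    (hd : Function.Injective d) (hex : Function.Exact d ε) (hε : Function.Surjective ε)
    {n : ℕ} (P Q : Matrix (Fin n) (Fin n) R) (hPQ : P * Q = 0)
    (p : (Fin n → Rᵐᵒᵖ) →ₗ[Rᵐᵒᵖ] M) (hp : Function.Surjective p)
    (hker : ∀ y, p y = 0 ↔ ∃ w : Fin n → Rᵐᵒᵖ, ∀ l, y l = ∑ i, w i * op (P l i)) :
    ∃ T : Matrix (Fin n) (Fin n) R, P * T = 0 ∧ T * Q = Q := by
  classical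
  obtain ⟨ι, _, y, b, hy, hz, hb⟩ := ec_kernel h1 h0 d ε hd hex p hε hp n
    (fun i l => op (P l i)) (fun i => (hker _).2 ⟨Pi.single i 1, fun l => by simp [Pi.single_apply]⟩)
    n (fun c i => op (Q i c)) (fun c => by
      ext l
      have := congrFun (congrFun hPQ l) c
      rw [Matrix.mul_apply] at this
      simp only [Finset.sum_apply, Pi.smul_apply, smul_eq_mul, Pi.zero_apply]
      apply unop_injective
      rw [Finset.unop_sum]
      simpa using this)
  choose w hw using fun j => (hker (y j)).1 (hy j)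
  refine ⟨1 - Matrix.of fun l i => ∑ j, unop (w j l) * unop (b j i), ?_, ?_⟩
  · ext l i
    have h3 : unop ((fun l => op (P l i)) l) = unop ((∑ j, b j i • y j) l) := by rw [hz i]
    simp only [unop_op, Finset.sum_apply, Pi.smul_apply, smul_eq_mul, Finset.unop_sum, unop_mul,
      hw] at h3
    rw [mul_sub, mul_one, Matrix.sub_apply, Matrix.mul_apply, Matrix.zero_apply, h3, sub_eq_zero]
    simp only [Matrix.of_apply, Finset.mul_sum, Finset.sum_mul]
    rw [Finset.sum_comm]
    simp_rw [mul_assoc]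
  · rw [sub_mul, one_mul, sub_eq_self]
    ext l c
    rw [Matrix.mul_apply]
    simp only [Matrix.of_apply, Matrix.zero_apply, Finset.sum_mul]
    rw [Finset.sum_comm]
    refine Finset.sum_eq_zero fun j _ => ?_
    simp_rw [mul_assoc]
    rw [← Finset.mul_sum]
    have h3 := hb c j
    have h4 := congrArg unop h3
    rw [Finset.unop_sum] at h4
    simp only [unop_mul, unop_op, unop_zero] at h4
    rw [h4, mul_zero]

/-! resolutions -/

theorem ec_of_subsingleton {S : Type u} [Ring S] {M : Type v} [AddCommGroup M] [Module S M]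
    [Subsingleton M] : EC S M := by
  intro n m s _
  exact ⟨0, Fin.elim0, Fin.elim0, fun i => Subsingleton.elim _ _, fun j => j.elim0⟩

end Dim

section Res

variable (X0 X1 : Type u)

/-- modules of a short resolution -/
def resF : ℕ → Type u
  | 0 => X0
  | 1 => X1
  | _ + 2 => PUnit.{u+1}

variable {X0 X1}

/-- group structures of a short resolution -/
instance resGroup [AddCommGroup X0] [AddCommGroup X1] : ∀ i, AddCommGroup (resF X0 X1 i)
  | 0 => inferInstanceAs (AddCommGroup X0)
  | 1 => inferInstanceAs (AddCommGroup X1)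
  | _ + 2 => inferInstanceAs (AddCommGroup PUnit.{u+1})

/-- module structures of a short resolution -/
instance resModule {S : Type u} [Ring S] [AddCommGroup X0] [AddCommGroup X1] [Module S X0]
    [Module S X1] : ∀ i, Module S (resF X0 X1 i)
  | 0 => inferInstanceAs (Module S X0)
  | 1 => inferInstanceAs (Module S X1)
  | _ + 2 => inferInstanceAs (Module S PUnit.{u+1})

/-- differentials of a short resolution -/
def resD {S : Type u} [Ring S] [AddCommGroup X0] [AddCommGroup X1] [Module S X0]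
    [Module S X1] (d : X1 →ₗ[S] X0) : ∀ i, resF X0 X1 (i + 1) →ₗ[S] resF X0 X1 i
  | 0 => d
  | _ + 1 => 0

theorem hasFlatResolution_of_ses {R : Type u} [Ring R] {M : Type u} [AddCommGroup M]
    [Module Rᵐᵒᵖ M] [AddCommGroup X0] [AddCommGroup X1] [Module Rᵐᵒᵖ X0] [Module Rᵐᵒᵖ X1]
    (h0 : Flat R X0) (h1 : Flat R X1) (d : X1 →ₗ[Rᵐᵒᵖ] X0) (ε : X0 →ₗ[Rᵐᵒᵖ] M)
    (hd : Function.Injective d) (hex : Function.Exact d ε) (hε : Function.Surjective ε) :
    HasFlatResolution R M 1 := by
  refine ⟨resF X0 X1, resGroup, resModule, resD d, ε, fun i => ?_, hε, hex, fun i => ?_,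
    fun i hi => ?_⟩
  · match i with
    | 0 => exact h0
    | 1 => exact h1
    | _ + 2 => exact flat_of_ec (M := PUnit.{u+1}) ec_of_subsingleton
  · match i with
    | 0 =>
      intro (y : X1)
      constructor
      · intro (h : d y = 0)
        refine ⟨(0 : resF X0 X1 2), ?_⟩
        have : y = 0 := hd (by rw [h, map_zero])
        rw [this]; rfl
      · rintro ⟨z, hz⟩
        have : y = 0 := hz.symm
        change d y = 0
        rw [this, map_zero]
    | i + 1 =>
      intro (y : PUnit.{u+1})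
      constructor
      · intro _
        exact ⟨(0 : resF X0 X1 (i + 3)), rfl⟩
      · intro _
        rfl
  · match i, hi with
    | _ + 2, _ => exact inferInstanceAs (Subsingleton PUnit.{u+1})

theorem flatDim_le_iff {R : Type u} [Ring R] {M : Type u} [AddCommGroup M]
    [Module Rᵐᵒᵖ M] (n : ℕ) : flatDim R M ≤ n ↔ ∃ m ≤ n, HasFlatResolution R M m := by
  constructor
  · intro h
    by_contra hne
    push Not at hne
    have : ((n + 1 : ℕ) : ℕ∞) ≤ flatDim R M := by
      unfold flatDim
      refine le_iInf₂ fun m hm => ?_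
      by_contra hlt
      have h2 : m < n + 1 := by
        rw [not_le] at hlt
        exact_mod_cast hlt
      exact hne m (by omega) hm
    have h3 := this.trans h
    have h4 : n + 1 ≤ n := by exact_mod_cast h3
    omega
  · rintro ⟨m, hm, h⟩
    exact (iInf₂_le m h).trans (by exact_mod_cast hm)

theorem short_of_resolution {R : Type u} [Ring R] {M : Type u} [AddCommGroup M]
    [Module Rᵐᵒᵖ M] (n : ℕ) (hn : n ≤ 1) (h : HasFlatResolution R M n) :
    ∃ (X0 X1 : Type u) (_ : AddCommGroup X0) (_ : AddCommGroup X1) (_ : Module Rᵐᵒᵖ X0)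
      (_ : Module Rᵐᵒᵖ X1) (d : X1 →ₗ[Rᵐᵒᵖ] X0) (ε : X0 →ₗ[Rᵐᵒᵖ] M), Flat R X0 ∧ Flat R X1 ∧
      Function.Injective d ∧ Function.Exact d ε ∧ Function.Surjective ε ∧
      (n = 0 → Subsingleton X1) := by
  obtain ⟨F, _, _, d, ε, hF, hε, hex, hexd, hsub⟩ := h
  refine ⟨F 0, F 1, inferInstance, inferInstance, inferInstance, inferInstance, d 0, ε, hF 0, hF 1,
    ?_, hex, hε, fun h => hsub 1 (by omega)⟩
  rw [injective_iff_map_eq_zero]
  intro y hy
  obtain ⟨z, hz⟩ := (hexd 0 y).1 hy
  have := hsub 2 (by omega)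
  rw [← hz, Subsingleton.elim z 0, map_zero]

end Res

end Homol

open Homol MulOpposite

theorem wGlDim_le_one_iff (R : Type u) [Ring R] : wGlDim R ≤ 1 ↔
    ∀ (n : ℕ) (P Q : Matrix (Fin n) (Fin n) R), P * Q = 0 →
      ∃ T : Matrix (Fin n) (Fin n) R, P * T = 0 ∧ T * Q = Q := by
  constructor
  · intro h n P Q hPQ
    let L : (Fin n → Rᵐᵒᵖ) →ₗ[Rᵐᵒᵖ] (Fin n → Rᵐᵒᵖ) :=
      Fintype.linearCombination Rᵐᵒᵖ (fun i => fun l => op (P l i))
    have hL : ∀ w l, L w l = ∑ i, w i * op (P l i) := by
      intro w l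
      simp [L, Fintype.linearCombination_apply, Finset.sum_apply]
    let M := (Fin n → Rᵐᵒᵖ) ⧸ LinearMap.range L
    have h1 : flatDim R M ≤ ((1 : ℕ) : ℕ∞) := by
      refine le_trans ?_ h
      unfold wGlDim
      exact le_iSup_of_le M (le_iSup_of_le inferInstance (le_iSup_of_le inferInstance le_rfl))
    obtain ⟨m, hm, hres⟩ := (flatDim_le_iff 1).1 h1
    obtain ⟨X0, X1, _, _, _, _, d, ε, hX0, hX1, hd, hex, hε, -⟩ := short_of_resolution m hm hres
    refine mat_of_ec (ec_of_flat hX1) (ec_of_flat hX0) d ε hd hex hε P Q hPQ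
      (LinearMap.range L).mkQ (Submodule.mkQ_surjective _) (fun y => ?_)
    rw [Submodule.mkQ_apply, Submodule.Quotient.mk_eq_zero, LinearMap.mem_range]
    constructor
    · rintro ⟨w, hw⟩
      exact ⟨w, fun l => by rw [← hw, hL]⟩
    · rintro ⟨w, hw⟩
      exact ⟨w, by ext l; rw [hL, hw]⟩
  · intro h
    unfold wGlDim
    refine iSup_le fun M => iSup_le fun _ => iSup_le fun _ => ?_
    have h1 : flatDim R M ≤ ((1 : ℕ) : ℕ∞) := by
      rw [flatDim_le_iff]
      refine ⟨1, le_rfl, ?_⟩
      let ε : (M →₀ Rᵐᵒᵖ) →ₗ[Rᵐᵒᵖ] M := Finsupp.linearCombination Rᵐᵒᵖ id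
      refine hasFlatResolution_of_ses (X0 := M →₀ Rᵐᵒᵖ) (X1 := LinearMap.ker ε)
        (flat_of_ec (ec_finsupp M)) (flat_of_ec (ec_of_mat h M _)) (LinearMap.ker ε).subtype ε
        (Submodule.subtype_injective _) ?_ ?_
      · intro y
        simp
      · intro y
        exact ⟨Finsupp.single y 1, by simp [ε]⟩
    exact_mod_cast h1

theorem reg_of_wGlDim_eq_zero (R : Type u) [Ring R] (h : wGlDim R = 0) :
    ∀ a : R, ∃ b, a * b * a = a := by
  intro a
  let M := Rᵐᵒᵖ ⧸ Submodule.span Rᵐᵒᵖ {op a}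
  have h1 : flatDim R M ≤ ((0 : ℕ) : ℕ∞) := by
    refine le_trans ?_ (le_of_eq h)
    unfold wGlDim
    exact le_iSup_of_le M (le_iSup_of_le inferInstance (le_iSup_of_le inferInstance le_rfl))
  obtain ⟨m, hm, hres⟩ := (flatDim_le_iff 0).1 h1
  obtain ⟨X0, X1, _, _, _, _, d, ε, hX0, hX1, hd, hex, hε, hs⟩ :=
    short_of_resolution m (by omega) hres
  have := hs (by omega)
  have hinj : Function.Injective ε := by
    rw [injective_iff_map_eq_zero]
    intro y hy
    obtain ⟨z, hz⟩ := (hex y).1 hy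
    rw [← hz, Subsingleton.elim z 0, map_zero]
  obtain ⟨x, hx⟩ := hε (Submodule.Quotient.mk 1)
  have h0 : ∑ i : Fin 1, (fun _ => op a) i • (fun _ => x) i = 0 := by
    simp only [Finset.univ_unique, Finset.sum_const, Finset.card_singleton, one_smul]
    apply hinj
    rw [map_smul, hx, map_zero, ← Submodule.Quotient.mk_smul, Submodule.Quotient.mk_eq_zero]
    rw [smul_eq_mul, mul_one]
    exact Submodule.mem_span_singleton_self _
  obtain ⟨k, y, b, hy1, hy2⟩ := ec_of_flat hX0 1 (fun _ => x) (fun _ => op a) h0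
  choose c hc using fun j => Submodule.Quotient.mk_surjective _ (ε (y j))
  have h2 : (Submodule.Quotient.mk (1 - ∑ j, b j 0 * c j) : M) = 0 := by
    rw [Submodule.Quotient.mk_sub, sub_eq_zero, ← hx, hy1 0, map_sum]
    have : (Submodule.Quotient.mk (∑ j, b j 0 * c j) : M)
        = ∑ j, b j 0 • (Submodule.Quotient.mk (c j) : M) := by
      rw [← Submodule.mkQ_apply, map_sum]
      refine Finset.sum_congr rfl fun j _ => ?_
      rw [← smul_eq_mul, map_smul]; rfl
    rw [this]
    refine Finset.sum_congr rfl fun j _ => ?_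
    rw [map_smul, hc]
  rw [Submodule.Quotient.mk_eq_zero, Submodule.mem_span_singleton] at h2
  obtain ⟨e, he⟩ := h2
  refine ⟨unop e, ?_⟩
  have h3 : op a * (e • op a) = op a := by
    rw [he, mul_sub, mul_one, Finset.mul_sum, sub_eq_self]
    refine Finset.sum_eq_zero fun j _ => ?_
    have := hy2 j
    simp only [Finset.univ_unique, Finset.sum_singleton] at this
    rw [← mul_assoc]
    have h4 : op a * b j 0 = 0 := this
    rw [h4, zero_mul]
  have h5 := congrArg unop h3
  simpa [mul_assoc] using h5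

theorem wGlDim_of_subsingleton (R : Type u) [Ring R] [Subsingleton R] : wGlDim R = 0 := by
  rw [← nonpos_iff_eq_zero]
  unfold wGlDim
  refine iSup_le fun M => iSup_le fun _ => iSup_le fun _ => ?_
  have hM : Subsingleton M := by
    refine ⟨fun x y => ?_⟩
    have : ∀ z : M, z = 0 := by
      intro z
      rw [← one_smul Rᵐᵒᵖ z, Subsingleton.elim (1 : Rᵐᵒᵖ) 0, zero_smul]
    rw [this x, this y]
  have h1 : flatDim R M ≤ ((0 : ℕ) : ℕ∞) := by
    rw [flatDim_le_iff]
    refine ⟨0, le_rfl, fun _ => PUnit.{u+1}, fun _ => inferInstance, fun _ => inferInstance,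
      fun _ => 0, 0, fun _ => flat_of_ec ec_of_subsingleton, fun y => ⟨0, Subsingleton.elim _ _⟩,
      fun y => ⟨fun _ => ⟨0, Subsingleton.elim _ _⟩, fun _ => Subsingleton.elim _ _⟩,
      fun i y => ⟨fun _ => ⟨0, Subsingleton.elim _ _⟩, fun _ => Subsingleton.elim _ _⟩,
      fun i _ => inferInstance⟩
  exact_mod_cast h1

end Pool.Agent.helper2.WG
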