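import Mathlib

set_option autoImplicit false

universe u

namespace Pool.Agent.helper2.WG

/-- Orthogonalisation of a sequence in a von Neumann regular ring. -/
theorem nec_orth (B : Type u) [Ring B] (reg : ∀ a : B, ∃ b, a * b * a = a) (b : ℕ → B) :
    ∃ l : ℕ → B, (∀ i j, i ≠ j → l i * l j = 0) ∧ (∀ i, l i * l i = l i) ∧
      (∀ x, (∀ j, x * b j = 0) → ∀ k, x * l k = 0) ∧
      (∀ x, (∀ k, x * l k = l k) → ∀ j, x * b j = b j) := by
  choose q hq using reg
  -- the step: from the partial sum `e` and the next element `c` produce the new idempotent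
  let step : B → B → B := fun e c => ((1 - e) * c) * q ((1 - e) * c) * (1 - e)
  let e : ℕ → B := fun k => Nat.rec (0 : B) (fun m em => em + step em (b m)) k
  let l : ℕ → B := fun k => step (e k) (b k)
  have he0 : e 0 = 0 := rfl
  have hes : ∀ k, e (k + 1) = e k + l k := fun k => rfl
  have hl : ∀ k, l k = ((1 - e k) * b k) * q ((1 - e k) * b k) * (1 - e k) := fun k => rfl
  clear_value l e step
  -- idempotency of the partial sums, orthogonality to the next one
  have hee : ∀ k, e k * e k = e k := by
    intro k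
    induction k with
    | zero => simp [he0]
    | succ k ih =>
      have h1 : e k * (1 - e k) = 0 := by rw [mul_sub, mul_one, ih, sub_self]
      have h2 : (1 - e k) * e k = 0 := by rw [sub_mul, one_mul, ih, sub_self]
      have h3 : (1 - e k) * (1 - e k) = 1 - e k := by
        rw [mul_sub, mul_one, h2, sub_zero]
      have h4 : e k * l k = 0 := by
        rw [hl]; simp only [← mul_assoc]; rw [h1]; simp
      have h5 : l k * e k = 0 := by
        rw [hl, mul_assoc _ (1 - e k) (e k), h2, mul_zero]
      have h6 : l k * l k = l k := by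
        have h7 : (1 - e k) * ((1 - e k) * b k) = (1 - e k) * b k := by
          rw [← mul_assoc, h3]
        calc l k * l k = ((1 - e k) * b k) * q ((1 - e k) * b k) *
              ((1 - e k) * ((1 - e k) * ((1 - e k) * b k))) * q ((1 - e k) * b k) * (1 - e k) := by
              rw [hl]; rw [h7]; noncomm_ring
          _ = (((1 - e k) * b k) * q ((1 - e k) * b k) *
              ((1 - e k) * b k)) * q ((1 - e k) * b k) * (1 - e k) := by
              rw [h7, h7]
          _ = l k := by rw [hq, ← hl]
      rw [hes, add_mul, mul_add, mul_add, ih, h4, h5, h6]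
      simp
  have hel : ∀ k, e k * l k = 0 := by
    intro k
    have h1 : e k * (1 - e k) = 0 := by rw [mul_sub, mul_one, hee, sub_self]
    rw [hl]; simp only [← mul_assoc]; rw [h1]; simp
  have hle : ∀ k, l k * e k = 0 := by
    intro k
    have h2 : (1 - e k) * e k = 0 := by rw [sub_mul, one_mul, hee, sub_self]
    rw [hl, mul_assoc _ (1 - e k) (e k), h2, mul_zero]
  have hll : ∀ k, l k * l k = l k := by
    intro k
    have h := hee (k + 1)
    rw [hes, add_mul, mul_add, mul_add, hee, hel, hle] at h
    simpa using h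
  have heb : ∀ k, e (k + 1) * b k = b k := by
    intro k
    rw [hes, add_mul, hl, mul_assoc _ (1 - e k) (b k), hq]
    rw [sub_mul, one_mul]; abel
  -- absorption
  have hmono : ∀ k m, k ≤ m → e m * e k = e k ∧ e k * e m = e k := by
    intro k m hkm
    induction m, hkm using Nat.le_induction with
    | base => exact ⟨hee k, hee k⟩
    | succ m hkm ih =>
      have h1 : l m * e k = 0 := by
        rw [← ih.1, ← mul_assoc, hle, zero_mul]
      have h2 : e k * l m = 0 := by
        rw [← ih.2, mul_assoc, hel, mul_zero]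
      rw [hes, add_mul, mul_add, ih.1, ih.2, h1, h2]
      simp
  have hlk : ∀ k, e (k + 1) * l k = l k ∧ l k * e (k + 1) = l k := by
    intro k
    rw [hes, add_mul, mul_add, hel, hle, hll]
    simp
  have horth : ∀ i j, i < j → l i * l j = 0 ∧ l j * l i = 0 := by
    intro i j hij
    have h := hmono (i + 1) j hij
    constructor
    · rw [← (hlk i).2, mul_assoc, ← h.2, mul_assoc, hel, mul_zero, mul_zero]
    · rw [← (hlk i).1, ← mul_assoc, ← h.1, ← mul_assoc, hle, zero_mul, zero_mul]
  refine ⟨l, ?_, hll, ?_, ?_⟩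
  · intro i j hij
    rcases lt_or_gt_of_ne hij with h | h
    · exact (horth i j h).1
    · exact (horth j i h).2
  · intro x hx
    have key : ∀ k, x * e k = 0 := by
      intro k
      induction k with
      | zero => rw [he0, mul_zero]
      | succ k ih =>
        rw [hes, mul_add, ih, zero_add, hl]
        simp only [← mul_assoc]
        have : x * (1 - e k) * b k = 0 := by
          rw [mul_sub, mul_one, ih, sub_zero, hx]
        rw [this]; simp
    intro k
    have := key (k + 1)
    rwa [hes, mul_add, key, zero_add] at this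
  · intro x hx
    have key : ∀ k, x * e k = e k := by
      intro k
      induction k with
      | zero => rw [he0, mul_zero]
      | succ k ih => rw [hes, mul_add, ih, hx]
    intro j
    rw [← heb j, ← mul_assoc, key]

/-- Coefficient form of the hypothesis. -/
theorem nec_coeff (A : Type u) [Ring A]
    (h : ∀ (n : ℕ) (P Q : Matrix (Fin n) (Fin n) (PowerSeries A)), P * Q = 0 →
      ∃ T : Matrix (Fin n) (Fin n) (PowerSeries A), P * T = 0 ∧ T * Q = Q)
    (n : ℕ) (P Q : ℕ → Matrix (Fin n) (Fin n) A)
    (hPQ : ∀ m, ∑ p ∈ Finset.HasAntidiagonal.antidiagonal m, P p.1 * Q p.2 = 0) :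
    ∃ T : ℕ → Matrix (Fin n) (Fin n) A,
      (∀ m, ∑ p ∈ Finset.HasAntidiagonal.antidiagonal m, P p.1 * T p.2 = 0) ∧
      (∀ m, ∑ p ∈ Finset.HasAntidiagonal.antidiagonal m, T p.1 * Q p.2 = Q m) := by
  -- the coefficients of a product
  have hc : ∀ (F G : Matrix (Fin n) (Fin n) (PowerSeries A)) (m : ℕ) (i j : Fin n),
      PowerSeries.coeff m ((F * G) i j) =
      (∑ p ∈ Finset.HasAntidiagonal.antidiagonal m, (F.map (PowerSeries.coeff p.1)) *
        (G.map (PowerSeries.coeff p.2))) i j := by
    intro F G m i j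
    rw [Matrix.mul_apply, map_sum, Matrix.sum_apply]
    simp only [PowerSeries.coeff_mul, Matrix.mul_apply, Matrix.map_apply]
    rw [Finset.sum_comm]
  let mk : (ℕ → Matrix (Fin n) (Fin n) A) → Matrix (Fin n) (Fin n) (PowerSeries A) :=
    fun F => Matrix.of fun i j => PowerSeries.mk fun k => F k i j
  have hmk : ∀ F k, (mk F).map (PowerSeries.coeff k) = F k := by
    intro F k
    ext i j
    simp [mk, PowerSeries.coeff_mk]
  obtain ⟨T, hT1, hT2⟩ := h n (mk P) (mk Q) (by
    ext i j m
    rw [hc]
    simp only [hmk, hPQ]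
    simp)
  refine ⟨fun k => T.map (PowerSeries.coeff k), ?_, ?_⟩
  · intro m
    ext i j
    have := hc (mk P) T m i j
    rw [hT1] at this
    simp only [hmk] at this
    rw [← this]
    simp
  · intro m
    ext i j
    have := hc T (mk Q) m i j
    rw [hT2] at this
    simp only [hmk] at this
    rw [← this]
    simp [mk, PowerSeries.coeff_mk]

/-- The same over an arbitrary finite index type. -/
theorem nec_fintype (A : Type u) [Ring A]
    (H : ∀ (n : ℕ) (P Q : ℕ → Matrix (Fin n) (Fin n) A),
      (∀ m, ∑ p ∈ Finset.HasAntidiagonal.antidiagonal m, P p.1 * Q p.2 = 0) →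
      ∃ T : ℕ → Matrix (Fin n) (Fin n) A,
      (∀ m, ∑ p ∈ Finset.HasAntidiagonal.antidiagonal m, P p.1 * T p.2 = 0) ∧
      (∀ m, ∑ p ∈ Finset.HasAntidiagonal.antidiagonal m, T p.1 * Q p.2 = Q m))
    {ι : Type} [Fintype ι] {n : ℕ} (e : ι ≃ Fin n) (P Q : ℕ → Matrix ι ι A)
    (hPQ : ∀ m, ∑ p ∈ Finset.HasAntidiagonal.antidiagonal m, P p.1 * Q p.2 = 0) :
    ∃ T : ℕ → Matrix ι ι A,
      (∀ m, ∑ p ∈ Finset.HasAntidiagonal.antidiagonal m, P p.1 * T p.2 = 0) ∧
      (∀ m, ∑ p ∈ Finset.HasAntidiagonal.antidiagonal m, T p.1 * Q p.2 = Q m) := by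
  have hm : ∀ (M N : Matrix ι ι A), (M * N).submatrix e.symm e.symm =
      M.submatrix e.symm e.symm * N.submatrix e.symm e.symm := by
    intro M N
    rw [Matrix.submatrix_mul_equiv]
  have hm' : ∀ (M N : Matrix (Fin n) (Fin n) A), (M * N).submatrix e e =
      M.submatrix e e * N.submatrix e e := by
    intro M N
    rw [Matrix.submatrix_mul_equiv]
  have hs' : ∀ (s : Finset (ℕ × ℕ)) (F : ℕ × ℕ → Matrix (Fin n) (Fin n) A),
      (∑ p ∈ s, F p).submatrix e e = ∑ p ∈ s, (F p).submatrix e e := by
    intro s F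
    ext i j
    simp [Matrix.sum_apply]
  have hs : ∀ (s : Finset (ℕ × ℕ)) (F : ℕ × ℕ → Matrix ι ι A),
      (∑ p ∈ s, F p).submatrix e.symm e.symm = ∑ p ∈ s, (F p).submatrix e.symm e.symm := by
    intro s F
    ext i j
    simp [Matrix.sum_apply]
  have hb : ∀ (M : Matrix ι ι A), (M.submatrix e.symm e.symm).submatrix e e = M := by
    intro M
    ext i j
    simp
  obtain ⟨T, hT1, hT2⟩ := H n (fun k => (P k).submatrix e.symm e.symm)
    (fun k => (Q k).submatrix e.symm e.symm) (by
      intro m
      simp only [← hm, ← hs, hPQ]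
      ext i j
      simp)
  refine ⟨fun k => (T k).submatrix e e, ?_, ?_⟩
  · intro m
    have := congrArg (fun M : Matrix (Fin n) (Fin n) A => M.submatrix e e) (hT1 m)
    simp only [hs', hm', hb] at this
    rw [this]
    ext i j
    simp
  · intro m
    have := congrArg (fun M : Matrix (Fin n) (Fin n) A => M.submatrix e e) (hT2 m)
    simp only [hs', hm', hb] at this
    exact this

/-- Matrix rings over `A` are von Neumann regular. -/
theorem nec_regular (A : Type u) [Ring A]
    (h : ∀ (n : ℕ) (P Q : Matrix (Fin n) (Fin n) (PowerSeries A)), P * Q = 0 →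
      ∃ T : Matrix (Fin n) (Fin n) (PowerSeries A), P * T = 0 ∧ T * Q = Q)
    (n : ℕ) (a : Matrix (Fin n) (Fin n) A) : ∃ b, a * b * a = a := by
  classical
  let P : ℕ → Matrix (Fin n ⊕ Fin n) (Fin n ⊕ Fin n) A := fun k =>
    if k = 0 then Matrix.fromBlocks 0 a 0 0 else if k = 1 then Matrix.fromBlocks 1 0 0 0 else 0
  let Q : ℕ → Matrix (Fin n ⊕ Fin n) (Fin n ⊕ Fin n) A := fun k =>
    if k = 0 then Matrix.fromBlocks a 0 0 0 else if k = 1 then Matrix.fromBlocks 0 0 (-1) 0 else 0
  have hP0 : P 0 = Matrix.fromBlocks 0 a 0 0 := rfl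
  have hP1 : P 1 = Matrix.fromBlocks 1 0 0 0 := rfl
  have hQ0 : Q 0 = Matrix.fromBlocks a 0 0 0 := rfl
  have hQ1 : Q 1 = Matrix.fromBlocks 0 0 (-1) 0 := rfl
  have hP2 : ∀ k, P (k + 2) = 0 := fun k => rfl
  have hQ2 : ∀ k, Q (k + 2) = 0 := fun k => rfl
  have h11 : P 1 * Q 1 = 0 := by
    rw [hP1, hQ1, Matrix.fromBlocks_multiply]; simp
  have h00 : P 0 * Q 0 = 0 := by
    rw [hP0, hQ0, Matrix.fromBlocks_multiply]; simp
  have h01 : P 0 * Q 1 + P 1 * Q 0 = 0 := by
    rw [hP0, hQ0, hP1, hQ1, Matrix.fromBlocks_multiply, Matrix.fromBlocks_multiply,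
      Matrix.fromBlocks_add]
    simp
  obtain ⟨T, hT1, hT2⟩ := nec_fintype A (nec_coeff A h) finSumFinEquiv P Q (by
    intro m
    match m with
    | 0 => simpa using h00
    | 1 =>
      rw [Finset.Nat.sum_antidiagonal_succ]
      simpa using h01
    | 2 =>
      rw [Finset.Nat.sum_antidiagonal_succ, Finset.Nat.sum_antidiagonal_succ]
      have q2 : Q 2 = 0 := hQ2 0
      have p2 : P 2 = 0 := hP2 0
      simp [h11, p2, q2]
    | (k + 3) =>
      refine Finset.sum_eq_zero ?_
      intro p hp
      rw [Finset.HasAntidiagonal.mem_antidiagonal] at hp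
      rcases p with ⟨i, j⟩
      simp only at hp ⊢
      by_cases hi : 2 ≤ i
      · obtain ⟨i', rfl⟩ := Nat.exists_eq_add_of_le' hi
        rw [hP2, zero_mul]
      · have hj : 2 ≤ j := by omega
        obtain ⟨j', rfl⟩ := Nat.exists_eq_add_of_le' hj
        rw [hQ2, mul_zero])
  refine ⟨-(T 1).toBlocks₂₁, ?_⟩
  have e1 := hT1 1
  rw [Finset.Nat.sum_antidiagonal_succ] at e1
  have e1' : P 0 * T 1 + P 1 * T 0 = 0 := by simpa using e1
  have e0 : T 0 * Q 0 = Q 0 := by simpa using hT2 0
  have f1 : a * (T 1).toBlocks₂₁ + (T 0).toBlocks₁₁ = 0 := by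
    rw [← Matrix.fromBlocks_toBlocks (T 1), ← Matrix.fromBlocks_toBlocks (T 0), hP0, hP1,
      Matrix.fromBlocks_multiply, Matrix.fromBlocks_multiply, Matrix.fromBlocks_add] at e1'
    have := congrArg Matrix.toBlocks₁₁ e1'
    have z : (0 : Matrix (Fin n ⊕ Fin n) (Fin n ⊕ Fin n) A).toBlocks₁₁ = 0 := by
      ext i j; simp [Matrix.toBlocks₁₁]
    rw [z] at this
    simpa using this
  have f0 : (T 0).toBlocks₁₁ * a = a := by
    rw [← Matrix.fromBlocks_toBlocks (T 0), hQ0, Matrix.fromBlocks_multiply] at e0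
    have := congrArg Matrix.toBlocks₁₁ e0
    simpa using this
  have f2 : (T 0).toBlocks₁₁ = a * -(T 1).toBlocks₂₁ := by
    rw [mul_neg]
    exact (neg_eq_of_add_eq_zero_right f1).symm
  rw [← f2, f0]

theorem necessity (A : Type u) [Ring A]
    (h : ∀ (n : ℕ) (P Q : Matrix (Fin n) (Fin n) (PowerSeries A)), P * Q = 0 →
      ∃ T : Matrix (Fin n) (Fin n) (PowerSeries A), P * T = 0 ∧ T * Q = Q) :
    (∀ a : A, ∃ b, a * b * a = a) ∧
    ∀ (n : ℕ) (a b : ℕ → Matrix (Fin n) (Fin n) A), (∀ i j, a i * b j = 0) →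
      ∃ t : Matrix (Fin n) (Fin n) A, (∀ i, a i * t = 0) ∧ ∀ j, t * b j = b j := by
  refine ⟨?_, ?_⟩
  · intro a
    obtain ⟨b, hb⟩ := nec_regular A h 1 (Matrix.of fun _ _ => a)
    refine ⟨b 0 0, ?_⟩
    have := congrFun (congrFun hb 0) 0
    simpa [Matrix.mul_apply] using this
  · intro n a b hab
    obtain ⟨l, hl1, hl2, hl3, hl4⟩ := nec_orth _ (nec_regular A h n) b
    obtain ⟨k, hk1, hk2, hk3, hk4⟩ := nec_orth (Matrix (Fin n) (Fin n) A)ᵐᵒᵖ (by
      intro x
      obtain ⟨y, hy⟩ := nec_regular A h n x.unop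
      refine ⟨MulOpposite.op y, ?_⟩
      apply MulOpposite.unop_injective
      rw [MulOpposite.unop_mul, MulOpposite.unop_mul, MulOpposite.unop_op, ← mul_assoc, hy])
      (fun i => MulOpposite.op (a i))
    -- the idempotents `h i`
    have hh1 : ∀ i j, i ≠ j → (k i).unop * (k j).unop = 0 := by
      intro i j hij
      have := congrArg MulOpposite.unop (hk1 j i hij.symm)
      simpa using this
    have hh2 : ∀ i, (k i).unop * (k i).unop = (k i).unop := by
      intro i
      have := congrArg MulOpposite.unop (hk2 i)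
      simpa using this
    have hh3 : ∀ x, (∀ j, a j * x = 0) → ∀ i, (k i).unop * x = 0 := by
      intro x hx i
      have := congrArg MulOpposite.unop (hk3 (MulOpposite.op x) (by
        intro j
        rw [← MulOpposite.op_mul, hx, MulOpposite.op_zero]) i)
      simpa using this
    have hh4 : ∀ x, (∀ i, (k i).unop * x = (k i).unop) → ∀ j, a j * x = a j := by
      intro x hx j
      have := congrArg MulOpposite.unop (hk4 (MulOpposite.op x) (by
        intro i
        apply MulOpposite.unop_injective
        rw [MulOpposite.unop_mul, MulOpposite.unop_op, hx]) j)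
      simpa using this
    have hkl : ∀ i j, (k i).unop * l j = 0 := by
      intro i j
      refine hl3 _ ?_ j
      intro m
      exact hh3 _ (fun i' => hab i' m) i
    obtain ⟨T, hT1, hT2⟩ := nec_coeff A h n (fun i => (k i).unop) l (by
      intro m
      refine Finset.sum_eq_zero ?_
      intro p _
      exact hkl _ _)
    refine ⟨T 0, ?_, ?_⟩
    · -- a i * T 0 = 0
      have hk0 : ∀ i, (k i).unop * T 0 = 0 := by
        intro i
        have h1 := congrArg (fun z => (k i).unop * z) (hT1 i)
        simp only [Finset.mul_sum, mul_zero] at h1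
        rw [Finset.sum_eq_single (i, 0)] at h1
        · rwa [← mul_assoc, hh2] at h1
        · rintro ⟨p, q⟩ hp hne
          rw [Finset.HasAntidiagonal.mem_antidiagonal] at hp
          simp only at hp ⊢
          have : i ≠ p := by
            rintro rfl
            apply hne
            have : q = 0 := by omega
            rw [this]
          rw [← mul_assoc, hh1 i p this, zero_mul]
        · intro hni
          exact absurd (Finset.HasAntidiagonal.mem_antidiagonal.mpr (by simp)) hni
      have := hh4 (1 - T 0) (by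
        intro i
        rw [mul_sub, mul_one, hk0, sub_zero])
      intro i
      have h2 := this i
      rw [mul_sub, mul_one] at h2
      simpa using h2
    · refine hl4 _ ?_
      intro j
      have h1 := congrArg (fun z => z * l j) (hT2 j)
      simp only [Finset.sum_mul] at h1
      rw [hl2, Finset.sum_eq_single (0, j)] at h1
      · rwa [mul_assoc, hl2] at h1
      · rintro ⟨p, q⟩ hp hne
        rw [Finset.HasAntidiagonal.mem_antidiagonal] at hp
        simp only at hp ⊢
        have : q ≠ j := by
          rintro rfl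
          apply hne
          have : p = 0 := by omega
          rw [this]
        rw [mul_assoc, hl1 q j this, mul_zero]
      · intro hni
        exact absurd (Finset.HasAntidiagonal.mem_antidiagonal.mpr (by simp)) hni

end Pool.Agent.helper2.WG
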