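import Mathlib

set_option autoImplicit false

namespace Pool.Agent.helper2.WG

open PowerSeries

universe u

section

variable {B : Type u} [Ring B]

theorem X_pow_dvd_mul_left {n : ℕ} {v : B⟦X⟧} (w : B⟦X⟧) (h : (X : B⟦X⟧) ^ n ∣ v) :
    (X : B⟦X⟧) ^ n ∣ w * v := by
  obtain ⟨c, rfl⟩ := h
  exact ⟨w * c, by rw [← mul_assoc, ← mul_assoc, (commute_X_pow w n).eq]⟩

theorem X_pow_dvd_mul_right {n : ℕ} {v : B⟦X⟧} (w : B⟦X⟧) (h : (X : B⟦X⟧) ^ n ∣ v) :
    (X : B⟦X⟧) ^ n ∣ v * w := Dvd.dvd.mul_right h w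

theorem eq_zero_of_dvd {v : B⟦X⟧} (h : ∀ n, (X : B⟦X⟧) ^ (n + 1) ∣ v) : v = 0 := by
  ext n
  simpa using X_pow_dvd_iff.1 (h n) n (Nat.lt_succ_self n)

theorem assembly (f g : B⟦X⟧) (D : ℕ → Submodule B B⟦X⟧)
    (D1 : ∀ i, D (i + 1) ≤ D i) (D2 : ∀ i, g ∈ D i)
    (D3 : ∀ i v, (X : B⟦X⟧) ^ (i + 1) ∣ v → v ∈ D i)
    (D4 : ∀ i v, v ∈ D i → ∃ k : B⟦X⟧, k * f = 0 ∧ (X : B⟦X⟧) ^ (i + 1) ∣ (k - v))
    (D5 : ∀ i v, X * v ∈ D (i + 1) → v ∈ D i)
    (D6 : ∀ i, ∃ e : B, e * e = e ∧ (∀ v ∈ D i, coeff 0 v * e = coeff 0 v) ∧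
      ∃ v ∈ D i, coeff 0 v = e) :
    ∃ t : B⟦X⟧, t * f = 0 ∧ g * t = g := by
  choose e' he1' he2' w' hw1' hw2' using D6
  obtain ⟨e, he0, hes⟩ : ∃ e : ℕ → B, e 0 = e' 0 ∧ ∀ i, e (i + 1) = e i * e' (i + 1) :=
    ⟨fun n => Nat.rec (e' 0) (fun i a => a * e' (i + 1)) n, rfl, fun _ => rfl⟩
  have hP : ∀ i, e i * e i = e i ∧ (∀ v ∈ D i, coeff 0 v * e i = coeff 0 v) ∧
      ∃ v ∈ D i, coeff 0 v = e i := by
    intro i
    induction i with
    | zero =>
      rw [he0]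
      exact ⟨he1' 0, he2' 0, w' 0, hw1' 0, hw2' 0⟩
    | succ i ih =>
      obtain ⟨h1, h2, -⟩ := ih
      have h4 : e' (i + 1) * e i = e' (i + 1) := by
        have := h2 _ (D1 i (hw1' (i + 1)))
        rwa [hw2'] at this
      refine ⟨?_, fun v hv => ?_, e i • w' (i + 1), Submodule.smul_mem _ _ (hw1' _), ?_⟩
      · rw [hes, mul_assoc, ← mul_assoc (e' (i + 1)), h4, he1']
      · rw [hes, ← mul_assoc, h2 v (D1 i hv), he2' _ v hv]
      · rw [map_smul, hw2', hes, smul_eq_mul]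
  have hi : ∀ i, e i * e i = e i := fun i => (hP i).1
  have hD : ∀ i v, v ∈ D i → coeff 0 v * e i = coeff 0 v := fun i => (hP i).2.1
  have hmono : ∀ i j, i ≤ j → D j ≤ D i := by
    intro i j hij
    induction j, hij using Nat.le_induction with
    | base => exact le_rfl
    | succ n hn ih => exact (D1 n).trans ih
  have hji : ∀ i j, i ≤ j → e j * e i = e j := by
    intro i j hij
    obtain ⟨v, hv1, hv2⟩ := (hP j).2.2
    have := hD i v (hmono i j hij hv1)
    rwa [hv2] at this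
  have hij : ∀ i j, i ≤ j → e i * e j = e j := by
    intro i j hij
    induction j, hij using Nat.le_induction with
    | base => exact hi i
    | succ n hn ih => rw [hes, ← mul_assoc, ih]
  have hΦ : ∀ i, ∃ Φ : B⟦X⟧, Φ ∈ D i ∧ Φ * f = 0 ∧ coeff 0 Φ = e i ∧ C (e i) * Φ = Φ := by
    intro i
    obtain ⟨v, hv1, hv2⟩ := (hP i).2.2
    obtain ⟨k, hk1, hk2⟩ := D4 i v hv1
    have hk3 : k ∈ D i := by
      have := Submodule.add_mem _ hv1 (D3 i _ hk2)
      rwa [add_sub_cancel] at this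
    have hk4 : coeff 0 k = e i := by
      have := X_pow_dvd_iff.1 hk2 0 (Nat.succ_pos i)
      rw [map_sub, sub_eq_zero] at this
      rw [this, hv2]
    refine ⟨C (e i) * k, ?_, ?_, ?_, ?_⟩
    · rw [← smul_eq_C_mul]
      exact Submodule.smul_mem _ _ hk3
    · rw [mul_assoc, hk1, mul_zero]
    · rw [coeff_C_mul, hk4, hi]
    · rw [← mul_assoc, ← map_mul, hi]
  choose Φ hΦ1 hΦ2 hΦ3 hΦ4 using hΦ
  obtain ⟨P, hP0, hPs⟩ : ∃ P : ℕ → B⟦X⟧, P 0 = Φ 0 ∧
      ∀ j, P (j + 1) = P j + (Φ (j + 1) - C (e (j + 1)) * Φ j) :=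
    ⟨fun n => Nat.rec (Φ 0) (fun j a => a + (Φ (j + 1) - C (e (j + 1)) * Φ j)) n, rfl,
      fun _ => rfl⟩
  have hPc : ∀ j, coeff 0 (P j) = e 0 := by
    intro j
    induction j with
    | zero => rw [hP0, hΦ3]
    | succ j ih =>
      rw [hPs, map_add, map_sub, ih, hΦ3, coeff_C_mul, hΦ3, hji j (j + 1) (Nat.le_succ j),
        sub_self, add_zero]
  have hPf : ∀ j, P j * f = 0 := by
    intro j
    induction j with
    | zero => rw [hP0, hΦ2]
    | succ j ih => rw [hPs, add_mul, sub_mul, ih, hΦ2, mul_assoc, hΦ2]; simp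
  have hPe : ∀ j, C (e 0) * P j = P j := by
    intro j
    induction j with
    | zero => rw [hP0, hΦ4]
    | succ j ih =>
      rw [hPs, mul_add, mul_sub, ih, ← mul_assoc, ← map_mul, hij 0 (j + 1) (Nat.zero_le _)]
      congr 2
      conv_lhs => rw [← hΦ4 (j + 1), ← mul_assoc, ← map_mul, hij 0 (j + 1) (Nat.zero_le _)]
      exact hΦ4 (j + 1)
  have hPΦ : ∀ i j, j ≤ i → C (e i) * P j = C (e i) * Φ j := by
    intro i j
    induction j with
    | zero => intro _; rw [hP0]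
    | succ j ih =>
      intro h
      rw [hPs, mul_add, mul_sub, ih (by omega), ← mul_assoc, ← map_mul, hji (j + 1) i h]
      abel
  have hPD : ∀ i j, i ≤ j → C (e i) * P j ∈ D i := by
    intro i j h
    induction j, h using Nat.le_induction with
    | base =>
      rw [hPΦ i i le_rfl, hΦ4]
      exact hΦ1 i
    | succ j hj ih =>
      rw [hPs, mul_add]
      refine Submodule.add_mem _ ih ?_
      rw [← smul_eq_C_mul, ← smul_eq_C_mul]
      exact Submodule.smul_mem _ _ (Submodule.sub_mem _ (hmono i (j + 1) (by omega) (hΦ1 _))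
        (Submodule.smul_mem _ _ (hmono i j hj (hΦ1 _))))
  obtain ⟨U, hU⟩ : ∃ U : ℕ → B⟦X⟧, ∀ j, U j = P j + (1 - C (e 0)) := ⟨_, fun _ => rfl⟩
  have hUV : ∀ j, ∃ V : B⟦X⟧, U j * V = 1 ∧ V * U j = 1 := by
    intro j
    have h1 : constantCoeff (U j) = ((1 : Bˣ) : B) := by
      rw [← coeff_zero_eq_constantCoeff_apply, hU, map_add, hPc, map_sub]
      simp
    exact ⟨invOfUnit (U j) 1, mul_invOfUnit _ _ h1, invOfUnit_mul _ _ h1⟩
  choose V hUV hVU using hUV
  have hC0 : (C (e 0) : B⟦X⟧) * C (e 0) = C (e 0) := by rw [← map_mul, hi]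
  have hC1 : (C (e 0) : B⟦X⟧) * (1 - C (e 0)) = 0 := by rw [mul_sub, mul_one, hC0, sub_self]
  have hC2 : (1 - C (e 0) : B⟦X⟧) * C (e 0) = 0 := by rw [sub_mul, one_mul, hC0, sub_self]
  have hCU : ∀ j, C (e 0) * U j = P j := fun j => by
    rw [hU, mul_add, hPe, hC1, add_zero]
  obtain ⟨t, ht⟩ : ∃ t : ℕ → B⟦X⟧, ∀ j, t j = V j * P j := ⟨_, fun _ => rfl⟩
  have hPt : ∀ j, P j * t j = P j := fun j => by
    calc P j * t j = (C (e 0) * U j) * (V j * P j) := by rw [hCU, ht]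
      _ = C (e 0) * (U j * V j) * P j := by simp only [mul_assoc]
      _ = P j := by rw [hUV, mul_one, hPe]
  have htf : ∀ j, t j * f = 0 := fun j => by rw [ht, mul_assoc, hPf, mul_zero]
  have het : ∀ j, C (e 0) * t j = t j := fun j => by
    have h1 : (1 - C (e 0) : B⟦X⟧) * U j = 1 - C (e 0) := by
      rw [hU, mul_add]
      have : (1 - C (e 0) : B⟦X⟧) * P j = 0 := by rw [sub_mul, one_mul, hPe, sub_self]
      rw [this, zero_add, mul_sub, mul_one, hC2, sub_zero]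
    have h2 : (1 - C (e 0) : B⟦X⟧) * V j = 1 - C (e 0) := by
      calc (1 - C (e 0) : B⟦X⟧) * V j = ((1 - C (e 0)) * U j) * V j := by rw [h1]
        _ = 1 - C (e 0) := by rw [mul_assoc, hUV, mul_one]
    have h3 : (1 - C (e 0) : B⟦X⟧) * t j = 0 := by
      rw [ht, ← mul_assoc, h2, sub_mul, one_mul, hPe, sub_self]
    rw [sub_mul, one_mul, sub_eq_zero] at h3
    exact h3.symm
  have hte : ∀ j, t j * C (e 0) = C (e 0) := fun j => by
    have h1 : U j * C (e 0) = P j * C (e 0) := by rw [hU, add_mul, hC2, add_zero]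
    rw [ht, mul_assoc, ← h1, ← mul_assoc, hVU, one_mul]
  have key : ∀ i j, i ≤ j → ∀ d ∈ D i, (X : B⟦X⟧) ^ (i + 1) ∣ d * t j - d := by
    intro i
    induction i with
    | zero =>
      intro j _ d hd
      have h1 : (X : B⟦X⟧) ∣ d - C (coeff 0 d) * P j := by
        rw [X_dvd_iff, ← coeff_zero_eq_constantCoeff_apply, map_sub, coeff_C_mul, hPc,
          hD 0 d hd, sub_self]
      obtain ⟨d', hd'⟩ := h1
      have h2 : d = C (coeff 0 d) * P j + X * d' := by rw [← hd']; abel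
      refine ⟨d' * t j - d', ?_⟩
      obtain ⟨c, hc⟩ : ∃ c, c = coeff 0 d := ⟨_, rfl⟩
      rw [← hc] at h2
      rw [h2, zero_add, pow_one, add_mul, mul_assoc, hPt, mul_sub, mul_assoc]
      abel
    | succ i ih =>
      intro j hj d hd
      have h1 : (X : B⟦X⟧) ∣ d - C (coeff 0 d) * P j := by
        rw [X_dvd_iff, ← coeff_zero_eq_constantCoeff_apply, map_sub, coeff_C_mul, hPc,
          hD 0 d (hmono 0 _ (Nat.zero_le _) hd), sub_self]
      obtain ⟨d', hd'⟩ := h1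
      have h2 : d = C (coeff 0 d) * P j + X * d' := by rw [← hd']; abel
      have h3 : C (coeff 0 d) * P j ∈ D (i + 1) := by
        have h4 : C (coeff 0 d) * P j = (coeff 0 d) • (C (e (i + 1)) * P j) := by
          rw [smul_eq_C_mul, ← mul_assoc, ← map_mul, hD (i + 1) d hd]
        rw [h4]
        exact Submodule.smul_mem _ _ (hPD (i + 1) j hj)
      have h5 : X * d' ∈ D (i + 1) := by
        rw [← hd']
        exact Submodule.sub_mem _ hd h3
      obtain ⟨z, hz⟩ := ih j (by omega) d' (D5 i d' h5)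
      refine ⟨z, ?_⟩
      obtain ⟨c, hc⟩ : ∃ c, c = coeff 0 d := ⟨_, rfl⟩
      rw [← hc] at h2
      have h6 : d * t j - d = X * (d' * t j - d') := by
        rw [h2, add_mul, mul_assoc, hPt, mul_sub, mul_assoc]
        abel
      rw [h6, hz, ← mul_assoc, ← pow_succ']
  have hstep : ∀ j, (X : B⟦X⟧) ^ (j + 1) ∣ t j - t (j + 1) := by
    intro j
    have h1 : (X : B⟦X⟧) ^ (j + 1) ∣ P (j + 1) * t j - P (j + 1) := by
      have h2 := key j j le_rfl (Φ (j + 1)) (D1 j (hΦ1 _))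
      have h3 := key j j le_rfl (C (e (j + 1)) * Φ j) (by
        rw [← smul_eq_C_mul]
        exact Submodule.smul_mem _ _ (hΦ1 _))
      have h4 : P (j + 1) * t j - P (j + 1) = (Φ (j + 1) * t j - Φ (j + 1)) -
          ((C (e (j + 1)) * Φ j) * t j - C (e (j + 1)) * Φ j) := by
        rw [hPs, add_mul, hPt, sub_mul]
        abel
      rw [h4]
      exact dvd_sub h2 h3
    have h5 : t (j + 1) * t j = t j := by
      conv_lhs => rw [← het j, ← mul_assoc, hte]
      exact het j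
    have h6 : t j - t (j + 1) = V (j + 1) * (P (j + 1) * t j - P (j + 1)) := by
      rw [mul_sub, ← mul_assoc, ← ht, h5]
    rw [h6]
    exact X_pow_dvd_mul_left _ h1
  have hlim : ∀ n j, n ≤ j → coeff n (t j) = coeff n (t n) := by
    intro n j hj
    induction j, hj using Nat.le_induction with
    | base => rfl
    | succ j hj ih =>
      have := X_pow_dvd_iff.1 (hstep j) n (by omega)
      rw [map_sub, sub_eq_zero] at this
      rw [← this, ih]
  obtain ⟨T, hT⟩ : ∃ T : B⟦X⟧, ∀ j, (X : B⟦X⟧) ^ (j + 1) ∣ T - t j := by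
    refine ⟨PowerSeries.mk fun n => coeff n (t n), fun j => X_pow_dvd_iff.2 fun m hm => ?_⟩
    rw [map_sub, coeff_mk, hlim m j (by omega), sub_self]
  refine ⟨T, eq_zero_of_dvd fun n => ?_, ?_⟩
  · have : T * f = (T - t n) * f := by rw [sub_mul, htf, sub_zero]
    rw [this]
    exact X_pow_dvd_mul_right _ (hT n)
  · have : g * T - g = 0 := eq_zero_of_dvd fun n => by
      have h : g * T - g = g * (T - t n) + (g * t n - g) := by rw [mul_sub]; abel
      rw [h]
      exact dvd_add (X_pow_dvd_mul_left _ (hT n)) (key n n le_rfl g (D2 n))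
    exact sub_eq_zero.1 this

end

end Pool.Agent.helper2.WG
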