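import Mathlib

open CategoryTheory

namespace Pool.Agent.helper2.WG

universe v u

class Good (C : Type u) [Category.{v} C] [Preadditive C] : Prop where
  reg : ∀ {X Y : C} (f : X ⟶ Y), ∃ g : Y ⟶ X, f ≫ g ≫ f = f
  bp : ∀ X Y : C, ∃ (S : C) (i₁ : X ⟶ S) (i₂ : Y ⟶ S) (p₁ : S ⟶ X) (p₂ : S ⟶ Y),
    i₁ ≫ p₁ = 𝟙 X ∧ i₁ ≫ p₂ = 0 ∧ i₂ ≫ p₁ = 0 ∧ i₂ ≫ p₂ = 𝟙 Y ∧ p₁ ≫ i₁ + p₂ ≫ i₂ = 𝟙 S
  ci : ∀ (M : C) (Y Z : ℕ → C) (q : ∀ k, Y k ⟶ M) (p : ∀ j, M ⟶ Z j),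
    (∀ k j, q k ≫ p j = 0) → ∃ t : M ⟶ M, (∀ k, q k ≫ t = q k) ∧ ∀ j, t ≫ p j = 0

variable {C : Type u} [Category.{v} C] [Preadditive C]

instance goodOp [Good C] : Good Cᵒᵖ where
  reg f := by
    obtain ⟨g, hg⟩ := Good.reg f.unop
    refine ⟨g.op, Quiver.Hom.unop_inj ?_⟩
    simpa using hg
  bp X Y := by
    obtain ⟨S, i₁, i₂, p₁, p₂, h1, h2, h3, h4, h5⟩ := Good.bp X.unop Y.unop
    refine ⟨Opposite.op S, p₁.op, p₂.op, i₁.op, i₂.op, ?_, ?_, ?_, ?_, ?_⟩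
    · exact Quiver.Hom.unop_inj (by simpa using h1)
    · exact Quiver.Hom.unop_inj (by simpa using h3)
    · exact Quiver.Hom.unop_inj (by simpa using h2)
    · exact Quiver.Hom.unop_inj (by simpa using h4)
    · exact Quiver.Hom.unop_inj (by simpa using h5)
  ci M Y Z q p h := by
    obtain ⟨t, ht1, ht2⟩ := Good.ci M.unop (fun j => (Z j).unop) (fun k => (Y k).unop)
      (fun j => (p j).unop) (fun k => (q k).unop)
      (fun j k => by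
        have := congrArg Quiver.Hom.unop (h k j)
        simpa using this)
    refine ⟨(𝟙 _ - t).op, fun k => Quiver.Hom.unop_inj ?_, fun j => Quiver.Hom.unop_inj ?_⟩
    · simp [ht2 k]
    · simp [ht1 j]

theorem I3 [Good C] {E F : C} {Y G : ℕ → C} (y : ∀ k, Y k ⟶ E) (η : ∀ k, Y k ⟶ F)
    (d : ∀ i, F ⟶ G i) (β : ∀ i, E ⟶ G i) (h : ∀ k i, η k ≫ d i = y k ≫ β i) :
    ∃ (ε : F ⟶ F) (b : E ⟶ F), (∀ i, ε ≫ d i = 0) ∧ ∀ k, η k - η k ≫ ε = y k ≫ b := by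
  obtain ⟨S, i₁, i₂, p₁, p₂, h1, h2, h3, h4, h5⟩ := Good.bp E F
  obtain ⟨t, ht1, ht2⟩ := Good.ci S Y G (fun k => y k ≫ i₁ + η k ≫ i₂)
    (fun i => p₂ ≫ d i - p₁ ≫ β i) (fun k i => by
      simp [Preadditive.comp_sub, Preadditive.add_comp, Category.assoc, reassoc_of% h1,
        reassoc_of% h2, reassoc_of% h3, reassoc_of% h4, h k i])
  obtain ⟨τ', hτ⟩ := Good.reg (t ≫ p₁)
  obtain ⟨φ', hφ⟩ := Good.reg ((𝟙 _ - (t ≫ p₁) ≫ τ') ≫ t ≫ p₂)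
  set τ := t ≫ p₁ with hτd
  set ς := t ≫ p₂ with hςd
  set κ := 𝟙 S - τ ≫ τ' with hκ
  have hς : ∀ i, ς ≫ d i = τ ≫ β i := fun i => by
    have := ht2 i
    rw [Preadditive.comp_sub, sub_eq_zero] at this
    simpa [hςd, hτd] using this
  have hκτ : κ ≫ τ = 0 := by
    rw [hκ, Preadditive.sub_comp, Category.id_comp, Category.assoc, hτ, sub_self]
  have hqτ : ∀ k, (y k ≫ i₁ + η k ≫ i₂) ≫ τ = y k := fun k => by
    have := congrArg (· ≫ p₁) (ht1 k)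
    simp only [Category.assoc, Preadditive.add_comp, h1, h3, Category.comp_id, Limits.comp_zero,
      add_zero] at this
    simpa [hτd, Preadditive.add_comp] using this
  have hqς : ∀ k, (y k ≫ i₁ + η k ≫ i₂) ≫ ς = η k := fun k => by
    have := congrArg (· ≫ p₂) (ht1 k)
    simp only [Category.assoc, Preadditive.add_comp, h2, h4, Category.comp_id, Limits.comp_zero,
      zero_add] at this
    simpa [hςd, Preadditive.add_comp] using this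
  refine ⟨φ' ≫ κ ≫ ς, τ' ≫ ς ≫ (𝟙 _ - φ' ≫ κ ≫ ς), fun i => ?_, fun k => ?_⟩
  · simp only [Category.assoc, hς, reassoc_of% hκτ, Limits.zero_comp, Limits.comp_zero]
  · have a1 := hqτ k
    have a2 := hqς k
    obtain ⟨q, hq⟩ : ∃ q, q = y k ≫ i₁ + η k ≫ i₂ := ⟨_, rfl⟩
    rw [← hq] at a1 a2
    have e1 : η k = q ≫ κ ≫ ς + y k ≫ τ' ≫ ς := by
      calc η k = q ≫ ς := a2.symm
        _ = q ≫ κ ≫ ς + (q ≫ τ) ≫ τ' ≫ ς := by
          rw [hκ]; simp [Preadditive.sub_comp, Preadditive.comp_sub]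
        _ = _ := by rw [a1]
    have e2 : (q ≫ κ ≫ ς) ≫ φ' ≫ κ ≫ ς = q ≫ κ ≫ ς := by
      simp only [Category.assoc] at hφ ⊢
      rw [hφ]
    calc η k - η k ≫ φ' ≫ κ ≫ ς = (q ≫ κ ≫ ς + y k ≫ τ' ≫ ς)
        - (q ≫ κ ≫ ς + y k ≫ τ' ≫ ς) ≫ φ' ≫ κ ≫ ς := by rw [← e1]
      _ = y k ≫ τ' ≫ ς ≫ (𝟙 _ - φ' ≫ κ ≫ ς) := by
        rw [Preadditive.add_comp, e2]
        simp [Preadditive.comp_sub]


theorem joint [Good C] {N : C} {Z : ℕ → C} (P : ∀ j, N ⟶ Z j) (k : ℕ) :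
    ∃ (W : C) (Q : N ⟶ W), (∀ j ≤ k, ∃ g : W ⟶ Z j, Q ≫ g = P j) ∧
      ∀ (X : C) (s : X ⟶ N), (∀ j ≤ k, s ≫ P j = 0) → s ≫ Q = 0 := by
  induction k with
  | zero =>
    refine ⟨Z 0, P 0, fun j hj => ?_, fun X s hs => hs 0 le_rfl⟩
    obtain rfl : j = 0 := by omega
    exact ⟨𝟙 _, Category.comp_id _⟩
  | succ k ih =>
    obtain ⟨W, Q, hQ1, hQ2⟩ := ih
    obtain ⟨S, i₁, i₂, p₁, p₂, h1, h2, h3, h4, h5⟩ := Good.bp W (Z (k + 1))
    refine ⟨S, Q ≫ i₁ + P (k + 1) ≫ i₂, fun j hj => ?_, fun X s hs => ?_⟩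
    · rcases Nat.lt_or_ge j (k + 1) with hlt | hge
      · obtain ⟨g, hg⟩ := hQ1 j (by omega)
        refine ⟨p₁ ≫ g, ?_⟩
        simp [Preadditive.add_comp, reassoc_of% h1, reassoc_of% h3, hg]
      · obtain rfl : j = k + 1 := by omega
        refine ⟨p₂, ?_⟩
        simp [Preadditive.add_comp, h2, h4]
    · rw [Preadditive.comp_add, ← Category.assoc, ← Category.assoc,
        hQ2 X s (fun j hj => hs j (by omega)), hs (k + 1) le_rfl]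
      simp

theorem splitting [Good C] {E N : C} {Y Z : ℕ → C} (y : ∀ k, Y k ⟶ E) (P : ∀ j, N ⟶ Z j)
    (k : ℕ) (D : E ⟶ N) (h : ∀ i ≤ k, ∀ j ≤ k, y i ≫ D ≫ P j = 0) :
    ∃ D' D'' : E ⟶ N, D = D' + D'' ∧ (∀ j ≤ k, D' ≫ P j = 0) ∧ ∀ i ≤ k, y i ≫ D'' = 0 := by
  obtain ⟨W, Q, hQ1, hQ2⟩ := joint P k
  obtain ⟨Q', hQ'⟩ := Good.reg Q
  refine ⟨D - D ≫ Q ≫ Q', D ≫ Q ≫ Q', by abel, fun j hj => ?_, fun i hi => ?_⟩
  · obtain ⟨g, hg⟩ := hQ1 j hj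
    rw [← hg, ← Category.assoc, Preadditive.sub_comp]
    simp only [Category.assoc, hQ', sub_self, Limits.zero_comp]
  · have : (y i ≫ D) ≫ Q = 0 := hQ2 _ _ (fun j hj => by simpa using h i hi j hj)
    rw [← Category.assoc, ← Category.assoc, this, Limits.zero_comp]

theorem LZ [Good C] {E F N : C} {Y Z : ℕ → C} (y : ∀ k, Y k ⟶ E) (η : ∀ k, Y k ⟶ F)
    (hη : ∀ k, ∃ b : E ⟶ F, ∀ i ≤ k, y i ≫ b = η i)
    (P : ∀ j, N ⟶ Z j) (z : ∀ j, F ⟶ Z j)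
    (hz : ∀ k, ∃ c : F ⟶ N, ∀ i ≤ k, c ≫ P i = z i) :
    ∃ (δ : F ⟶ F) (b : E ⟶ F) (c : F ⟶ N), (∀ k, η k - η k ≫ δ = y k ≫ b) ∧
      ∀ j, c ≫ P j = δ ≫ z j := by
  choose b hb using hη
  choose c hc using hz
  have hθ : ∀ n i j, i ≤ n → j ≤ n → y i ≫ (b n ≫ c n) ≫ P j = η i ≫ z j := by
    intro n i j hi hj
    rw [Category.assoc, hc n j hj, ← Category.assoc, hb n i hi]
  have hsp : ∀ k, ∃ D' D'' : E ⟶ N, b (k + 1) ≫ c (k + 1) - b k ≫ c k = D' + D'' ∧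
      (∀ j ≤ k, D' ≫ P j = 0) ∧ ∀ i ≤ k, y i ≫ D'' = 0 := by
    intro k
    apply splitting y P k
    intro i hi j hj
    rw [Preadditive.sub_comp, Preadditive.comp_sub, hθ (k + 1) i j (by omega) (by omega),
      hθ k i j hi hj, sub_self]
  choose D' D'' hD hD' hD'' using hsp
  have a1 : ∀ i n, i ≤ n → y i ≫ (∑ k ∈ Finset.range n, D'' k) =
      y i ≫ (∑ k ∈ Finset.range i, D'' k) := by
    intro i n hn
    induction n, hn using Nat.le_induction with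
    | base => rfl
    | succ n hn ih => rw [Finset.sum_range_succ, Preadditive.comp_add, ih, hD'' n i hn, add_zero]
  have a2 : ∀ j n, j ≤ n → (∑ k ∈ Finset.range n, D' k) ≫ P j =
      (∑ k ∈ Finset.range j, D' k) ≫ P j := by
    intro j n hn
    induction n, hn using Nat.le_induction with
    | base => rfl
    | succ n hn ih => rw [Finset.sum_range_succ, Preadditive.add_comp, ih, hD' n j hn, add_zero]
  have a3 : ∀ n, b n ≫ c n = b 0 ≫ c 0 + (∑ k ∈ Finset.range n, D' k) +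
      ∑ k ∈ Finset.range n, D'' k := by
    intro n
    induction n with
    | zero => simp
    | succ n ih =>
      rw [Finset.sum_range_succ, Finset.sum_range_succ]
      have := hD n
      rw [sub_eq_iff_eq_add] at this
      rw [this, ih]
      abel
  have key : ∀ i j, y i ≫ (∑ k ∈ Finset.range i, D'' k) ≫ P j +
      y i ≫ (b 0 ≫ c 0 + ∑ k ∈ Finset.range j, D' k) ≫ P j = η i ≫ z j := by
    intro i j
    have h1 := a1 i (max i j) (le_max_left _ _)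
    have h2 := a2 j (max i j) (le_max_right _ _)
    rw [← hθ (max i j) i j (le_max_left _ _) (le_max_right _ _), a3 (max i j)]
    rw [Preadditive.add_comp, Preadditive.add_comp, Preadditive.add_comp, h2]
    rw [← Category.assoc (y i) (∑ k ∈ Finset.range i, D'' k) (P j), ← h1, Category.assoc]
    simp only [Preadditive.comp_add]
    abel
  obtain ⟨S, i₁, i₂, p₁, p₂, h1, h2, h3, h4, h5⟩ := Good.bp F N
  obtain ⟨ε, bb, hε1, hε2⟩ := I3 (G := Z) y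
    (fun k => η k ≫ i₁ + (y k ≫ (∑ m ∈ Finset.range k, D'' m)) ≫ i₂)
    (fun j => p₁ ≫ z j - p₂ ≫ P j) (fun j => (b 0 ≫ c 0 + ∑ k ∈ Finset.range j, D' k) ≫ P j)
    (fun k j => by
      simp only [Preadditive.comp_sub, Preadditive.add_comp, Category.assoc, reassoc_of% h1,
        reassoc_of% h2, reassoc_of% h3, reassoc_of% h4, Limits.zero_comp, Limits.comp_zero,
        add_zero, zero_add]
      rw [← key k j]
      simp only [Preadditive.add_comp, Category.assoc, Preadditive.comp_add]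
      abel)
  obtain ⟨ω', hω⟩ := Good.reg (ε ≫ p₁)
  have hzP : ∀ j, (ε ≫ p₁) ≫ z j = (ε ≫ p₂) ≫ P j := by
    intro j
    have := hε1 j
    rw [Preadditive.comp_sub, sub_eq_zero] at this
    simpa using this
  refine ⟨ω' ≫ ε ≫ p₁, bb ≫ p₁ ≫ (𝟙 _ - ω' ≫ ε ≫ p₁), ω' ≫ ε ≫ p₂, fun k => ?_, fun j => ?_⟩
  · have e0 := hε2 k
    obtain ⟨q, hq⟩ : ∃ q, q = η k ≫ i₁ + (y k ≫ (∑ m ∈ Finset.range k, D'' m)) ≫ i₂ := ⟨_, rfl⟩
    rw [← hq] at e0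
    have e1 : q ≫ p₁ = η k := by
      rw [hq]; simp [Preadditive.add_comp, h1, h3]
    have e2 : η k = (q ≫ ε ≫ p₁) + y k ≫ bb ≫ p₁ := by
      rw [sub_eq_iff_eq_add] at e0
      rw [← e1]
      conv_lhs => rw [e0]
      simp [Preadditive.add_comp, add_comm]
    have e3 : (q ≫ ε ≫ p₁) ≫ ω' ≫ ε ≫ p₁ = q ≫ ε ≫ p₁ := by
      simp only [Category.assoc] at hω ⊢
      rw [hω]
    calc η k - η k ≫ ω' ≫ ε ≫ p₁ = ((q ≫ ε ≫ p₁) + y k ≫ bb ≫ p₁) -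
          ((q ≫ ε ≫ p₁) + y k ≫ bb ≫ p₁) ≫ ω' ≫ ε ≫ p₁ := by rw [← e2]
      _ = _ := by
        rw [Preadditive.add_comp, e3]
        simp [Preadditive.comp_sub]
  · simp only [Category.assoc] at hzP ⊢
    rw [hzP j]


theorem seqFrom {T : ℕ → Type*} (l : ℕ) (x : T l) (R : ∀ m, T m → T (m + 1) → Prop)
    (h : ∀ m a, ∃ b, R m a b) : ∃ s : ∀ m, l ≤ m → T m, s l le_rfl = x ∧
      ∀ m (hm : l ≤ m), R m (s m hm) (s (m + 1) (Nat.le_succ_of_le hm)) := by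
  choose f hf using h
  refine ⟨fun m hm => Nat.leRecOn hm (fun {k} a => f k a) x, Nat.leRecOn_self _, fun m hm => ?_⟩
  simp only [Nat.leRecOn_succ hm]
  exact hf _ _

section systems

variable (X : ℕ → C) (π : ∀ l, X (l + 1) ⟶ X l)

def Lift : ∀ (_ l : ℕ) {F : C}, (F ⟶ X l) → Prop
  | 0, _, _, _ => True
  | m + 1, l, F, s => ∃ s' : F ⟶ X (l + 1), s' ≫ π l = s ∧ Lift m (l + 1) s'

omit [Preadditive C] in
theorem Lift.mono {m l : ℕ} {F : C} {s : F ⟶ X l} (h : Lift X π (m + 1) l s) :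
    Lift X π m l s := by
  induction m generalizing l with
  | zero => trivial
  | succ m ih =>
    obtain ⟨s', h1, h2⟩ := h
    exact ⟨s', h1, ih h2⟩

omit [Preadditive C] in
theorem Lift.mono' {m m' l : ℕ} (hm : m ≤ m') {F : C} {s : F ⟶ X l} (h : Lift X π m' l s) :
    Lift X π m l s := by
  induction m', hm using Nat.le_induction with
  | base => exact h
  | succ n hn ih => exact ih (h.mono)

theorem proj [Good C] (m l : ℕ) : ∃ p : X l ⟶ X l, ∀ (F : C) (s : F ⟶ X l),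
    s ≫ p = 0 ↔ Lift X π m l s := by
  induction m generalizing l with
  | zero => exact ⟨0, fun F s => by simp [Lift]⟩
  | succ m ih =>
    obtain ⟨p, hp⟩ := ih (l + 1)
    obtain ⟨p', hp'⟩ := Good.reg p
    have hκ : (𝟙 _ - p ≫ p') ≫ p = 0 := by
      rw [Preadditive.sub_comp, Category.id_comp, Category.assoc, hp', sub_self]
    set κ := 𝟙 _ - p ≫ p' with hκd
    obtain ⟨w', hw⟩ := Good.reg (κ ≫ π l)
    refine ⟨𝟙 _ - w' ≫ κ ≫ π l, fun F s => ⟨fun h => ?_, fun h => ?_⟩⟩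
    · refine ⟨s ≫ w' ≫ κ, ?_, (hp F _).1 ?_⟩
      · rw [Preadditive.comp_sub, sub_eq_zero] at h
        simpa using h.symm
      · simp [hκ]
    · obtain ⟨s', h1, h2⟩ := h
      have h3 : s' ≫ κ = s' := by
        rw [hκd, Preadditive.comp_sub, ← Category.assoc, (hp F s').2 h2]
        simp
      have h4 : s = s' ≫ κ ≫ π l := by rw [← Category.assoc, h3, h1]
      rw [Preadditive.comp_sub, sub_eq_zero, Category.comp_id]
      conv_rhs => rw [h4]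
      simp only [Category.assoc] at hw ⊢
      rw [hw]
      exact h4

theorem Cstep [Good C] {E F : C} {Y : ℕ → C} (y : ∀ k, Y k ⟶ E) (η : ∀ k, Y k ⟶ F)
    (hη : ∀ k, ∃ b : E ⟶ F, ∀ i ≤ k, y i ≫ b = η i) (l : ℕ) (s : F ⟶ X l)
    (hs : ∀ m, Lift X π m l s) :
    ∃ (δ : F ⟶ F) (b : E ⟶ F) (s' : F ⟶ X (l + 1)), s' ≫ π l = δ ≫ s ∧
      (∀ m, Lift X π m (l + 1) s') ∧ ∀ k, η k - η k ≫ δ = y k ≫ b := by
  choose p hp using fun m => proj X π m (l + 1)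
  obtain ⟨S, i₁, i₂, p₁, p₂, h1, h2, h3, h4, h5⟩ := Good.bp (X l) (X (l + 1))
  obtain ⟨δ, b, c, hb, hc⟩ := LZ (N := X (l + 1)) (Z := fun _ => S) y η hη
    (fun m => π l ≫ i₁ + p m ≫ i₂) (fun _ => s ≫ i₁) (fun m => by
      obtain ⟨s', hs1, hs2⟩ := hs (m + 1)
      refine ⟨s', fun i hi => ?_⟩
      have := (hp i F s').2 (hs2.mono' X π hi)
      rw [Preadditive.comp_add, ← Category.assoc, ← Category.assoc, hs1, this]
      simp)
  refine ⟨δ, b, c, ?_, fun m => ?_, hb⟩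
  · have := congrArg (· ≫ p₁) (hc 0)
    simpa [Preadditive.add_comp, h1, h3] using this
  · rw [← hp m]
    have := congrArg (· ≫ p₂) (hc m)
    simpa [Preadditive.add_comp, h2, h4] using this

theorem Cthm [Good C] {E F : C} {Y : ℕ → C} (y : ∀ k, Y k ⟶ E) (η : ∀ k, Y k ⟶ F)
    (hη : ∀ k, ∃ b : E ⟶ F, ∀ i ≤ k, y i ≫ b = η i) (l : ℕ) (j : F ⟶ X l)
    (hj : ∀ m, Lift X π m l j) :
    ∃ (ε : F ⟶ F) (b : E ⟶ F) (e : ∀ m, l ≤ m → (F ⟶ X m)),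
      (∀ m (h : l ≤ m), e (m + 1) (Nat.le_succ_of_le h) ≫ π m = e m h) ∧
      e l le_rfl = ε ≫ j ∧ ∀ k, η k - η k ≫ ε = y k ≫ b := by
  obtain ⟨s, hs0, hs⟩ := seqFrom (T := fun m => {s : F ⟶ X m // ∀ m', Lift X π m' m s}) l
    ⟨j, hj⟩ (fun m a a' => ∃ (δ : F ⟶ F) (b : E ⟶ F), a'.1 ≫ π m = δ ≫ a.1 ∧
      ∀ k, η k - η k ≫ δ = y k ≫ b) (fun m a => by
      obtain ⟨δ, b, s', h1, h2, h3⟩ := Cstep X π y η hη m a.1 a.2
      exact ⟨⟨s', h2⟩, δ, b, h1, h3⟩)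
  choose δ β h1 h2 using hs
  obtain ⟨ε, b, hε, hb⟩ := I3 (G := fun _ => F) y η
    (fun i => 𝟙 F - δ (l + i) (Nat.le_add_right l i)) (fun i => β (l + i) (Nat.le_add_right l i))
    (fun k i => by rw [Preadditive.comp_sub, Category.comp_id]; exact h2 _ _ k)
  refine ⟨ε, b, fun m h => ε ≫ (s m h).1, fun m h => ?_, by simp only [hs0], hb⟩
  obtain ⟨i, rfl⟩ := Nat.exists_eq_add_of_le h
  have := hε i
  rw [Preadditive.comp_sub, sub_eq_zero, Category.comp_id] at this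
  rw [Category.assoc, h1, ← Category.assoc, ← this]

omit [Preadditive C] in
theorem lift_of_family {F : C} (l : ℕ) (e : ∀ m, l ≤ m → (F ⟶ X m))
    (he : ∀ m (h : l ≤ m), e (m + 1) (Nat.le_succ_of_le h) ≫ π m = e m h) (m : ℕ) :
    ∀ k (hk : l ≤ k), Lift X π m k (e k hk) := by
  induction m with
  | zero => intro k hk; trivial
  | succ m ih =>
    intro k hk
    exact ⟨e (k + 1) (Nat.le_succ_of_le hk), he k hk, ih _ _⟩

theorem cojoint [Good C] {N : C} {Y : ℕ → C} (y : ∀ j, Y j ⟶ N) (k : ℕ) :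
    ∃ (W : C) (Q : W ⟶ N), (∀ j ≤ k, ∃ g : Y j ⟶ W, g ≫ Q = y j) ∧
      ∀ (Z : C) (s : N ⟶ Z), (∀ j ≤ k, y j ≫ s = 0) → Q ≫ s = 0 := by
  obtain ⟨W, Q, h1, h2⟩ := joint (C := Cᵒᵖ) (N := Opposite.op N) (Z := fun j => Opposite.op (Y j))
    (fun j => (y j).op) k
  refine ⟨W.unop, Q.unop, fun j hj => ?_, fun Z s hs => ?_⟩
  · obtain ⟨g, hg⟩ := h1 j hj
    exact ⟨g.unop, Quiver.Hom.op_inj (by simpa using hg)⟩
  · have := h2 (Opposite.op Z) s.op (fun j hj => by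
      rw [← op_comp, hs j hj]; rfl)
    exact Quiver.Hom.op_inj (by simpa using this)

theorem goodLifts [Good C] {Y : ℕ → C} (y : ∀ i m, Y i ⟶ X m)
    (hy : ∀ i m, y i (m + 1) ≫ π m = y i m) :
    ∃ w : ∀ i m, Y i ⟶ X m, (∀ i m, w i (m + 1) ≫ π m = w i m) ∧ (∀ i, w i 0 = y i 0) ∧
      ∀ m k, ∃ σ : X 0 ⟶ X m, ∀ i ≤ k, y i 0 ≫ σ = w i m := by
  obtain ⟨a0, ha0⟩ := Good.reg (y 0 0)
  obtain ⟨s, -, hs⟩ := seqFrom (T := fun k => {σ : ∀ m, X 0 ⟶ X m //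
      (∀ m, σ (m + 1) ≫ π m = σ m) ∧ ∀ i ≤ k, y i 0 ≫ σ 0 = y i 0}) 0
    ⟨fun m => a0 ≫ y 0 m, fun m => by rw [Category.assoc, hy], fun i hi => by
      obtain rfl : i = 0 := by omega
      exact ha0⟩
    (fun k σ σ' => ∀ i ≤ k, ∀ m, y i 0 ≫ σ'.1 m = y i 0 ≫ σ.1 m) (fun k σ => by
      obtain ⟨σ, hσ1, hσ2⟩ := σ
      obtain ⟨W, Q, hQ1, hQ2⟩ := cojoint (fun i => y i 0) k
      obtain ⟨Q', hQ'⟩ := Good.reg Q
      have hQσ : Q ≫ σ 0 = Q := by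
        have := hQ2 _ (σ 0 - 𝟙 _) (fun i hi => by
          rw [Preadditive.comp_sub, hσ2 i hi, Category.comp_id, sub_self])
        rw [Preadditive.comp_sub, Category.comp_id, sub_eq_zero] at this
        exact this
      have hyω : ∀ i ≤ k, y i 0 ≫ Q' ≫ Q = y i 0 := by
        intro i hi
        obtain ⟨g, hg⟩ := hQ1 i hi
        rw [← hg, Category.assoc, hQ']
      obtain ⟨ω, hω⟩ : ∃ ω, ω = Q' ≫ Q := ⟨_, rfl⟩
      rw [← hω] at hQ'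
      simp only [← hω] at hyω
      have hωσ : ω ≫ σ 0 = ω := by rw [hω, Category.assoc, hQσ]
      obtain ⟨a', ha'⟩ := Good.reg (y (k + 1) 0 - y (k + 1) 0 ≫ ω)
      refine ⟨⟨fun m => ω ≫ σ m + (𝟙 _ - ω) ≫ a' ≫ (y (k + 1) m - y (k + 1) 0 ≫ ω ≫ σ m),
        fun m => ?_, fun i hi => ?_⟩, fun i hi m => ?_⟩
      · simp [Preadditive.add_comp, Preadditive.sub_comp, Preadditive.comp_sub, hσ1, hy]
      · rcases Nat.lt_or_ge i (k + 1) with hlt | hge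
        · have e1 : y i 0 ≫ (𝟙 _ - ω) = 0 := by
            rw [Preadditive.comp_sub, hyω i (by omega), Category.comp_id, sub_self]
          rw [Preadditive.comp_add, ← Category.assoc (y i 0) ω, hyω i (by omega),
            hσ2 i (by omega), ← Category.assoc (y i 0) (𝟙 _ - ω), e1]
          simp
        · obtain rfl : i = k + 1 := by omega
          have e1 : y (k + 1) 0 ≫ (𝟙 _ - ω) = y (k + 1) 0 - y (k + 1) 0 ≫ ω := by
            rw [Preadditive.comp_sub, Category.comp_id]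
          rw [Preadditive.comp_add, ← Category.assoc (y (k + 1) 0) (𝟙 _ - ω), e1, hωσ, ha']
          abel
      · have e1 : y i 0 ≫ (𝟙 _ - ω) = 0 := by
          rw [Preadditive.comp_sub, hyω i hi, Category.comp_id, sub_self]
        dsimp only
        rw [Preadditive.comp_add, ← Category.assoc (y i 0) ω, hyω i hi,
          ← Category.assoc (y i 0) (𝟙 _ - ω), e1]
        simp)
  have hst : ∀ i k m, i ≤ k → y i 0 ≫ (s k (Nat.zero_le k)).1 m =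
      y i 0 ≫ (s i (Nat.zero_le i)).1 m := by
    intro i k m hik
    induction k, hik using Nat.le_induction with
    | base => rfl
    | succ k hk ih => rw [← ih]; exact hs k (Nat.zero_le k) i hk m
  refine ⟨fun i m => y i 0 ≫ (s i (Nat.zero_le i)).1 m, fun i m => ?_, fun i => ?_,
    fun m k => ⟨(s k (Nat.zero_le k)).1 m, fun i hi => hst i k m hi⟩⟩
  · rw [Category.assoc, (s i (Nat.zero_le i)).2.1]
  · exact (s i (Nat.zero_le i)).2.2 i le_rfl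

theorem Wstep [Good C] {Y : ℕ → C} (y : ∀ i, Y i ⟶ X 0) (l : ℕ) (s : X 0 ⟶ X l)
    (w : ∀ i m, l ≤ m → (Y i ⟶ X m))
    (hw1 : ∀ i m (h : l ≤ m), w i (m + 1) (Nat.le_succ_of_le h) ≫ π m = w i m h)
    (hw2 : ∀ i, w i l le_rfl = y i ≫ s)
    (hw3 : ∀ m (h : l ≤ m) k, ∃ σ : X 0 ⟶ X m, ∀ i ≤ k, y i ≫ σ = w i m h) :
    ∃ (δ : X 0 ⟶ X 0) (s' : X 0 ⟶ X (l + 1)), s' ≫ π l = δ ≫ s ∧ (∀ i, y i ≫ δ = y i) ∧
      (∀ m, Lift X π m (l + 1) s') ∧ ∃ w' : ∀ i m, l + 1 ≤ m → (Y i ⟶ X m),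
      (∀ i m (h : l + 1 ≤ m), w' i (m + 1) (Nat.le_succ_of_le h) ≫ π m = w' i m h) ∧
      (∀ i, w' i (l + 1) le_rfl = y i ≫ s') ∧
      (∀ m (h : l + 1 ≤ m) k, ∃ σ : X 0 ⟶ X m, ∀ i ≤ k, y i ≫ σ = w' i m h) := by
  choose p hp using fun m => proj X π m (l + 1)
  obtain ⟨S, i₁, i₂, p₁, p₂, h1, h2, h3, h4, h5⟩ := Good.bp (X 0) (X (l + 1))
  obtain ⟨S', i₁', i₂', p₁', p₂', h1', h2', h3', h4', h5'⟩ := Good.bp (X l) (X (l + 1))
  have hl : l ≤ l + 1 := Nat.le_succ l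
  obtain ⟨q, hq⟩ : ∃ q : ∀ i, Y i ⟶ S, ∀ i, q i = y i ≫ i₁ + w i (l + 1) hl ≫ i₂ :=
    ⟨_, fun i => rfl⟩
  have hq1 : ∀ i, q i ≫ p₁ = y i := fun i => by
    rw [hq]; simp [Preadditive.add_comp, h1, h3]
  have hq2 : ∀ i, q i ≫ p₂ = w i (l + 1) hl := fun i => by
    rw [hq]; simp [Preadditive.add_comp, h2, h4]
  have hwp : ∀ i m, w i (l + 1) hl ≫ p m = 0 := fun i m =>
    (hp m _ _).2 (lift_of_family X π l (w i) (hw1 i) m (l + 1) hl)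
  obtain ⟨t, ht1, ht2⟩ := Good.ci S Y (fun _ => S') q
    (fun m => (p₁ ≫ s - p₂ ≫ π l) ≫ i₁' + (p₂ ≫ p m) ≫ i₂') (fun i m => by
      rw [Preadditive.comp_add, ← Category.assoc, ← Category.assoc (q i) (p₂ ≫ p m),
        Preadditive.comp_sub, ← Category.assoc, ← Category.assoc, hq1,
        ← Category.assoc (q i) p₂ (p m), hq2, hwp i m, hw1 i l le_rfl, hw2 i]
      simp)
  obtain ⟨τ', hτ⟩ := Good.reg (t ≫ p₁)
  have hA : ∀ m, (t ≫ p₁) ≫ s = (t ≫ p₂) ≫ π l := fun m => by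
    have := congrArg (· ≫ p₁') (ht2 m)
    simp only [Preadditive.add_comp, Category.assoc, h1', h3', Limits.comp_zero, add_zero,
      Limits.zero_comp, Preadditive.comp_add, Category.comp_id, Preadditive.comp_sub] at this
    rw [sub_eq_zero] at this
    simpa using this
  have hB : ∀ m, (t ≫ p₂) ≫ p m = 0 := fun m => by
    have := congrArg (· ≫ p₂') (ht2 m)
    simp only [Preadditive.add_comp, Category.assoc, h2', h4', Limits.comp_zero, zero_add,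
      Limits.zero_comp, Preadditive.comp_add, Category.comp_id] at this
    simpa using this
  have hqτ : ∀ i, q i ≫ t ≫ p₁ = y i := fun i => by rw [← Category.assoc, ht1, hq1]
  have hqς : ∀ i, q i ≫ t ≫ p₂ = w i (l + 1) hl := fun i => by
    rw [← Category.assoc, ht1, hq2]
  obtain ⟨τ, hτd⟩ : ∃ τ, τ = t ≫ p₁ := ⟨_, rfl⟩
  obtain ⟨ς, hςd⟩ : ∃ ς, ς = t ≫ p₂ := ⟨_, rfl⟩
  rw [← hτd] at hτ hA hqτ
  rw [← hςd] at hA hB hqς
  obtain ⟨κ, hκ⟩ : ∃ κ, κ = 𝟙 S - τ ≫ τ' := ⟨_, rfl⟩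
  have hκτ : κ ≫ τ = 0 := by
    rw [hκ, Preadditive.sub_comp, Category.id_comp, Category.assoc, hτ, sub_self]
  have hjπ : (κ ≫ ς) ≫ π l = 0 := by
    rw [Category.assoc, ← hA 0, ← Category.assoc, hκτ, Limits.zero_comp]
  have hjp : ∀ m, (κ ≫ ς) ≫ p m = 0 := fun m => by
    rw [Category.assoc, hB, Limits.comp_zero]
  obtain ⟨ε, b, e, he1, he2, he3⟩ := Cthm X π y q (fun k => by
    obtain ⟨σ, hσ⟩ := hw3 (l + 1) hl k
    refine ⟨i₁ + σ ≫ i₂, fun i hi => ?_⟩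
    rw [Preadditive.comp_add, ← Category.assoc, hσ i hi, hq]) (l + 1) (κ ≫ ς)
    (fun m => (hp m _ _).1 (hjp m))
  refine ⟨τ' ≫ τ, τ' ≫ ς + b ≫ κ ≫ ς, ?_, fun i => ?_, fun m => ?_,
    fun i m h => w i m (by omega) - q i ≫ e m h, fun i m h => ?_, fun i => ?_, fun m h k => ?_⟩
  · rw [Preadditive.add_comp, Category.assoc b, hjπ, Category.assoc, ← hA 0, Limits.comp_zero,
      add_zero, Category.assoc]
  · conv_lhs => rw [← hqτ i]
    rw [Category.assoc, hτ, hqτ]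
  · rw [← hp m, Preadditive.add_comp, Category.assoc b, hjp, Category.assoc, hB]
    simp
  · rw [Preadditive.sub_comp, hw1, Category.assoc, he1]
  · have e1 := he3 i
    dsimp only
    rw [he2, Preadditive.comp_add, ← Category.assoc (y i) b, ← e1]
    have e2 : y i ≫ τ' ≫ ς = q i ≫ τ ≫ τ' ≫ ς := by
      conv_lhs => rw [← hqτ i]
      simp
    rw [e2, ← hqς i, hκ]
    simp [Preadditive.sub_comp, Preadditive.comp_sub]
    abel
  · obtain ⟨σ, hσ⟩ := hw3 m (by omega) k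
    obtain ⟨σ1, hσ1⟩ := hw3 (l + 1) hl k
    refine ⟨σ - (i₁ + σ1 ≫ i₂) ≫ e m h, fun i hi => ?_⟩
    dsimp only
    rw [Preadditive.comp_sub, hσ i hi, ← Category.assoc, Preadditive.comp_add,
      ← Category.assoc (y i) σ1, hσ1 i hi, hq]

theorem Wthm [Good C] {Y : ℕ → C} (y : ∀ i m, Y i ⟶ X m)
    (hy : ∀ i m, y i (m + 1) ≫ π m = y i m) :
    ∃ e : ∀ m, X 0 ⟶ X m, (∀ m, e (m + 1) ≫ π m = e m) ∧ ∀ i, y i 0 ≫ e 0 = y i 0 := by
  obtain ⟨w, hw1, hw2, hw3⟩ := goodLifts X π y hy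
  choose p hp using fun m => proj X π m 0
  obtain ⟨s0, hs1, hs2⟩ := Good.ci (X 0) Y (fun _ => X 0) (fun i => y i 0) p (fun i m =>
    (hp m _ _).2 (lift_of_family X π 0 (fun k _ => y i k) (fun k _ => hy i k) m 0 le_rfl))
  obtain ⟨s, hs0, hs⟩ := seqFrom (T := fun l => {s : X 0 ⟶ X l // (∀ m, Lift X π m l s) ∧
      ∃ w : ∀ i m, l ≤ m → (Y i ⟶ X m),
      (∀ i m (h : l ≤ m), w i (m + 1) (Nat.le_succ_of_le h) ≫ π m = w i m h) ∧
      (∀ i, w i l le_rfl = y i 0 ≫ s) ∧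
      (∀ m (h : l ≤ m) k, ∃ σ : X 0 ⟶ X m, ∀ i ≤ k, y i 0 ≫ σ = w i m h)}) 0
    ⟨s0, fun m => (hp m _ _).1 (hs2 m), fun i m _ => w i m, fun i m _ => hw1 i m,
      fun i => by simp only [hw2, hs1], fun m _ k => hw3 m k⟩
    (fun l a a' => ∃ δ : X 0 ⟶ X 0, a'.1 ≫ π l = δ ≫ a.1 ∧ ∀ i, y i 0 ≫ δ = y i 0)
    (fun l a => by
      obtain ⟨s, hsL, w, hw1, hw2, hw3⟩ := a
      obtain ⟨δ, s', h1, h2, h3, w', h4, h5, h6⟩ := Wstep X π (fun i => y i 0) l s w hw1 hw2 hw3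
      exact ⟨⟨s', h3, w', h4, h5, h6⟩, δ, h1, h2⟩)
  choose δ h1 h2 using fun m => hs m (Nat.zero_le m)
  obtain ⟨ε, hε1, hε2⟩ := Good.ci (X 0) Y (fun _ => X 0) (fun i => y i 0) (fun l => 𝟙 _ - δ l)
    (fun i l => by rw [Preadditive.comp_sub, h2 l i, Category.comp_id, sub_self])
  refine ⟨fun m => ε ≫ (s m (Nat.zero_le m)).1, fun m => ?_, fun i => ?_⟩
  · have := hε2 m
    rw [Preadditive.comp_sub, sub_eq_zero, Category.comp_id] at this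
    rw [Category.assoc, h1, ← Category.assoc, ← this]
  · simp only [hs0]
    rw [← Category.assoc, hε1, hs1]

variable (ι : ∀ l, X l ⟶ X (l + 1))

theorem Wdual [Good C] {Z : ℕ → C} (z : ∀ i m, X m ⟶ Z i)
    (hz : ∀ i m, ι m ≫ z i (m + 1) = z i m) :
    ∃ r : ∀ m, X m ⟶ X 0, (∀ m, ι m ≫ r (m + 1) = r m) ∧ ∀ i, r 0 ≫ z i 0 = z i 0 := by
  obtain ⟨e, h1, h2⟩ := Wthm (C := Cᵒᵖ) (fun l => Opposite.op (X l)) (fun l => (ι l).op)
    (Y := fun i => Opposite.op (Z i)) (fun i m => (z i m).op) (fun i m => by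
      rw [← op_comp, hz])
  refine ⟨fun m => (e m).unop, fun m => Quiver.Hom.op_inj ?_, fun i => Quiver.Hom.op_inj ?_⟩
  · simpa using h1 m
  · simpa using h2 i

def Ext (m : ℕ) {G : C} (s : X 0 ⟶ G) : Prop :=
  Lift (C := Cᵒᵖ) (fun l => Opposite.op (X l)) (fun l => (ι l).op) m 0 s.op

theorem Cdual [Good C] {N F : C} {Z : ℕ → C} (P : ∀ k, N ⟶ Z k) (z : ∀ k, F ⟶ Z k)
    (hz : ∀ k, ∃ c : F ⟶ N, ∀ i ≤ k, c ≫ P i = z i) (j : X 0 ⟶ F)
    (hj : ∀ m, Ext X ι m j) :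
    ∃ (ε : F ⟶ F) (c : F ⟶ N) (r : ∀ m, X m ⟶ F), (∀ m, ι m ≫ r (m + 1) = r m) ∧
      r 0 = j ≫ ε ∧ ∀ k, z k - ε ≫ z k = c ≫ P k := by
  obtain ⟨ε, b, e, h1, h2, h3⟩ := Cthm (C := Cᵒᵖ) (fun l => Opposite.op (X l))
    (fun l => (ι l).op) (Y := fun k => Opposite.op (Z k)) (E := Opposite.op N)
    (F := Opposite.op F) (fun k => (P k).op) (fun k => (z k).op) (fun k => by
      obtain ⟨c, hc⟩ := hz k
      refine ⟨c.op, fun i hi => ?_⟩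
      rw [← op_comp, hc i hi]) 0 j.op hj
  refine ⟨ε.unop, b.unop, fun m => (e m (Nat.zero_le m)).unop,
    fun m => Quiver.Hom.op_inj ?_, Quiver.Hom.op_inj ?_, fun k => Quiver.Hom.op_inj ?_⟩
  · simpa using h1 m (Nat.zero_le m)
  · simpa using h2
  · simpa using h3 k

theorem ZC [Good C]
    (K1 : ∀ m (V : C) (v : V ⟶ X 0), (∀ (G : C) (s : X 0 ⟶ G), Ext X ι m s → v ≫ s = 0) →
      ∃ y : ∀ l, V ⟶ X l, (∀ l, y (l + 1) ≫ π l = y l) ∧ y 0 = v)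
    (K2 : ∀ m (V : C) (v : X 0 ⟶ V), (∀ (G : C) (s : G ⟶ X 0), Lift X π m 0 s → s ≫ v = 0) →
      ∃ y : ∀ l, X l ⟶ V, (∀ l, ι l ≫ y (l + 1) = y l) ∧ y 0 = v)
    {A : C} (a : A ⟶ X 0) (ya : ∀ l, A ⟶ X l) (hya : ∀ l, ya (l + 1) ≫ π l = ya l)
    (hya0 : ya 0 = a) :
    ∃ (δ : X 0 ⟶ X 0) (e : ∀ l, X 0 ⟶ X l) (r : ∀ l, X l ⟶ X 0),
      (∀ l, e (l + 1) ≫ π l = e l) ∧ e 0 = δ ∧ (∀ l, ι l ≫ r (l + 1) = r l) ∧
      r 0 = 𝟙 _ - δ ∧ a ≫ δ = a := by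
  have hq : ∀ m, ∃ q : X 0 ⟶ X 0, ∀ (G : C) (s : X 0 ⟶ G), q ≫ s = 0 ↔ Ext X ι m s := by
    intro m
    obtain ⟨p, hp⟩ := proj (C := Cᵒᵖ) (fun l => Opposite.op (X l)) (fun l => (ι l).op) m 0
    refine ⟨p.unop, fun G s => ?_⟩
    rw [Ext, ← hp]
    constructor
    · intro h; exact Quiver.Hom.unop_inj (by simpa using h)
    · intro h; exact Quiver.Hom.op_inj (by simpa using h)
  choose q hq using hq
  choose yq hyq1 hyq2 using fun m => K1 m _ (q m) (fun G s => (hq m G s).2)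
  obtain ⟨a', ha'⟩ := Good.reg a
  obtain ⟨y, hy0, hys⟩ : ∃ y : ℕ → ∀ l, X 0 ⟶ X l, (∀ l, y 0 l = a' ≫ ya l) ∧
      ∀ m l, y (m + 1) l = yq m l :=
    ⟨fun n => Nat.rec (motive := fun _ => ∀ l, X 0 ⟶ X l) (fun l => a' ≫ ya l)
      (fun m _ => yq m) n, fun _ => rfl, fun _ _ => rfl⟩
  obtain ⟨eα, hα1, hα2⟩ := Wthm X π (Y := fun _ => X 0) y (fun i m => by
    cases i with
    | zero => rw [hy0, hy0, Category.assoc, hya]
    | succ i => rw [hys, hys]; exact hyq1 i m)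
  obtain ⟨α, hα⟩ : ∃ α, α = eα 0 := ⟨_, rfl⟩
  rw [← hα] at hα2
  have haα : a ≫ α = a := by
    have h1 : (a' ≫ a) ≫ α = a' ≫ a := by
      have := hα2 0
      rwa [hy0, hya0] at this
    calc a ≫ α = (a ≫ a' ≫ a) ≫ α := by rw [ha']
      _ = a ≫ ((a' ≫ a) ≫ α) := by simp
      _ = a := by rw [h1, ha']
  have hqα : ∀ m, q m ≫ α = q m := fun m => by
    have := hα2 (m + 1)
    rwa [hys, hyq2] at this
  obtain ⟨α', hα'⟩ := Good.reg α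
  obtain ⟨γ, hγ⟩ : ∃ γ, γ = 𝟙 _ - α' ≫ α := ⟨_, rfl⟩
  have hαγ : α ≫ γ = 0 := by
    rw [hγ, Preadditive.comp_sub, Category.comp_id, hα', sub_self]
  have hγE : ∀ m, Ext X ι m γ := fun m => by
    rw [← hq, ← hqα, Category.assoc, hαγ, Limits.comp_zero]
  let BB : (X 0 ⟶ X 0) → Prop := fun δ => α ≫ δ = α ∧
    ∃ r : ∀ l, X l ⟶ X 0, (∀ l, ι l ≫ r (l + 1) = r l) ∧ r 0 = 𝟙 _ - δ
  have F1 : ∀ z : ℕ → (X 0 ⟶ X 0), (∀ i, α ≫ z i = 0) →
      (∀ i, ∃ r : ∀ l, X l ⟶ X 0, (∀ l, ι l ≫ r (l + 1) = r l) ∧ r 0 = z i) →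
      ∃ ε, BB ε ∧ ∀ i, ε ≫ z i = 0 := by
    intro z hz1 hz2
    choose rz hr1 hr2 using hz2
    obtain ⟨ρ, hρ1, hρ2⟩ := Wdual X ι (Z := fun _ => X 0) rz hr1
    obtain ⟨ω', hω'⟩ := Good.reg (α ≫ ρ 0)
    have e1 : ∀ i, (α ≫ ρ 0) ≫ z i = 0 := fun i => by
      rw [Category.assoc, ← hr2 i, hρ2, hr2, hz1]
    refine ⟨𝟙 _ - ρ 0 ≫ (𝟙 _ - ω' ≫ α ≫ ρ 0), ⟨?_, fun l => ρ l ≫ (𝟙 _ - ω' ≫ α ≫ ρ 0),
      fun l => ?_, ?_⟩, fun i => ?_⟩
    · have : α ≫ ρ 0 ≫ (𝟙 _ - ω' ≫ α ≫ ρ 0) = 0 := by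
        rw [← Category.assoc, Preadditive.comp_sub, Category.comp_id, hω', sub_self]
      rw [Preadditive.comp_sub, this, Category.comp_id, sub_zero]
    · rw [← Category.assoc, hρ1]
    · rw [sub_sub_cancel]
    · have : ρ 0 ≫ (𝟙 _ - ω' ≫ α ≫ ρ 0) ≫ z i = z i := by
        rw [Preadditive.sub_comp, Category.assoc, e1, Limits.comp_zero, sub_zero,
          Category.id_comp, ← hr2 i, hρ2]
      rw [Preadditive.sub_comp, Category.assoc, this, Category.id_comp, sub_self]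
  have F2 : ∀ (N S : C) (P : ℕ → (N ⟶ S)) (z : ℕ → (X 0 ⟶ S)),
      (∀ k, ∃ c : X 0 ⟶ N, ∀ i ≤ k, c ≫ P i = z i) → ∀ cA : X 0 ⟶ N,
      (∀ k, α ≫ cA ≫ P k = α ≫ z k) → ∃ (δ : X 0 ⟶ X 0) (c : X 0 ⟶ N), BB δ ∧
      (∀ k, c ≫ P k = δ ≫ z k) ∧ α ≫ c = α ≫ cA := by
    intro N S P z hz cA hcA
    obtain ⟨ε, c, r, h1, h2, h3⟩ := Cdual X ι (Z := fun _ => S) P
      (fun k => z k - cA ≫ P k) (fun k => by
        obtain ⟨c, hc⟩ := hz k
        exact ⟨c - cA, fun i hi => by rw [Preadditive.sub_comp, hc i hi]⟩) γ hγE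
    have e1 : α ≫ (𝟙 _ - γ ≫ ε) = α := by
      rw [Preadditive.comp_sub, ← Category.assoc, hαγ, Limits.zero_comp, sub_zero,
        Category.comp_id]
    refine ⟨𝟙 _ - γ ≫ ε, γ ≫ c + (𝟙 _ - γ ≫ ε) ≫ cA, ⟨e1, r, h1, ?_⟩, fun k => ?_, ?_⟩
    · rw [sub_sub_cancel, h2]
    · have hzt : γ ≫ (z k - cA ≫ P k) = z k - cA ≫ P k := by
        rw [hγ, Preadditive.sub_comp, Category.id_comp, Category.assoc, Preadditive.comp_sub,
          Preadditive.comp_sub, hcA]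
        simp
      have h3k := h3 k
      obtain ⟨w, hw⟩ : ∃ w, w = z k - cA ≫ P k := ⟨_, rfl⟩
      rw [← hw] at hzt h3k
      have hzk : z k = w + cA ≫ P k := by rw [hw]; abel
      have e2 : (𝟙 _ - γ ≫ ε) ≫ w = γ ≫ c ≫ P k := by
        rw [← h3k, Preadditive.sub_comp, Category.id_comp, Preadditive.comp_sub, hzt,
          Category.assoc]
      rw [hzk, Preadditive.comp_add, e2, Preadditive.add_comp]
      simp only [Category.assoc]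
    · rw [Preadditive.comp_add, ← Category.assoc, hαγ, Limits.zero_comp, zero_add,
        ← Category.assoc, e1]
  choose p hp using fun l m => proj X π m l
  obtain ⟨en, hen⟩ : ∃ en : ∀ l, X 0 ⟶ X l, ∀ l, en l = α ≫ α' ≫ eα l := ⟨_, fun _ => rfl⟩
  have hen0 : en 0 = α := by rw [hen, ← hα, hα']
  have hen1 : ∀ l, en (l + 1) ≫ π l = en l := fun l => by
    rw [hen, hen, Category.assoc, Category.assoc, hα1]
  have henL : ∀ l m, Lift X π m l (en l) := fun l m =>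
    lift_of_family X π 0 (fun k _ => en k) (fun k _ => hen1 k) m l (Nat.zero_le l)
  obtain ⟨δ0, ⟨hB1, hB2⟩, hδ0⟩ := F1 (fun m => p 0 m)
    (fun m => (hp 0 m _ _).2 (by rw [← hen0]; exact henL 0 m))
    (fun m => K2 m _ (p 0 m) (fun G s hs => (hp 0 m G s).2 hs))
  obtain ⟨s, hs0, hs⟩ := seqFrom (T := fun l => {s : X 0 ⟶ X l // (∀ m, Lift X π m l s) ∧
      α ≫ s = en l}) 0 ⟨δ0, fun m => (hp 0 m _ _).1 (hδ0 m), by rw [hB1, hen0]⟩
    (fun l a a' => ∃ δ : X 0 ⟶ X 0, BB δ ∧ a'.1 ≫ π l = δ ≫ a.1)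
    (fun l s => by
      obtain ⟨s, hsL, hsα⟩ := s
      obtain ⟨S, i₁, i₂, p₁, p₂, h1, h2, h3, h4, h5⟩ := Good.bp (X l) (X (l + 1))
      obtain ⟨δ, c, hδ, hc, hcα⟩ := F2 (X (l + 1)) S (fun m => π l ≫ i₁ + p (l + 1) m ≫ i₂)
        (fun _ => s ≫ i₁) (fun m => by
          obtain ⟨s', hs1, hs2⟩ := hsL (m + 1)
          refine ⟨s', fun i hi => ?_⟩
          have := (hp (l + 1) i _ s').2 (hs2.mono' X π hi)
          rw [Preadditive.comp_add, ← Category.assoc, ← Category.assoc, hs1, this]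
          simp) (α' ≫ eα (l + 1)) (fun m => by
          have e1 : α ≫ α' ≫ eα (l + 1) = en (l + 1) := (hen _).symm
          rw [← Category.assoc, ← Category.assoc, Category.assoc α, e1, Preadditive.comp_add,
            ← Category.assoc, ← Category.assoc, hen1, (hp (l + 1) m _ _).2 (henL (l + 1) m),
            ← Category.assoc α, hsα]
          simp)
      refine ⟨⟨c, fun m => ?_, by rw [hcα, hen]⟩, δ, hδ, ?_⟩
      · rw [← hp (l + 1) m]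
        have := congrArg (· ≫ p₂) (hc m)
        simpa [Preadditive.add_comp, h2, h4] using this
      · have := congrArg (· ≫ p₁) (hc 0)
        simpa [Preadditive.add_comp, h1, h3] using this)
  choose δ hδB hδs using fun l => hs l (Nat.zero_le l)
  obtain ⟨dd, hd0, hds⟩ : ∃ dd : ℕ → (X 0 ⟶ X 0), dd 0 = δ0 ∧ ∀ l, dd (l + 1) = δ l :=
    ⟨fun n => Nat.rec (motive := fun _ => X 0 ⟶ X 0) δ0 (fun m _ => δ m) n, rfl, fun _ => rfl⟩
  have hddB : ∀ i, BB (dd i) := fun i => by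
    cases i with
    | zero => rw [hd0]; exact ⟨hB1, hB2⟩
    | succ i => rw [hds]; exact hδB i
  obtain ⟨ε, ⟨hε1, r, hr1, hr2⟩, hε2⟩ := F1 (fun i => 𝟙 _ - dd i)
    (fun i => by rw [Preadditive.comp_sub, (hddB i).1, Category.comp_id, sub_self])
    (fun i => (hddB i).2)
  have hε3 : ∀ i, ε ≫ dd i = ε := fun i => by
    have := hε2 i
    rw [Preadditive.comp_sub, sub_eq_zero, Category.comp_id] at this
    exact this.symm
  refine ⟨ε, fun l => ε ≫ (s l (Nat.zero_le l)).1, r, fun l => ?_, ?_, hr1, hr2, ?_⟩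
  · rw [Category.assoc, hδs, ← Category.assoc, ← hds, hε3]
  · simp only [hs0]
    rw [← hd0, hε3]
  · calc a ≫ ε = (a ≫ α) ≫ ε := by rw [haα]
      _ = a := by rw [Category.assoc, hε1, haα]

end systems

end Pool.Agent.helper2.WG
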