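import Mathlib
import Pool.Agent.helper2.WG.Abs

set_option autoImplicit false

open CategoryTheory

namespace Pool.Agent.helper2.WG

universe v u

section abstractreg

variable {C : Type u} [Category.{v} C] [Preadditive C]

theorem reg_left {X₁ X₂ S Y : C} (i₁ : X₁ ⟶ S) (i₂ : X₂ ⟶ S) (p₁ : S ⟶ X₁) (p₂ : S ⟶ X₂)
    (h5 : p₁ ≫ i₁ + p₂ ≫ i₂ = 𝟙 S) (h1 : ∀ f : X₁ ⟶ Y, ∃ g : Y ⟶ X₁, f ≫ g ≫ f = f)
    (h2 : ∀ f : X₂ ⟶ Y, ∃ g : Y ⟶ X₂, f ≫ g ≫ f = f) (f : S ⟶ Y) :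
    ∃ g : Y ⟶ S, f ≫ g ≫ f = f := by
  obtain ⟨g1, hg1⟩ := h1 (i₁ ≫ f)
  obtain ⟨g2, hg2⟩ := h2 (i₂ ≫ f ≫ (𝟙 Y - g1 ≫ i₁ ≫ f))
  obtain ⟨h, hh⟩ : ∃ h, h = i₂ ≫ f ≫ (𝟙 Y - g1 ≫ i₁ ≫ f) := ⟨_, rfl⟩
  rw [← hh] at hg2
  have a1 : (i₂ - i₂ ≫ f ≫ g1 ≫ i₁) ≫ f = h := by
    rw [hh]
    simp [Preadditive.sub_comp, Preadditive.comp_sub]
  have a2 : (i₁ ≫ f) ≫ (𝟙 Y - g1 ≫ i₁ ≫ f) = 0 := by
    rw [Preadditive.comp_sub, hg1, Category.comp_id, sub_self]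
  refine ⟨g1 ≫ i₁ + (𝟙 Y - g1 ≫ i₁ ≫ f) ≫ g2 ≫ (i₂ - i₂ ≫ f ≫ g1 ≫ i₁), ?_⟩
  have a3 : (g1 ≫ i₁ + (𝟙 Y - g1 ≫ i₁ ≫ f) ≫ g2 ≫ (i₂ - i₂ ≫ f ≫ g1 ≫ i₁)) ≫ f =
      g1 ≫ i₁ ≫ f + (𝟙 Y - g1 ≫ i₁ ≫ f) ≫ g2 ≫ h := by
    rw [Preadditive.add_comp, Category.assoc, Category.assoc, Category.assoc, a1]
  rw [a3]
  have b1 : (i₁ ≫ f) ≫ (g1 ≫ i₁ ≫ f + (𝟙 Y - g1 ≫ i₁ ≫ f) ≫ g2 ≫ h) = i₁ ≫ f := by
    rw [Preadditive.comp_add, hg1, ← Category.assoc (i₁ ≫ f), a2, Limits.zero_comp, add_zero]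
  have b2 : (i₂ ≫ f) ≫ (g1 ≫ i₁ ≫ f + (𝟙 Y - g1 ≫ i₁ ≫ f) ≫ g2 ≫ h) = i₂ ≫ f := by
    rw [Preadditive.comp_add, ← Category.assoc (i₂ ≫ f) (𝟙 Y - g1 ≫ i₁ ≫ f),
      Category.assoc i₂ f (𝟙 Y - g1 ≫ i₁ ≫ f), ← hh, hg2, hh, Preadditive.comp_sub,
      Preadditive.comp_sub]
    simp
  calc f ≫ (g1 ≫ i₁ ≫ f + (𝟙 Y - g1 ≫ i₁ ≫ f) ≫ g2 ≫ h)
      = (p₁ ≫ i₁ + p₂ ≫ i₂) ≫ f ≫ (g1 ≫ i₁ ≫ f + (𝟙 Y - g1 ≫ i₁ ≫ f) ≫ g2 ≫ h) := by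
        rw [h5, Category.id_comp]
    _ = p₁ ≫ (i₁ ≫ f) ≫ (g1 ≫ i₁ ≫ f + (𝟙 Y - g1 ≫ i₁ ≫ f) ≫ g2 ≫ h) +
        p₂ ≫ (i₂ ≫ f) ≫ (g1 ≫ i₁ ≫ f + (𝟙 Y - g1 ≫ i₁ ≫ f) ≫ g2 ≫ h) := by
        rw [Preadditive.add_comp]; simp only [Category.assoc]
    _ = (p₁ ≫ i₁ + p₂ ≫ i₂) ≫ f := by
        rw [b1, b2, Preadditive.add_comp]; simp only [Category.assoc]
    _ = f := by rw [h5, Category.id_comp]

theorem reg_right {X₁ X₂ S Y : C} (i₁ : X₁ ⟶ S) (i₂ : X₂ ⟶ S) (p₁ : S ⟶ X₁) (p₂ : S ⟶ X₂)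
    (h5 : p₁ ≫ i₁ + p₂ ≫ i₂ = 𝟙 S) (h1 : ∀ f : Y ⟶ X₁, ∃ g : X₁ ⟶ Y, f ≫ g ≫ f = f)
    (h2 : ∀ f : Y ⟶ X₂, ∃ g : X₂ ⟶ Y, f ≫ g ≫ f = f) (f : Y ⟶ S) :
    ∃ g : S ⟶ Y, f ≫ g ≫ f = f := by
  obtain ⟨g, hg⟩ := reg_left (C := Cᵒᵖ) p₁.op p₂.op i₁.op i₂.op
    (Quiver.Hom.unop_inj (by simpa using h5)) (Y := Opposite.op Y) (fun f => by
      obtain ⟨g, hg⟩ := h1 f.unop
      exact ⟨g.op, Quiver.Hom.unop_inj (by simpa using hg)⟩) (fun f => by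
      obtain ⟨g, hg⟩ := h2 f.unop
      exact ⟨g.op, Quiver.Hom.unop_inj (by simpa using hg)⟩) f.op
  exact ⟨g.unop, Quiver.Hom.op_inj (by simpa using hg)⟩

end abstractreg

structure Fr (B : Type u) where
  n : ℕ

variable {B : Type u} [Ring B]

instance : Category (Fr B) where
  Hom X Y := (Fin X.n → B) →ₗ[B] (Fin Y.n → B)
  id X := LinearMap.id
  comp f g := g ∘ₗ f

instance : Preadditive (Fr B) where
  homGroup X Y := inferInstanceAs (AddCommGroup ((Fin X.n → B) →ₗ[B] (Fin Y.n → B)))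
  add_comp _ Y Z _ _ g := LinearMap.ext fun _ =>
    (g : (Fin Y.n → B) →ₗ[B] (Fin Z.n → B)).map_add _ _
  comp_add _ _ _ _ _ _ := LinearMap.ext fun _ => rfl

def ap {X Y : Fr B} (f : X ⟶ Y) : (Fin X.n → B) →ₗ[B] (Fin Y.n → B) := f

def mk {n m : ℕ} (f : (Fin n → B) →ₗ[B] (Fin m → B)) : (⟨n⟩ : Fr B) ⟶ ⟨m⟩ := f

def mkh {X Y : Fr B} (f : (Fin X.n → B) →ₗ[B] (Fin Y.n → B)) : X ⟶ Y := f

theorem ap_ext {X Y : Fr B} {f g : X ⟶ Y} (h : ∀ v, ap f v = ap g v) : f = g :=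
  LinearMap.ext h

@[simp] theorem ap_mk {n m : ℕ} (f : (Fin n → B) →ₗ[B] (Fin m → B)) : ap (mk f) = f := rfl
@[simp] theorem ap_comp {X Y Z : Fr B} (f : X ⟶ Y) (g : Y ⟶ Z) (v : Fin X.n → B) :
    ap (f ≫ g) v = ap g (ap f v) := rfl
@[simp] theorem ap_id (X : Fr B) (v : Fin X.n → B) : ap (𝟙 X) v = v := rfl
@[simp] theorem ap_add {X Y : Fr B} (f g : X ⟶ Y) (v : Fin X.n → B) :
    ap (f + g) v = ap f v + ap g v := rfl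
@[simp] theorem ap_sub {X Y : Fr B} (f g : X ⟶ Y) (v : Fin X.n → B) :
    ap (f - g) v = ap f v - ap g v := rfl
@[simp] theorem ap_zero {X Y : Fr B} (v : Fin X.n → B) : ap (0 : X ⟶ Y) v = 0 := rfl

theorem frbp (X Y : Fr B) : ∃ (i₁ : X ⟶ ⟨X.n + Y.n⟩) (i₂ : Y ⟶ ⟨X.n + Y.n⟩)
    (p₁ : (⟨X.n + Y.n⟩ : Fr B) ⟶ X) (p₂ : (⟨X.n + Y.n⟩ : Fr B) ⟶ Y),
    i₁ ≫ p₁ = 𝟙 X ∧ i₁ ≫ p₂ = 0 ∧ i₂ ≫ p₁ = 0 ∧ i₂ ≫ p₂ = 𝟙 Y ∧ p₁ ≫ i₁ + p₂ ≫ i₂ = 𝟙 _ := by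
  refine ⟨mk (n := X.n) ⟨⟨fun v => Fin.append v 0, fun v w => ?_⟩, fun b v => ?_⟩,
    mk (n := Y.n) ⟨⟨fun v => Fin.append 0 v, fun v w => ?_⟩, fun b v => ?_⟩,
    mk (m := X.n) (LinearMap.funLeft B B (Fin.castAdd Y.n)),
    mk (m := Y.n) (LinearMap.funLeft B B (Fin.natAdd X.n)), ?_, ?_, ?_, ?_, ?_⟩
  · ext i
    refine Fin.addCases (fun i => ?_) (fun i => ?_) i <;> simp
  · ext i
    refine Fin.addCases (fun i => ?_) (fun i => ?_) i <;> simp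
  · ext i
    refine Fin.addCases (fun i => ?_) (fun i => ?_) i <;> simp
  · ext i
    refine Fin.addCases (fun i => ?_) (fun i => ?_) i <;> simp
  · refine ap_ext fun v => ?_
    ext i
    simp [LinearMap.funLeft_apply]
  · refine ap_ext fun v => ?_
    ext i
    simp [LinearMap.funLeft_apply]
  · refine ap_ext fun v => ?_
    ext i
    simp [LinearMap.funLeft_apply]
  · refine ap_ext fun v => ?_
    ext i
    simp [LinearMap.funLeft_apply]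
  · refine ap_ext fun v => funext fun i => ?_
    change (Fin.append (fun j => v (Fin.castAdd Y.n j)) 0 +
      Fin.append 0 (fun j => v (Fin.natAdd X.n j)) : Fin (X.n + Y.n) → B) i = v i
    refine Fin.addCases (fun i => ?_) (fun i => ?_) i <;> simp

theorem frreg (h : ∀ a : B, ∃ b, a * b * a = a) {X Y : Fr B} (f : X ⟶ Y) :
    ∃ g : Y ⟶ X, f ≫ g ≫ f = f := by
  have hz1 : ∀ {X Y : Fr B} (f : X ⟶ Y), X.n = 0 → ∃ g : Y ⟶ X, f ≫ g ≫ f = f := by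
    rintro ⟨n⟩ Y f rfl
    refine ⟨0, ap_ext fun v => ?_⟩
    have : v = 0 := Subsingleton.elim _ _
    rw [this, map_zero, map_zero]
  have hz2 : ∀ {X Y : Fr B} (f : X ⟶ Y), Y.n = 0 → ∃ g : Y ⟶ X, f ≫ g ≫ f = f := by
    rintro X ⟨n⟩ f rfl
    exact ⟨0, ap_ext fun v => Subsingleton.elim _ _⟩
  have h11 : ∀ f : (⟨1⟩ : Fr B) ⟶ ⟨1⟩, ∃ g : (⟨1⟩ : Fr B) ⟶ ⟨1⟩, f ≫ g ≫ f = f := by
    intro f
    obtain ⟨b, hb⟩ := h (ap f (fun _ => 1) 0)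
    have hf : ∀ v, ap f v = fun _ => v 0 * ap f (fun _ => 1) 0 := fun v => by
      have : v = v 0 • (fun _ => (1 : B)) := by
        ext i
        rw [Fin.fin_one_eq_zero i]
        simp
      conv_lhs => rw [this, map_smul]
      ext i
      rw [Fin.fin_one_eq_zero i]
      simp
    refine ⟨mk ⟨⟨fun v _ => v 0 * b, fun v w => ?_⟩, fun c v => ?_⟩, ap_ext fun v => ?_⟩
    · ext i; simp [add_mul]
    · ext i; simp [mul_assoc]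
    · rw [ap_comp, ap_comp, hf v, hf]
      ext i
      simp only [ap_mk, LinearMap.coe_mk, AddHom.coe_mk]
      rw [mul_assoc, mul_assoc, ← mul_assoc (ap f _ _), hb]
  have h1m : ∀ m (f : (⟨1⟩ : Fr B) ⟶ ⟨m⟩), ∃ g : (⟨m⟩ : Fr B) ⟶ ⟨1⟩, f ≫ g ≫ f = f := by
    intro m
    induction m with
    | zero => intro f; exact hz2 f rfl
    | succ m ih =>
      obtain ⟨i₁, i₂, p₁, p₂, -, -, -, -, h5⟩ := frbp (B := B) ⟨m⟩ ⟨1⟩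
      exact reg_right i₁ i₂ p₁ p₂ h5 ih h11
  have hnm : ∀ n m (f : (⟨n⟩ : Fr B) ⟶ ⟨m⟩), ∃ g : (⟨m⟩ : Fr B) ⟶ ⟨n⟩, f ≫ g ≫ f = f := by
    intro n m
    induction n with
    | zero => intro f; exact hz1 f rfl
    | succ n ih =>
      obtain ⟨i₁, i₂, p₁, p₂, -, -, -, -, h5⟩ := frbp (B := B) ⟨n⟩ ⟨1⟩
      exact reg_left i₁ i₂ p₁ p₂ h5 ih (h1m m)
  exact hnm X.n Y.n f

theorem frci (h : ∀ a : B, ∃ b, a * b * a = a)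
    (hci : ∀ (n : ℕ) (a b : ℕ → Matrix (Fin n) (Fin n) B), (∀ i j, a i * b j = 0) →
      ∃ t : Matrix (Fin n) (Fin n) B, (∀ i, a i * t = 0) ∧ ∀ j, t * b j = b j)
    (M : Fr B) (Y Z : ℕ → Fr B) (q : ∀ k, Y k ⟶ M) (p : ∀ j, M ⟶ Z j)
    (hqp : ∀ k j, q k ≫ p j = 0) : ∃ t : M ⟶ M, (∀ k, q k ≫ t = q k) ∧ ∀ j, t ≫ p j = 0 := by
  choose q' hq' using fun k => frreg h (q k)
  choose p' hp' using fun k => frreg h (p k)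
  obtain ⟨t, ht1, ht2⟩ := hci M.n (fun k => LinearMap.toMatrixRight' (ap (q' k ≫ q k)))
    (fun j => LinearMap.toMatrixRight' (ap (p j ≫ p' j))) (fun i j => by
      rw [← LinearMap.toMatrixRight'_comp]
      have : ap (p j ≫ p' j) ∘ₗ ap (q' i ≫ q i) = 0 := by
        have e : (q' i ≫ q i) ≫ p j ≫ p' j = 0 := by
          rw [Category.assoc, ← Category.assoc (q i), hqp]
          simp
        exact e
      rw [this, map_zero])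
  have e1 : ∀ k, (q' k ≫ q k) ≫ mkh (Matrix.toLinearMapRight' t) = 0 := fun k => by
    have := congrArg Matrix.toLinearMapRight' (ht1 k)
    rw [Matrix.toLinearMapRight'_mul, LinearEquiv.symm_apply_apply, map_zero] at this
    exact this
  have e2 : ∀ j, mkh (Matrix.toLinearMapRight' t) ≫ p j ≫ p' j = p j ≫ p' j := fun j => by
    have := congrArg Matrix.toLinearMapRight' (ht2 j)
    rw [Matrix.toLinearMapRight'_mul, LinearEquiv.symm_apply_apply] at this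
    exact this
  refine ⟨𝟙 M - mkh (Matrix.toLinearMapRight' t), fun k => ?_, fun j => ?_⟩
  · have e3 : q k ≫ mkh (Matrix.toLinearMapRight' t) = 0 := by
      calc q k ≫ mkh (Matrix.toLinearMapRight' t)
          = (q k ≫ q' k ≫ q k) ≫ mkh (Matrix.toLinearMapRight' t) := by rw [hq']
        _ = q k ≫ (q' k ≫ q k) ≫ mkh (Matrix.toLinearMapRight' t) := by
          simp only [Category.assoc]
        _ = 0 := by rw [e1, Limits.comp_zero]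
    rw [Preadditive.comp_sub, e3, Category.comp_id, sub_zero]
  · have e3 : mkh (Matrix.toLinearMapRight' t) ≫ p j = p j := by
      calc mkh (Matrix.toLinearMapRight' t) ≫ p j
          = (mkh (Matrix.toLinearMapRight' t) ≫ p j ≫ p' j) ≫ p j := by
            conv_lhs => rw [← hp' j]
            simp only [Category.assoc]
        _ = p j := by rw [e2, Category.assoc, hp']
    rw [Preadditive.sub_comp, e3, Category.id_comp, sub_self]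

theorem frgood (h : ∀ a : B, ∃ b, a * b * a = a)
    (hci : ∀ (n : ℕ) (a b : ℕ → Matrix (Fin n) (Fin n) B), (∀ i j, a i * b j = 0) →
      ∃ t : Matrix (Fin n) (Fin n) B, (∀ i, a i * t = 0) ∧ ∀ j, t * b j = b j) : Good (Fr B) where
  reg f := frreg h f
  bp X Y := ⟨_, frbp X Y⟩
  ci M Y Z q p hqp := frci h hci M Y Z q p hqp

end Pool.Agent.helper2.WG
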