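import Mathlib
import Pool.Agent.helper2.WG.Cat
import Pool.Agent.helper2.WG.Assembly

set_option autoImplicit false

open CategoryTheory PowerSeries

namespace Pool.Agent.helper2.WG

universe u

section windows

variable {B : Type u} [Ring B]

noncomputable def tr (L : ℕ) : B⟦X⟧ →ₗ[B] (Fin L → B) := LinearMap.pi fun i => coeff (i : ℕ)

@[simp] theorem tr_apply (L : ℕ) (v : B⟦X⟧) (i : Fin L) : tr L v i = coeff (i : ℕ) v := rfl

theorem tr_eq_zero {L : ℕ} {v : B⟦X⟧} : tr L v = 0 ↔ (X : B⟦X⟧) ^ L ∣ v := by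
  rw [X_pow_dvd_iff]
  constructor
  · intro h m hm
    have := congrFun h ⟨m, hm⟩
    simpa using this
  · intro h
    ext i
    simpa using h i i.2

theorem tr_eq {L : ℕ} {v w : B⟦X⟧} : tr L v = tr L w ↔ (X : B⟦X⟧) ^ L ∣ v - w := by
  rw [← sub_eq_zero, ← map_sub, tr_eq_zero]

noncomputable def pd (L : ℕ) : (Fin L → B) →ₗ[B] B⟦X⟧ where
  toFun a := PowerSeries.mk fun n => if h : n < L then a ⟨n, h⟩ else 0
  map_add' a b := by
    ext n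
    simp only [coeff_mk, map_add]
    split_ifs <;> simp
  map_smul' c a := by
    ext n
    simp only [coeff_mk, map_smul, RingHom.id_apply]
    split_ifs <;> simp

@[simp] theorem tr_pd (L : ℕ) (a : Fin L → B) : tr L (pd L a) = a := by
  ext i
  simp [pd]

noncomputable def mr (f : B⟦X⟧) : B⟦X⟧ →ₗ[B] B⟦X⟧ where
  toFun v := v * f
  map_add' _ _ := add_mul _ _ _
  map_smul' c a := by
    simp only [smul_eq_C_mul, RingHom.id_apply, mul_assoc]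

@[simp] theorem mr_apply (f v : B⟦X⟧) : mr f v = v * f := rfl

noncomputable def mx : B⟦X⟧ →ₗ[B] B⟦X⟧ where
  toFun v := X * v
  map_add' a b := mul_add _ _ _
  map_smul' c a := by
    simp only [smul_eq_C_mul, RingHom.id_apply, ← mul_assoc, (commute_X (C c)).eq]

@[simp] theorem mx_apply (v : B⟦X⟧) : mx v = X * v := rfl

noncomputable def dr (k : ℕ) : B⟦X⟧ →ₗ[B] B⟦X⟧ where
  toFun v := PowerSeries.mk fun n => coeff (n + k) v
  map_add' a b := by ext n; simp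
  map_smul' c a := by ext n; simp

theorem dr_zero (v : B⟦X⟧) : dr 0 v = v := by
  ext n; simp [dr]

theorem dr_succ (k : ℕ) (v : B⟦X⟧) : dr (k + 1) (X * v) = dr k v := by
  ext n
  simp only [dr, LinearMap.coe_mk, AddHom.coe_mk, coeff_mk]
  rw [← add_assoc, coeff_succ_X_mul]

noncomputable def tw (L M : ℕ) (φ : B⟦X⟧ →ₗ[B] B⟦X⟧) : (Fin L → B) →ₗ[B] (Fin M → B) :=
  tr M ∘ₗ φ ∘ₗ pd L

theorem tw_tr {L M : ℕ} {φ : B⟦X⟧ →ₗ[B] B⟦X⟧}
    (h : ∀ v, (X : B⟦X⟧) ^ L ∣ v → (X : B⟦X⟧) ^ M ∣ φ v) (v : B⟦X⟧) :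
    tw L M φ (tr L v) = tr M (φ v) := by
  rw [tw, LinearMap.comp_apply, LinearMap.comp_apply, tr_eq, ← map_sub]
  apply h
  rw [← tr_eq, tr_pd]

theorem tw_mr (L : ℕ) (f v : B⟦X⟧) : tw L L (mr f) (tr L v) = tr L (v * f) :=
  tw_tr (fun _ hv => X_pow_dvd_mul_right f hv) v

theorem tw_red (L : ℕ) (v : B⟦X⟧) : tw (L + 1) L LinearMap.id (tr (L + 1) v) = tr L v :=
  tw_tr (fun _ hv => (pow_dvd_pow _ (Nat.le_succ L)).trans hv) v

theorem tw_mx (L : ℕ) (v : B⟦X⟧) : tw L (L + 1) mx (tr L v) = tr (L + 1) (X * v) :=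
  tw_tr (fun v hv => by
    rw [mx_apply, pow_succ']
    exact mul_dvd_mul_left _ hv) v

theorem tr_surj (L : ℕ) (w : Fin L → B) : ∃ v : B⟦X⟧, tr L v = w := ⟨pd L w, tr_pd L w⟩

theorem X_mul_eq_zero {v : B⟦X⟧} (h : X * v = 0) : v = 0 := by
  apply X_mul_cancel
  rw [h, mul_zero]

end windows

section chain

variable {B : Type u} [Ring B] (f g : B⟦X⟧) (i : ℕ) (κ γ : ∀ L : ℕ, (⟨L⟩ : Fr B) ⟶ ⟨L⟩)

abbrev XX (B : Type u) (i : ℕ) (l : ℕ) : Fr B := ⟨i + 1 + l⟩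

noncomputable def πc (l : ℕ) : XX B i (l + 1) ⟶ XX B i l :=
  κ (i + 1 + (l + 1)) ≫ mk (tw (i + 1 + l + 1) (i + 1 + l) LinearMap.id)

noncomputable def ιc (l : ℕ) : XX B i l ⟶ XX B i (l + 1) :=
  γ (i + 1 + l) ≫ mk (tw (i + 1 + l) (i + 1 + l + 1) mx)

variable {f g i κ γ}

theorem πc_tr (hκ2 : ∀ L w, tw L L (mr f) w = 0 → ap (κ L) w = w) {l : ℕ} {v : B⟦X⟧}
    (hv : v * f = 0) : ap (πc i κ l) (tr (i + 1 + (l + 1)) v) = tr (i + 1 + l) v := by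
  rw [πc, ap_comp, hκ2 _ _ (by rw [tw_mr, hv, map_zero])]
  exact tw_red _ v

theorem ιc_tr {l : ℕ} {v w : B⟦X⟧} (h : ap (γ (i + 1 + l)) (tr (i + 1 + l) v) = tr (i + 1 + l) w) :
    ap (ιc i γ l) (tr (i + 1 + l) v) = tr (i + 1 + (l + 1)) (X * w) := by
  rw [ιc, ap_comp, h]
  exact tw_mx _ w

theorem K1aux (hgf : g * f = 0)
    (hγ2 : ∀ L (v : B⟦X⟧), ∃ u : B⟦X⟧, ap (γ L) (tr L v) = tr L (v - u * g)) (m : ℕ) :
    ∀ l, ∃ (G : Fr B) (s : XX B i l ⟶ G),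
      Lift (C := (Fr B)ᵒᵖ) (fun l => Opposite.op (XX B i l)) (fun l => (ιc i γ l).op) m l s.op ∧
      ∀ v : B⟦X⟧, ap s (tr (i + 1 + l) v) = 0 →
        ∃ E : B⟦X⟧, E * f = 0 ∧ tr (i + 1 + l) E = tr (i + 1 + l) v := by
  induction m with
  | zero =>
    intro l
    exact ⟨XX B i l, 𝟙 _, trivial, fun v hv => ⟨0, zero_mul _, by
      rw [map_zero]; exact hv.symm⟩⟩
  | succ m ih =>
    intro l
    obtain ⟨G, s', h1, h2⟩ := ih (l + 1)
    refine ⟨G, ιc i γ l ≫ s', ⟨s'.op, rfl, h1⟩, fun v hv => ?_⟩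
    obtain ⟨u, hu⟩ := hγ2 (i + 1 + l) v
    rw [ap_comp, ιc_tr hu] at hv
    obtain ⟨E, hE1, hE2⟩ := h2 _ hv
    have hE3 : (X : B⟦X⟧) ∣ E := by
      have : coeff 0 E = 0 := by
        have := congrFun hE2 ⟨0, by omega⟩
        simpa using this
      rw [X_dvd_iff, ← coeff_zero_eq_constantCoeff_apply, this]
    obtain ⟨E', rfl⟩ := hE3
    refine ⟨E' + u * g, ?_, ?_⟩
    · rw [add_mul, mul_assoc u, hgf, mul_zero, add_zero]
      exact X_mul_eq_zero (by rw [← mul_assoc, hE1])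
    · rw [tr_eq] at hE2 ⊢
      obtain ⟨c, hc⟩ := hE2
      refine ⟨c, X_mul_cancel ?_⟩
      have e1 : X * (E' + u * g - v) = X * E' - X * (v - u * g) := by
        simp only [mul_sub, mul_add]
        abel
      rw [e1, hc, ← mul_assoc, ← pow_succ']
      rfl

theorem K1 (hgf : g * f = 0) (hκ2 : ∀ L w, tw L L (mr f) w = 0 → ap (κ L) w = w)
    (hγ2 : ∀ L (v : B⟦X⟧), ∃ u : B⟦X⟧, ap (γ L) (tr L v) = tr L (v - u * g)) (m : ℕ)
    (V : Fr B) (v : V ⟶ XX B i 0)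
    (hv : ∀ (G : Fr B) (s : XX B i 0 ⟶ G), Ext (XX B i) (ιc i γ) m s → v ≫ s = 0) :
    ∃ y : ∀ l, V ⟶ XX B i l, (∀ l, y (l + 1) ≫ πc i κ l = y l) ∧ y 0 = v := by
  obtain ⟨G, s, h1, h2⟩ := K1aux (i := i) hgf hγ2 m 0
  have h3 : ∀ w : Fin V.n → B, ∃ E : B⟦X⟧, E * f = 0 ∧ tr (i + 1) E = ap v w := by
    intro w
    obtain ⟨z, hz⟩ := tr_surj (i + 1) (ap v w)
    obtain ⟨E, hE1, hE2⟩ := h2 z (by
      change ap s (tr (i + 1) z) = 0
      rw [hz, ← ap_comp, hv G s h1]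
      rfl)
    exact ⟨E, hE1, by rw [← hz]; exact hE2⟩
  choose E hE1 hE2 using fun c : Fin V.n => h3 (Pi.single c 1)
  have hL : ∀ w, Fintype.linearCombination B E w * f = 0 := fun w => by
    rw [Fintype.linearCombination_apply, Finset.sum_mul]
    refine Finset.sum_eq_zero fun c _ => ?_
    rw [smul_eq_C_mul, mul_assoc, hE1, mul_zero]
  refine ⟨fun l => mkh (tr (i + 1 + l) ∘ₗ Fintype.linearCombination B E), fun l => ?_, ?_⟩
  · exact ap_ext fun w => πc_tr hκ2 (hL w)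
  · have : (tr (i + 1) ∘ₗ Fintype.linearCombination B E) = ap v := by
      refine LinearMap.pi_ext' fun c => LinearMap.ext_ring ?_
      simp only [LinearMap.comp_apply, LinearMap.single_apply]
      rw [Fintype.linearCombination_apply_single, one_smul, hE2]
    exact this

theorem K2aux (hgf : g * f = 0)
    (hκ3 : ∀ L, ∃ μ : (Fin L → B) →ₗ[B] (Fin L → B), ∀ w : Fin L → B,
      ap (κ L) w + μ (tw L L (mr f) w) = w) (V : Fr B) (m : ℕ) :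
    ∀ l, ∃ (G : Fr B) (s : G ⟶ XX B i l), Lift (XX B i) (πc i κ) m l s ∧
      ∀ v : XX B i l ⟶ V, s ≫ v = 0 →
        ∃ Y : ℕ → (B⟦X⟧ →ₗ[B] (Fin V.n → B)), (∀ k z, Y (k + 1) (X * z) = Y k z) ∧
          (∀ k z, Y k (z * g) = 0) ∧ ∀ z, Y 0 z = ap v (tr (i + 1 + l) z) := by
  induction m with
  | zero =>
    intro l
    refine ⟨XX B i l, 𝟙 _, trivial, fun v hv => ⟨0, fun _ _ => rfl, fun _ _ => rfl, fun z => ?_⟩⟩
    rw [Category.id_comp] at hv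
    rw [hv]
    rfl
  | succ m ih =>
    intro l
    obtain ⟨G, s', h1, h2⟩ := ih (l + 1)
    refine ⟨G, s' ≫ πc i κ l, ⟨s', rfl, h1⟩, fun v hv => ?_⟩
    obtain ⟨Y, hY1, hY2, hY3⟩ := h2 (πc i κ l ≫ v) (by rw [← Category.assoc, hv])
    obtain ⟨μ, hμ⟩ := hκ3 (i + 1 + l + 1)
    obtain ⟨ν, hν⟩ : ∃ ν : (Fin (i + 1 + l + 1) → B) →ₗ[B] (Fin V.n → B),
        ν = ap v ∘ₗ tw (i + 1 + l + 1) (i + 1 + l) LinearMap.id ∘ₗ μ := ⟨_, rfl⟩
    refine ⟨fun k => Y k + ν ∘ₗ tr (i + 1 + l + 1) ∘ₗ dr k ∘ₗ mr f, fun k z => ?_,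
      fun k z => ?_, fun z => ?_⟩
    · simp only [LinearMap.add_apply, LinearMap.comp_apply, mr_apply, hY1]
      rw [mul_assoc, dr_succ]
    · simp only [LinearMap.add_apply, LinearMap.comp_apply, mr_apply, hY2]
      rw [mul_assoc, hgf]
      simp
    · simp only [LinearMap.add_apply, LinearMap.comp_apply, mr_apply, hY3, dr_zero]
      have h3 := hμ (tr (i + 1 + l + 1) z)
      rw [tw_mr] at h3
      have h4 : ap v (tw (i + 1 + l + 1) (i + 1 + l) LinearMap.id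
          (ap (κ (i + 1 + l + 1)) (tr (i + 1 + l + 1) z) + μ (tr (i + 1 + l + 1) (z * f)))) =
          ap v (tr (i + 1 + l) z) := by
        rw [h3, tw_red]
      rw [map_add, map_add] at h4
      rw [hν]
      exact h4

theorem Y_congr {V : Fr B} {L : ℕ} {v : (Fin L → B) →ₗ[B] (Fin V.n → B)}
    {Y : ℕ → (B⟦X⟧ →ₗ[B] (Fin V.n → B))} (h1 : ∀ k z, Y (k + 1) (X * z) = Y k z)
    (h3 : ∀ z, Y 0 z = v (tr L z)) (k : ℕ) {z w : B⟦X⟧} (h : tr (L + k) z = tr (L + k) w) :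
    Y k z = Y k w := by
  rw [tr_eq] at h
  obtain ⟨c, hc⟩ := h
  rw [← sub_eq_zero, ← map_sub, hc]
  clear hc
  induction k with
  | zero => rw [h3, add_zero, tr_eq_zero.2 (Dvd.intro _ rfl), map_zero]
  | succ k ih =>
    rw [← add_assoc, pow_succ', mul_assoc, h1]
    exact ih

theorem K2 (hgf : g * f = 0)
    (hκ3 : ∀ L, ∃ μ : (Fin L → B) →ₗ[B] (Fin L → B), ∀ w : Fin L → B,
      ap (κ L) w + μ (tw L L (mr f) w) = w)
    (hγ2 : ∀ L (v : B⟦X⟧), ∃ u : B⟦X⟧, ap (γ L) (tr L v) = tr L (v - u * g)) (m : ℕ)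
    (V : Fr B) (v : XX B i 0 ⟶ V)
    (hv : ∀ (G : Fr B) (s : G ⟶ XX B i 0), Lift (XX B i) (πc i κ) m 0 s → s ≫ v = 0) :
    ∃ y : ∀ l, XX B i l ⟶ V, (∀ l, ιc i γ l ≫ y (l + 1) = y l) ∧ y 0 = v := by
  obtain ⟨G, s, h1, h2⟩ := K2aux (i := i) hgf hκ3 V m 0
  obtain ⟨Y, hY1, hY2, hY3⟩ := h2 v (hv G s h1)
  refine ⟨fun l => mkh (Y l ∘ₗ pd (i + 1 + l)), fun l => ap_ext fun w => ?_, ap_ext fun w => ?_⟩
  · obtain ⟨z, rfl⟩ := tr_surj (i + 1 + l) w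
    obtain ⟨u, hu⟩ := hγ2 (i + 1 + l) z
    rw [ap_comp, ιc_tr hu]
    change Y (l + 1) (pd (i + 1 + (l + 1)) (tr (i + 1 + (l + 1)) (X * (z - u * g)))) =
      Y l (pd (i + 1 + l) (tr (i + 1 + l) z))
    rw [Y_congr hY1 hY3 (l + 1) (tr_pd (i + 1 + (l + 1)) _), hY1, map_sub, hY2, sub_zero]
    exact (Y_congr hY1 hY3 l (tr_pd (i + 1 + l) _)).symm
  · change Y 0 (pd (i + 1 + 0) w) = ap v w
    rw [hY3]
    exact congrArg _ (tr_pd (i + 1 + 0) w)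

end chain

section rho

variable {B : Type u} [Ring B]

theorem exists_rho (h : ∀ a : B, ∃ b, a * b * a = a)
    (hci : ∀ (n : ℕ) (a b : ℕ → Matrix (Fin n) (Fin n) B), (∀ i j, a i * b j = 0) →
      ∃ t : Matrix (Fin n) (Fin n) B, (∀ i, a i * t = 0) ∧ ∀ j, t * b j = b j)
    (f g : B⟦X⟧) (hgf : g * f = 0) (i : ℕ) :
    ∃ ρ : ℕ → (B⟦X⟧ →ₗ[B] (Fin (i + 1) → B)),
      (∀ l v, (X : B⟦X⟧) ^ (i + 1 + l) ∣ v → ρ l v = 0) ∧
      (∀ l v, ρ (l + 1) (X * v) = ρ l v) ∧ (∀ l v, ρ l (v * g) = 0) ∧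
      ∀ v, ρ 0 v = 0 → ∃ k : B⟦X⟧, k * f = 0 ∧ (X : B⟦X⟧) ^ (i + 1) ∣ k - v := by
  have : Good (Fr B) := frgood h hci
  choose F' hF' using fun L => frreg h (mk (tw L L (mr f)))
  choose G' hG' using fun L => frreg h (mk (tw L L (mr g)))
  have hF'' : ∀ L w, tw L L (mr f) (ap (F' L) (tw L L (mr f) w)) = tw L L (mr f) w := fun L w =>
    congrFun (congrArg (fun φ => (ap φ : (Fin L → B) → (Fin L → B))) (hF' L)) w
  have hG'' : ∀ L w, tw L L (mr g) (ap (G' L) (tw L L (mr g) w)) = tw L L (mr g) w := fun L w =>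
    congrFun (congrArg (fun φ => (ap φ : (Fin L → B) → (Fin L → B))) (hG' L)) w
  obtain ⟨κ, hκ⟩ : ∃ κ : ∀ L : ℕ, (⟨L⟩ : Fr B) ⟶ ⟨L⟩, ∀ L w, ap (κ L) w =
      w - ap (F' L) (tw L L (mr f) w) :=
    ⟨fun L => 𝟙 _ - mk (tw L L (mr f)) ≫ F' L, fun _ _ => rfl⟩
  obtain ⟨γ, hγ⟩ : ∃ γ : ∀ L : ℕ, (⟨L⟩ : Fr B) ⟶ ⟨L⟩, ∀ L w, ap (γ L) w =
      w - tw L L (mr g) (ap (G' L) w) :=
    ⟨fun L => 𝟙 _ - G' L ≫ mk (tw L L (mr g)), fun _ _ => rfl⟩
  have hκ1 : ∀ L w, tw L L (mr f) (ap (κ L) w) = 0 := fun L w => by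
    rw [hκ, map_sub, hF'', sub_self]
  have hκ2 : ∀ L w, tw L L (mr f) w = 0 → ap (κ L) w = w := fun L w hw => by
    rw [hκ, hw, map_zero, sub_zero]
  have hκ3 : ∀ L, ∃ μ : (Fin L → B) →ₗ[B] (Fin L → B), ∀ w : Fin L → B,
      ap (κ L) w + μ (tw L L (mr f) w) = w := fun L => ⟨ap (F' L), fun w => by
    rw [hκ, sub_add_cancel]⟩
  have hγ1 : ∀ L v, ap (γ L) (tr L (v * g)) = 0 := fun L v => by
    rw [hγ, ← tw_mr, hG'', sub_self]
  have hγ2 : ∀ L (v : B⟦X⟧), ∃ u : B⟦X⟧, ap (γ L) (tr L v) = tr L (v - u * g) := fun L v => by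
    obtain ⟨u, hu⟩ := tr_surj L (ap (G' L) (tr L v))
    refine ⟨u, ?_⟩
    rw [hγ, ← hu, tw_mr, map_sub]
  obtain ⟨δ, e, r, he1, he2, hr1, hr2, -⟩ := ZC (XX B i) (πc i κ) (ιc i γ)
    (fun m V v hv => K1 hgf hκ2 hγ2 m V v hv) (fun m V v hv => K2 hgf hκ3 hγ2 m V v hv)
    (A := XX B i 0) 0 (fun _ => 0) (fun l => by simp) rfl
  have hr1' : ∀ l w, ap (r (l + 1)) (ap (ιc i γ l) w) = ap (r l) w := fun l w => by
    rw [← ap_comp, hr1]
  have P3 : ∀ l v, ap (r l) (tr (i + 1 + l) (v * g)) = 0 := fun l v => by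
    rw [← hr1', ιc, ap_comp, hγ1, map_zero, map_zero]
  refine ⟨fun l => ap (r l) ∘ₗ tr (i + 1 + l), fun l v hv => ?_, fun l v => ?_, P3,
    fun v hv => ?_⟩
  · rw [LinearMap.comp_apply, tr_eq_zero.2 hv, map_zero]
  · obtain ⟨u, hu⟩ := hγ2 (i + 1 + l) v
    have e1 := hr1' l (tr (i + 1 + l) v)
    rw [ιc_tr hu] at e1
    have e2 : (X : B⟦X⟧) * (v - u * g) = X * v - (X * u) * g := by rw [mul_sub, mul_assoc]
    rw [e2, map_sub, map_sub, P3, sub_zero] at e1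
    exact e1
  · have h0 : ap δ (tr (i + 1) v) = tr (i + 1) v := by
      have : ap (r 0) (tr (i + 1 + 0) v) = 0 := hv
      rw [hr2] at this
      have h1 : tr (i + 1 + 0) v - ap δ (tr (i + 1 + 0) v) = 0 := this
      exact (sub_eq_zero.1 h1).symm
    obtain ⟨E, hE⟩ : ∃ E : ∀ l, Fin (i + 1 + l) → B, ∀ l, E l = ap (e l) (tr (i + 1) v) :=
      ⟨fun l => ap (e l) (tr (i + 1) v), fun _ => rfl⟩
    have hE0 : E 0 = tr (i + 1) v := by
      rw [hE, he2]; exact h0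
    have hE1 : ∀ l, ap (πc i κ l) (E (l + 1)) = E l := fun l => by
      rw [hE, hE, ← he1 l]; rfl
    have hE2 : ∀ l, tw _ _ (mr f) (E l) = 0 := fun l => by
      rw [← hE1]
      obtain ⟨z, hz⟩ := tr_surj (i + 1 + (l + 1)) (ap (κ (i + 1 + (l + 1))) (E (l + 1)))
      have h5 : ap (πc i κ l) (E (l + 1)) = tr (i + 1 + l) z := by
        rw [πc, ap_comp, ← hz]
        exact tw_red _ z
      have h6 := hκ1 (i + 1 + (l + 1)) (E (l + 1))
      rw [← hz, tw_mr, tr_eq_zero] at h6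
      rw [h5, tw_mr, tr_eq_zero]
      exact (pow_dvd_pow _ (by omega)).trans h6
    obtain ⟨Z, hZ⟩ : ∃ Z : ℕ → B⟦X⟧, ∀ l, tr (i + 1 + l) (Z l) = E l :=
      ⟨fun l => pd _ (E l), fun l => tr_pd _ _⟩
    have hZs : ∀ l, (X : B⟦X⟧) ^ (i + 1 + l) ∣ Z (l + 1) - Z l := fun l => by
      rw [← tr_eq, hZ l, ← hE1, πc, ap_comp, hκ2 _ _ (hE2 (l + 1)), ← hZ (l + 1)]
      exact (tw_red _ (Z (l + 1))).symm
    have hZf : ∀ l, (X : B⟦X⟧) ^ (i + 1 + l) ∣ Z l * f := fun l => by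
      rw [← tr_eq_zero, ← tw_mr, hZ, hE2]
    have hZl : ∀ l m, l ≤ m → (X : B⟦X⟧) ^ (i + 1 + l) ∣ Z m - Z l := by
      intro l m hm
      induction m, hm using Nat.le_induction with
      | base => rw [sub_self]; exact dvd_zero _
      | succ m hm ih =>
        have : Z (m + 1) - Z l = (Z (m + 1) - Z m) + (Z m - Z l) := by abel
        rw [this]
        exact dvd_add ((pow_dvd_pow _ (by omega)).trans (hZs m)) ih
    obtain ⟨k, hk⟩ : ∃ k : B⟦X⟧, ∀ l, (X : B⟦X⟧) ^ (i + 1 + l) ∣ k - Z l := by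
      refine ⟨PowerSeries.mk fun n => coeff n (Z n), fun l => X_pow_dvd_iff.2 fun m hm => ?_⟩
      rw [map_sub, coeff_mk, sub_eq_zero]
      rcases le_total m l with h7 | h7
      · have := X_pow_dvd_iff.1 (hZl m l h7) m (by omega)
        rw [map_sub, sub_eq_zero] at this
        exact this.symm
      · have := X_pow_dvd_iff.1 (hZl l m h7) m hm
        rwa [map_sub, sub_eq_zero] at this
    refine ⟨k, eq_zero_of_dvd fun n => ?_, ?_⟩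
    · have h8 : k * f = (k - Z n) * f + Z n * f := by rw [sub_mul, sub_add_cancel]
      rw [h8]
      exact (pow_dvd_pow _ (by omega)).trans (dvd_add (X_pow_dvd_mul_right _ (hk n)) (hZf n))
    · have h9 : (X : B⟦X⟧) ^ (i + 1) ∣ Z 0 - v := by
        rw [← tr_eq]
        exact (hZ 0).trans hE0
      have h10 : k - v = (k - Z 0) + (Z 0 - v) := by abel
      rw [h10]
      exact dvd_add (hk 0) h9

end rho

end Pool.Agent.helper2.WG
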