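import Mathlib
import Pool.Agent.helper2.WG.Chains

set_option autoImplicit false

open CategoryTheory PowerSeries

namespace Pool.Agent.helper2.WG

universe u

variable {B : Type u} [Ring B]

theorem commonKer (h : ∀ a : B, ∃ b, a * b * a = a) {L : ℕ} {α : Type} [DecidableEq α]
    (d : α → ℕ) (φ : ∀ s, (Fin L → B) →ₗ[B] (Fin (d s) → B)) (S : Finset α) :
    ∃ κ : (Fin L → B) →ₗ[B] (Fin L → B), (∀ w, ∀ s ∈ S, φ s (κ w) = 0) ∧
      ∀ w, (∀ s ∈ S, φ s w = 0) → κ w = w := by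
  induction S using Finset.induction_on with
  | empty => exact ⟨LinearMap.id, by simp, fun _ _ => rfl⟩
  | insert s S hs ih =>
    obtain ⟨κ, h1, h2⟩ := ih
    obtain ⟨ψ, hψ⟩ := frreg h (mk (φ s ∘ₗ κ))
    have hψ' : ∀ w, φ s (κ (ap ψ (φ s (κ w)))) = φ s (κ w) := fun w =>
      congrFun (congrArg (fun φ' => (ap φ' : (Fin L → B) → (Fin (d s) → B))) hψ) w
    refine ⟨κ ∘ₗ (LinearMap.id - ap ψ ∘ₗ φ s ∘ₗ κ), fun w a ha => ?_, fun w hw => ?_⟩
    · rw [LinearMap.comp_apply, LinearMap.sub_apply, LinearMap.id_apply, LinearMap.comp_apply,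
        LinearMap.comp_apply]
      rcases Finset.mem_insert.1 ha with rfl | ha
      · have := hψ' w
        rw [map_sub, map_sub]
        exact sub_eq_zero.2 this.symm
      · exact h1 _ a ha
    · have h3 := h2 w (fun a ha => hw a (Finset.mem_insert_of_mem ha))
      rw [LinearMap.comp_apply, LinearMap.sub_apply, LinearMap.id_apply, LinearMap.comp_apply,
        LinearMap.comp_apply, h3, hw s (Finset.mem_insert_self _ _), map_zero, sub_zero, h3]

theorem constTerm (h : ∀ a : B, ∃ b, a * b * a = a) {L : ℕ}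
    (κ : (Fin (L + 1) → B) →ₗ[B] (Fin (L + 1) → B)) :
    ∃ e : B, e * e = e ∧ (∀ w, κ w 0 * e = κ w 0) ∧ ∃ w, κ w 0 = e := by
  obtain ⟨c, hc⟩ : ∃ c : (Fin (L + 1) → B) →ₗ[B] (Fin 1 → B), ∀ w j, c w j = κ w 0 :=
    ⟨LinearMap.pi fun _ => LinearMap.proj 0 ∘ₗ κ, fun _ _ => rfl⟩
  obtain ⟨ψ, hψ⟩ := frreg h (mk c)
  have hψ' : ∀ w, c (ap ψ (c w)) = c w := fun w =>
    congrFun (congrArg (fun φ' => (ap φ' : (Fin (L + 1) → B) → (Fin 1 → B))) hψ) w
  obtain ⟨w0, hw0⟩ : ∃ w0, w0 = ap ψ (fun _ => 1) := ⟨_, rfl⟩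
  have h1 : ∀ w, κ w 0 * κ w0 0 = κ w 0 := fun w => by
    have h2 : c w = κ w 0 • (fun _ => (1 : B)) := by
      ext j
      simp [hc]
    have h3 := hψ' w
    conv_lhs at h3 => rw [h2, map_smul, map_smul]
    have h4 := congrFun h3 0
    rw [Pi.smul_apply, hc, hc, smul_eq_mul] at h4
    rw [hw0]
    exact h4
  exact ⟨κ w0 0, h1 w0, h1, w0, rfl⟩

theorem thmS (h : ∀ a : B, ∃ b, a * b * a = a)
    (hci : ∀ (n : ℕ) (a b : ℕ → Matrix (Fin n) (Fin n) B), (∀ i j, a i * b j = 0) →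
      ∃ t : Matrix (Fin n) (Fin n) B, (∀ i, a i * t = 0) ∧ ∀ j, t * b j = b j)
    (f g : B⟦X⟧) (hgf : g * f = 0) : ∃ t : B⟦X⟧, t * f = 0 ∧ g * t = g := by
  choose ρ P1 P2 P3 P4 using exists_rho h hci f g hgf
  obtain ⟨D, hD⟩ : ∃ D : ℕ → Submodule B B⟦X⟧, ∀ i v, v ∈ D i ↔
      ∀ j l, j + l ≤ i → ρ j l v = 0 := by
    refine ⟨fun i => ⨅ (j : ℕ) (l : ℕ) (_ : j + l ≤ i), LinearMap.ker (ρ j l), fun i v => ?_⟩
    simp [Submodule.mem_iInf]
  refine assembly f g D (fun i v hv => ?_) (fun i => ?_) (fun i v hv => ?_) (fun i v hv => ?_)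
    (fun i v hv => ?_) (fun i => ?_)
  · rw [hD] at hv ⊢
    exact fun j l hjl => hv j l (by omega)
  · rw [hD]
    intro j l _
    have := P3 j l 1
    rwa [one_mul] at this
  · rw [hD]
    intro j l hjl
    exact P1 j l v ((pow_dvd_pow _ (by omega)).trans hv)
  · exact P4 i v ((hD i v).1 hv i 0 (by omega))
  · rw [hD] at hv ⊢
    intro j l hjl
    rw [← P2]
    exact hv j (l + 1) (by omega)
  · obtain ⟨κ, hκ1, hκ2⟩ := commonKer h (L := i + 1) (α := ℕ × ℕ) (fun s => s.1 + 1)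
      (fun s => ρ s.1 s.2 ∘ₗ pd (i + 1))
      ((Finset.range (i + 1) ×ˢ Finset.range (i + 1)).filter fun s => s.1 + s.2 ≤ i)
    have hρ : ∀ j l, j + l ≤ i → ∀ v, ρ j l (pd (i + 1) (tr (i + 1) v)) = ρ j l v := by
      intro j l hjl v
      rw [← sub_eq_zero, ← map_sub]
      apply P1
      have : (X : B⟦X⟧) ^ (i + 1) ∣ pd (i + 1) (tr (i + 1) v) - v := by
        rw [← tr_eq, tr_pd]
      exact (pow_dvd_pow _ (by omega)).trans this
    obtain ⟨e, he1, he2, w, hw⟩ := constTerm h κ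
    refine ⟨e, he1, fun v hv => ?_, pd (i + 1) (κ w), ?_, ?_⟩
    · have h1 : κ (tr (i + 1) v) = tr (i + 1) v := by
        apply hκ2
        rintro ⟨j, l⟩ hs
        simp only [Finset.mem_filter, Finset.mem_product, Finset.mem_range] at hs
        rw [LinearMap.comp_apply, hρ j l hs.2]
        exact (hD i v).1 hv j l hs.2
      have h2 := he2 (tr (i + 1) v)
      rw [h1] at h2
      exact h2
    · rw [hD]
      intro j l hjl
      exact hκ1 w (j, l) (by
        simp only [Finset.mem_filter, Finset.mem_product, Finset.mem_range]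
        omega)
    · rw [← hw]
      have := congrFun (tr_pd (i + 1) (κ w)) 0
      exact this

end Pool.Agent.helper2.WG
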