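import Mathlib
import Pool.Agent.helper2.WG.ThmS
import Pool.Agent.helper2.WG.Nec
import Pool.Agent.helper2.WG.Homol

set_option autoImplicit false

open CategoryTheory PowerSeries

namespace Pool.Agent.helper2.WG

universe u

section

variable {A : Type u} [Ring A] {n : ℕ}

theorem matReg (h : ∀ a : A, ∃ b, a * b * a = a) (n : ℕ) (a : Matrix (Fin n) (Fin n) A) :
    ∃ b, a * b * a = a := by
  obtain ⟨g, hg⟩ := frreg h (mk (Matrix.toLinearMapRight' a))
  refine ⟨LinearMap.toMatrixRight' (ap g), ?_⟩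
  apply Matrix.toLinearMapRight'.injective
  rw [Matrix.toLinearMapRight'_mul, Matrix.toLinearMapRight'_mul,
    LinearEquiv.symm_apply_apply]
  exact hg

def CIr (S : Type u) [Ring S] : Prop :=
  ∀ a b : ℕ → S, (∀ i j, a i * b j = 0) → ∃ t : S, (∀ i, a i * t = 0) ∧ ∀ j, t * b j = b j

theorem CIr.congr {S S' : Type u} [Ring S] [Ring S'] (e : S ≃+* S') (h : CIr S') : CIr S := by
  intro a b hab
  obtain ⟨t, ht1, ht2⟩ := h (fun i => e (a i)) (fun j => e (b j)) (fun i j => by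
    rw [← map_mul, hab, map_zero])
  refine ⟨e.symm t, fun i => e.injective ?_, fun j => e.injective ?_⟩
  · rw [map_mul, e.apply_symm_apply, ht1, map_zero]
  · rw [map_mul, e.apply_symm_apply, ht2]

theorem matCI (h : ∀ n, CIr (Matrix (Fin n) (Fin n) A)) (n m : ℕ) :
    CIr (Matrix (Fin m) (Fin m) (Matrix (Fin n) (Fin n) A)) :=
  ((h (m * n)).congr (Matrix.reindexRingEquiv A finProdFinEquiv)).congr
    (Matrix.compRingEquiv (Fin m) (Fin n) A)

noncomputable def hat (P : Matrix (Fin n) (Fin n) A⟦X⟧) : (Matrix (Fin n) (Fin n) A)⟦X⟧ :=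
  PowerSeries.mk fun k => P.map (coeff k)

noncomputable def unhat (t : (Matrix (Fin n) (Fin n) A)⟦X⟧) : Matrix (Fin n) (Fin n) A⟦X⟧ :=
  Matrix.of fun i j => PowerSeries.mk fun k => coeff k t i j

theorem unhat_hat (P : Matrix (Fin n) (Fin n) A⟦X⟧) : unhat (hat P) = P := by
  ext i j k
  simp [hat, unhat]

theorem hat_unhat (t : (Matrix (Fin n) (Fin n) A)⟦X⟧) : hat (unhat t) = t := by
  ext k i j
  simp [hat, unhat]

theorem hat_mul (P Q : Matrix (Fin n) (Fin n) A⟦X⟧) : hat (P * Q) = hat P * hat Q := by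
  ext k i j
  rw [coeff_mul, Matrix.sum_apply]
  simp only [hat, coeff_mk, Matrix.map_apply, Matrix.mul_apply, map_sum, coeff_mul]
  rw [Finset.sum_comm]

theorem hat_inj {P Q : Matrix (Fin n) (Fin n) A⟦X⟧} (h : hat P = hat Q) : P = Q := by
  rw [← unhat_hat P, h, unhat_hat]

theorem hat_zero : hat (0 : Matrix (Fin n) (Fin n) A⟦X⟧) = 0 := by
  ext k i j
  simp [hat]

theorem sufficiency (h : ∀ a : A, ∃ b, a * b * a = a)
    (hci : ∀ n, CIr (Matrix (Fin n) (Fin n) A)) (n : ℕ) (P Q : Matrix (Fin n) (Fin n) A⟦X⟧)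
    (hPQ : P * Q = 0) : ∃ T : Matrix (Fin n) (Fin n) A⟦X⟧, P * T = 0 ∧ T * Q = Q := by
  obtain ⟨t, ht1, ht2⟩ := thmS (B := Matrix (Fin n) (Fin n) A) (matReg h n)
    (fun m => matCI hci n m) (hat Q) (hat P) (by rw [← hat_mul, hPQ, hat_zero])
  refine ⟨1 - unhat t, ?_, ?_⟩
  · have : P * unhat t = P := hat_inj (by rw [hat_mul, hat_unhat, ht2])
    rw [mul_sub, mul_one, this, sub_self]
  · have : unhat t * Q = 0 := hat_inj (by rw [hat_mul, hat_unhat, ht1, hat_zero])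
    rw [sub_mul, one_mul, this, sub_zero]

theorem main (A : Type u) [Ring A] : wGlDim A⟦X⟧ = 1 ↔
    Nontrivial A ∧ (∀ a : A, ∃ b, a * b * a = a) ∧
    ∀ (n : ℕ) (a b : ℕ → Matrix (Fin n) (Fin n) A), (∀ i j, a i * b j = 0) →
      ∃ t : Matrix (Fin n) (Fin n) A, (∀ i, a i * t = 0) ∧ ∀ j, t * b j = b j := by
  constructor
  · intro h
    refine ⟨?_, necessity A ((wGlDim_le_one_iff A⟦X⟧).1 h.le)⟩
    by_contra hA
    rw [not_nontrivial_iff_subsingleton] at hA
    have : Subsingleton A⟦X⟧ := ⟨fun v w => by ext n; exact Subsingleton.elim _ _⟩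
    rw [wGlDim_of_subsingleton] at h
    exact zero_ne_one h
  · rintro ⟨hA, h1, h2⟩
    have h3 : wGlDim A⟦X⟧ ≤ 1 := (wGlDim_le_one_iff A⟦X⟧).2 (sufficiency h1 h2)
    have h4 : wGlDim A⟦X⟧ ≠ 0 := fun h0 => by
      obtain ⟨b, hb⟩ := reg_of_wGlDim_eq_zero A⟦X⟧ h0 X
      have := congrArg (coeff 1) hb
      rw [mul_assoc, ← X_mul, ← mul_assoc, coeff_one_X] at this
      have h5 : coeff 1 ((X : A⟦X⟧) * X * b) = 0 := by
        rw [mul_assoc, coeff_succ_X_mul, coeff_zero_eq_constantCoeff_apply, map_mul]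
        simp
      rw [h5] at this
      exact zero_ne_one this
    exact le_antisymm h3 (Order.one_le_iff_ne_zero.2 h4)

end

end Pool.Agent.helper2.WG
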